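import Pool.Agent.L0h2.P.KYJ
import Pool.Agent.L0h74.EV.Den

/-!
# Project P: preparations for the assembly
-/

set_option autoImplicit false
set_option linter.unusedVariables false
set_option maxHeartbeats 4000000

open scoped Classical
open Finset Filter
open scoped Topology

namespace Pool.Agent.L0h2.P

open Pool.Agent.N973.ND (Pr m7 ty SA kd RecA CntP card_Z m7_le)
open Pool.Agent.L0h1.KD (n0)
open Pool.Agent.L0h74.EV (Dt tyO m7O nO GdO SE Cl n2 NdE tyO_cases)
open Pool.Agent.L0h74.EV.KEY (ph inj_ph)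
open Pool.Agent.Y703.CQ (c2 nr)
open Pool.Agent.Y703
open Pool.Agent.Y703.CX (sm la jj XX eL zz kk eL_tendsto logX_eq HH ev_eL one_le_exp
  HH_ge HH_le HH_pos kk_ge kk_le X_pos one_add_log lin_le kap zz_ge zz_pos kap_nonneg kap_pow kap_le)
open Pool.Agent.N218.GB.Asy (Sml sml_of sml_add sml_eps cmp log_three)

/-- the main error term -/
theorem sml_mainJ (u K : ℕ) {C : ℝ} (hC : 1 ≤ C) : Sml fun X =>
    (9 * ((u : ℝ) * (CX.NN X : ℝ)) + 9) ^ kk X *
    (3 ^ (K * (kk X ^ 2 + 1)) * kap C X) * (X * (1 + Real.log X)) := by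
  apply sml_of (C := 4 * C) (a := 1) (by norm_num)
  filter_upwards [ev_eL (40000 + 36 * u + 2000 * K)] with X hX
  set l := eL X with hl
  have hu0 : (0 : ℝ) ≤ u := Nat.cast_nonneg _
  have hK0 : (0 : ℝ) ≤ K := Nat.cast_nonneg _
  have h0 : 0 < eL X := by linarith
  have h1 : 1 ≤ eL X := by linarith
  have hX0 : (0 : ℝ) ≤ X := Nat.cast_nonneg _
  have hN : 9 * ((u : ℝ) * (CX.NN X : ℝ)) + 9 ≤ Real.exp (5 * l) := by
    have h2 : (CX.NN X : ℝ) ≤ HH X * Real.log X + 1 := by
      unfold CX.NN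
      push_cast
      have := Nat.floor_le (a := (HH X : ℝ) * Real.log X)
        (mul_nonneg (Nat.cast_nonneg _) (Real.log_natCast_nonneg X))
      linarith
    have h3 : (HH X : ℝ) * Real.log X ≤ 2 * Real.exp (4 * l) := by
      rw [logX_eq h0]
      calc (HH X : ℝ) * Real.exp (eL X) ≤ 2 * Real.exp (3 * eL X) * Real.exp (eL X) :=
            mul_le_mul_of_nonneg_right (HH_le h0) (Real.exp_pos _).le
        _ = 2 * Real.exp (4 * l) := by
            rw [mul_assoc, ← Real.exp_add]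
            congr 2
            rw [hl]
            ring
    have h4 : 1 ≤ Real.exp (4 * l) := one_le_exp (by linarith)
    have h5 : 27 * (u : ℝ) + 9 ≤ Real.exp l := by
      have := Real.add_one_le_exp l
      linarith
    have h6 : Real.exp (5 * l) = Real.exp (4 * l) * Real.exp l := by
      rw [← Real.exp_add]; congr 1; ring
    rw [h6]
    have h7 : (CX.NN X : ℝ) ≤ 3 * Real.exp (4 * l) := by linarith
    have h8 : (u : ℝ) * (CX.NN X : ℝ) ≤ u * (3 * Real.exp (4 * l)) :=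
      mul_le_mul_of_nonneg_left h7 hu0
    have h9 : Real.exp (4 * l) * (27 * (u : ℝ) + 9) ≤ Real.exp (4 * l) * Real.exp l :=
      mul_le_mul_of_nonneg_left h5 (Real.exp_pos _).le
    linarith
  have hkk := kk_le h1
  have hkk0 : (0 : ℝ) ≤ kk X := Nat.cast_nonneg _
  have hA : (9 * ((u : ℝ) * (CX.NN X : ℝ)) + 9) ^ kk X ≤ Real.exp (55 * l ^ 2) := by
    calc (9 * ((u : ℝ) * (CX.NN X : ℝ)) + 9) ^ kk X ≤ (Real.exp (5 * l)) ^ kk X := by gcongr
      _ = Real.exp (kk X * (5 * l)) := (Real.exp_nat_mul _ _).symm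
      _ ≤ Real.exp (55 * l ^ 2) := by
          apply Real.exp_le_exp.2
          nlinarith
  have hB : (3 : ℝ) ^ (K * (kk X ^ 2 + 1)) ≤ Real.exp ((135 * K) * l ^ 2) := by
    have e : (3 : ℝ) ^ (K * (kk X ^ 2 + 1)) =
        Real.exp ((K * ((kk X : ℝ) ^ 2 + 1)) * Real.log 3) := by
      rw [mul_comm (K * ((kk X : ℝ) ^ 2 + 1)) (Real.log 3), Real.exp_mul,
        Real.exp_log (by norm_num)]
      rw [← Real.rpow_natCast]
      congr 1
      push_cast
      ring
    rw [e]
    apply Real.exp_le_exp.2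
    have h2 := log_three
    have h3 : (kk X : ℝ) ^ 2 ≤ 121 * l ^ 2 := by nlinarith
    have h4 : 0 ≤ (kk X : ℝ) ^ 2 := sq_nonneg _
    have h6 : 1 ≤ l ^ 2 := one_le_pow₀ h1
    have h5 : ((kk X : ℝ) ^ 2 + 1) * Real.log 3 ≤ 135 * l ^ 2 := by
      have h7 : ((kk X : ℝ) ^ 2 + 1) * Real.log 3 ≤ ((kk X : ℝ) ^ 2 + 1) * 1.1 :=
        mul_le_mul_of_nonneg_left h2 (by positivity)
      linarith
    calc (K * ((kk X : ℝ) ^ 2 + 1)) * Real.log 3 = K * (((kk X : ℝ) ^ 2 + 1) * Real.log 3) := by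
          ring
      _ ≤ K * (135 * l ^ 2) := mul_le_mul_of_nonneg_left h5 hK0
      _ = _ := by ring
  have hKp := kap_le hC h1
  have hLg := one_add_log h0
  have hmain : (9 * ((u : ℝ) * (CX.NN X : ℝ)) + 9) ^ kk X *
      (3 ^ (K * (kk X ^ 2 + 1)) * kap C X) *
      (X * (1 + Real.log X)) ≤ Real.exp (55 * l ^ 2) * (Real.exp ((135 * K) * l ^ 2) *
        (2 * C * Real.exp (-l ^ 3 / 12))) * (X * (2 * Real.exp l)) := by
    have := kap_nonneg hC X
    have : 0 ≤ 1 + Real.log X := by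
      have := Real.log_natCast_nonneg X
      linarith
    gcongr
  refine hmain.trans ?_
  have e : Real.exp (55 * l ^ 2) * (Real.exp ((135 * K) * l ^ 2) *
        (2 * C * Real.exp (-l ^ 3 / 12))) * (X * (2 * Real.exp l)) =
      4 * C * (X * Real.exp (55 * l ^ 2 + (135 * K) * l ^ 2 + -l ^ 3 / 12 + l)) := by
    rw [Real.exp_add, Real.exp_add, Real.exp_add]
    ring
  rw [e]
  have h9 : 55 * l ^ 2 + (135 * K) * l ^ 2 + -l ^ 3 / 12 + l ≤ -1 * l := by
    have h10 : (40000 + 2000 * K) * l ^ 2 ≤ l ^ 3 := by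
      have : l ^ 3 = l * l ^ 2 := by ring
      rw [this]
      exact mul_le_mul_of_nonneg_right (by linarith) (sq_nonneg l)
    have h11 : l ≤ l ^ 2 := by nlinarith
    have h12 : 0 ≤ (K : ℝ) * l ^ 2 := by positivity
    nlinarith
  have h11 := Real.exp_le_exp.2 h9
  have hC0 : (0 : ℝ) ≤ 4 * C := by linarith
  gcongr

/-- **`kd` is not negative for the good sets.** -/
theorem t_NEGS {s : Sy} {S : Finset ℕ} (ht : s.d.t = 2 ∨ s.d.t = 3)
    (hdis : ∀ v ∈ S, some v ∉ s.W) (hG : GdS s S) : 0 ≤ kW s + kd S := by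
  obtain ⟨h1, -⟩ := hG
  have h2 := card_Z h1
  set Sp := univ.filter fun i : SW s S => m7O (i : Option ℕ) = 1 with hSp
  set Pc := univ.filter fun i : SW s S => tyO s.d.t (i : Option ℕ) = 2 ∨
    tyO s.d.t (i : Option ℕ) = 1 with hPc
  have h3 : Pc.card ≤ Sp.card := by
    by_contra hc
    push Not at hc
    have h4 : 2 ^ Sp.card < 2 ^ Pc.card := Nat.pow_lt_pow_right (by norm_num) hc
    have h5 : 0 < 2 ^ Sp.card := by positivity
    rw [← h2] at h5 h4
    have h7 := Nat.le_mul_of_pos_left (2 ^ Pc.card) (pos_of_mul_pos_left h5 (Nat.zero_le _))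
    exact absurd h7 (not_le.2 h4)
  have key : ∀ x : Option ℕ, (if m7O x = 1 then (1 : ℤ) else 0) -
      (if tyO s.d.t x = 2 ∨ tyO s.d.t x = 1 then 1 else 0) =
      (if tyO s.d.t x = 3 then 1 else 0) - (if tyO s.d.t x = 1 then 1 else 0) := by
    intro x
    rcases tyO_cases ht x with h | h | h | h <;> rw [h.1, h.2.1] <;> simp
  have h5 : (Sp.card : ℤ) - (Pc.card : ℤ) = kd S + kW s := by
    rw [hSp, hPc, card_filter, card_filter]
    push_cast
    rw [← sum_sub_distrib]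
    refine Eq.trans (sum_congr (s₁ := (univ : Finset (SW s S))) rfl
      fun i _ => key (i : Option ℕ)) ?_
    refine (sum_SW (M := ℤ) hdis fun v => ((if tyO s.d.t v = 3 then (1 : ℤ) else 0) -
        (if tyO s.d.t v = 1 then 1 else 0))).trans ?_
    unfold kd kW
    rw [card_filter, card_filter, card_filter, card_filter]
    push_cast
    rw [← sum_sub_distrib, ← sum_sub_distrib]
    rfl
  omega

/-- the nondegeneracy with the primes of the modulus -/
theorem ndj_of {t : ℕ} {s : Fin t → Sy} {S₀ S₁ R : Finset ℕ}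
    (hR : ∀ l p, some p ∈ (s l).W → p ∈ R) (h : NdE (S₀ ∪ R) S₁) : NdJ s S₀ S₁ := by
  intro l w hw
  set w' : Option ℕ → ZMod 2 := fun v => if v ∈ SW (s l) S₀ then w v else 0 with hw'
  have hmem : ∀ v, v ∈ SW (s l) S₀ → v = none ∨ ∃ p ∈ S₀ ∪ R, v = some p := by
    intro v hv
    unfold SW at hv
    rw [mem_union, mem_image] at hv
    rcases hv with ⟨a, ha, rfl⟩ | hv
    · exact Or.inr ⟨a, mem_union_left _ ha, rfl⟩
    · rcases v with _ | v
      · exact Or.inl rfl
      · exact Or.inr ⟨v, mem_union_right _ (hR l v hv), rfl⟩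
  obtain ⟨p, hp, hp2, hp3⟩ := h (fun q => w' (some q)) (w' none) (by
    obtain ⟨v, hv, hv2⟩ := hw
    have h1 : w' v ≠ 0 := by
      rw [hw']
      simp only
      rw [if_pos hv]
      exact hv2
    rcases hmem v hv with rfl | ⟨q, hq, rfl⟩
    · exact Or.inr h1
    · exact Or.inl ⟨q, hq, h1⟩)
  refine ⟨p, hp, hp2, ?_⟩
  have e1 : ∑ v ∈ SW (s l) S₀, w v * nO (s l).d.t (some p) v =
      ∑ v ∈ insertNone (S₀ ∪ R), w' v * nO (s l).d.t (some p) v := by
    have hsub : SW (s l) S₀ ⊆ insertNone (S₀ ∪ R) := by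
      intro v hv
      rcases hmem v hv with rfl | ⟨q, hq, rfl⟩
      · simp
      · rw [Finset.some_mem_insertNone]
        exact hq
    rw [← sum_subset hsub]
    · refine sum_congr rfl fun v hv => ?_
      rw [hw']
      simp only
      rw [if_pos hv]
    · intro v _ hv
      rw [hw']
      simp only
      rw [if_neg hv, zero_mul]
  rw [e1, Finset.sum_insertNone, add_comm]
  exact hp3

end Pool.Agent.L0h2.P
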