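import Mathlib
import Pool.Agent.L0h2.P.DEN0
import Pool.Agent.L0h74.AP.Den

/-! # Project P: the assembly -/

set_option autoImplicit false
set_option linter.unusedVariables false

open scoped Classical
open Finset Filter
open scoped Topology

namespace Pool.Agent.L0h2.P

open Pool.Agent.Y703
open Pool.Agent.Y703.CX (sm la jj XX eL zz kk eL_tendsto logX_eq HH ev_eL one_le_exp
  HH_ge HH_le HH_pos kk_ge kk_le X_pos one_add_log lin_le kap zz_ge zz_pos kap_nonneg kap_pow kap_le)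
open Pool.Agent.Y703.CQ (nr sg c2)
open Pool.Agent.N973.ND (Pr m7 uu ty kd RecA SA)
open Pool.Agent.L0h1.KD (n0)
open Pool.Agent.L0h74.EV (Dt tyO nO GdO SE Cl n2 NdE)
open Pool.Agent.L0h74.EV.KEY (ph CC ty_mod)
open Pool.Agent.L0h74.AP (Cp Cg)
open Pool.Agent.N218.GB.Asy (Sml sml_of sml_add sml_eps cmp log_three)
open Pool.Agent.L0h74.KD.Den (c2_mem sml_many sml_cut sml_coll SA_card)
open Pool.Agent.L0h74.EV.Den (SE_sub)

/-! ### the keys -/

section keys
variable {u z H : ℕ} {S : Finset ℕ}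

lemma card_img (h : Set.InjOn (jj H) (la z S : Set ℕ)) (P : ℕ × ℕ → Prop) [DecidablePred P] :
    ((((la z S).image (ph u H)).filter P).card) = ((la z S).filter fun p => P (ph u H p)).card := by
  rw [filter_image, card_image_of_injOn]
  intro p hp q hq hpq
  rw [coe_filter] at hp hq
  exact h hp.1 hq.1 (congrArg Prod.fst hpq)

lemma card_sm_la (P : ℕ → Prop) [DecidablePred P] : (S.filter P).card =
    ((sm z S).filter P).card + ((la z S).filter P).card := by
  unfold sm la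
  rw [filter_filter, filter_filter, ← card_filter_add_card_filter_not (s := S.filter P)
    (fun p => p ≤ z), filter_filter, filter_filter]
  congr 2
  · exact filter_congr fun p _ => and_comm
  · exact filter_congr fun p _ => and_comm

lemma kJ_eqD (h4 : 4 ∣ u) (h : Set.InjOn (jj H) (la z S : Set ℕ)) :
    kJ (sm z S) ((la z S).image (ph u H)) = kd S := by
  unfold kJ kd
  rw [card_img h, card_img h, card_sm_la (z := z) (S := S) fun p => ty p = 3,
    card_sm_la (z := z) (S := S) fun p => ty p = 1]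
  have e : ∀ c, ((la z S).filter fun p => ty (ph u H p).2 = c).card =
      ((la z S).filter fun p => ty p = c).card := fun c => by
    congr 1
    refine filter_congr fun p _ => ?_
    show ty (p % (7 * u)) = c ↔ _
    rw [ty_mod h4]
  rw [e, e]
  push_cast
  ring

lemma n0_img (h4 : 4 ∣ u) (h : Set.InjOn (jj H) (la z S : Set ℕ)) :
    ((((la z S).image (ph u H)).filter fun e => ty e.2 = 0).card) = n0 z S := by
  rw [card_img h]
  unfold n0
  congr 1
  refine filter_congr fun p _ => ?_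
  show ty (p % (7 * u)) = 0 ↔ _
  rw [ty_mod h4]

end keys

/-! ### the sets -/

lemma mem_SA {X : ℕ} {S : Finset ℕ} : S ∈ SA X ↔ (∀ p ∈ S, Pr p) ∧ ∏ p ∈ S, p ≤ X := by
  unfold SA
  rw [mem_filter, mem_powerset]
  constructor
  · exact fun h => h.2
  · intro h
    refine ⟨fun p hp => mem_range.2 (Nat.lt_succ_of_le (le_trans ?_ h.2)), h⟩
    exact Nat.le_of_dvd (Nat.pos_of_ne_zero (prod_ne_zero_iff.2 fun q hq => (h.1 q hq).1.ne_zero))
      (dvd_prod_of_mem _ hp)

/-- the odd primes of the modulus -/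
noncomputable def R0 (u : ℕ) : Finset ℕ := u.primeFactors.filter Pr

lemma R0_le {u z p : ℕ} (hz : u ≤ z) (hp : p ∈ R0 u) : p ≤ z :=
  (Nat.le_of_mem_primeFactors (mem_filter.1 hp).1).trans hz

lemma R0_pos (u : ℕ) : 0 < ∏ p ∈ R0 u, p :=
  Nat.pos_of_ne_zero (prod_ne_zero_iff.2 fun q hq => (mem_filter.1 hq).2.1.ne_zero)

lemma SE_disj {u a X : ℕ} (hc : Nat.Coprime a u) {S : Finset ℕ} (hS : S ∈ SE u a X) :
    Disjoint S (R0 u) := by
  rw [Finset.disjoint_left]
  intro p hp hr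
  unfold SE at hS
  rw [mem_filter] at hS
  obtain ⟨-, ⟨h1, h2⟩, -⟩ := hS
  have h3 := Nat.dvd_of_mem_primeFactors (mem_filter.1 hr).1
  have h4 : p ∣ ∏ q ∈ S, q := dvd_prod_of_mem _ hp
  have h5 : p ∣ a := by
    rw [← h2]
    exact (Nat.dvd_mod_iff h3).2 h4
  have h6 : p ∣ 1 := by
    rw [← hc]
    exact Nat.dvd_gcd h5 h3
  exact (h1 p hp).1.one_lt.ne' (Nat.dvd_one.1 h6)

lemma sm_un {u z : ℕ} (hz : u ≤ z) (S : Finset ℕ) : sm z (S ∪ R0 u) = sm z S ∪ R0 u := by
  ext p
  unfold sm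
  simp only [mem_filter, mem_union]
  constructor
  · rintro ⟨h | h, h2⟩
    · exact Or.inl ⟨h, h2⟩
    · exact Or.inr h
  · rintro (h | h)
    · exact ⟨Or.inl h.1, h.2⟩
    · exact ⟨Or.inr h, R0_le hz h⟩

lemma la_un {u z : ℕ} (hz : u ≤ z) (S : Finset ℕ) : la z (S ∪ R0 u) = la z S := by
  ext p
  unfold la
  simp only [mem_filter, mem_union]
  constructor
  · rintro ⟨h | h, h2⟩
    · exact ⟨h, h2⟩
    · exact absurd (R0_le hz h) h2
  · rintro h
    exact ⟨Or.inl h.1, h.2⟩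

/-- the direct exceptional sets -/
noncomputable def A1 {n : ℕ} (u : ℕ) (cl : Fin n → ℕ) (V' M Y z H k : ℕ) : Finset (Finset ℕ) :=
  ((((SA Y).filter fun S => k < S.card) ∪
    ((SA Y).filter fun S => ¬ Set.InjOn (jj H) (la z S : Set ℕ))) ∪
    ((SA Y).filter fun S => (n0 z S : ℤ) < 3 * kd S + (V' : ℤ))) ∪
    univ.biUnion fun r => (SA Y).filter fun S =>
      (((la z S).filter fun p => p % (7 * u) = cl r).card : ℤ) <
        (M : ℤ) * kd S + (M : ℤ) * ((sm z S).card : ℤ) + (V' : ℤ)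

/-- the exceptional sets, with the primes of the modulus -/
noncomputable def B1 (Y z H k : ℕ) : Finset (Finset ℕ) :=
  (((SA Y).filter fun S => k < S.card) ∪
    ((SA Y).filter fun S => S.card ≤ k ∧
      Y < (∏ p ∈ sm z S, p) * ∏ p ∈ la z S, XX H (jj H p))) ∪
    ((SA Y).filter fun S => S.card ≤ k ∧ ¬ NdE (sm z S) (la z S))

section
variable {t n : ℕ} {s : Fin t → Sy} {u a : ℕ} {cl : Fin n → ℕ} {x : Fin t → Fin n → ZMod 2}

theorem out_subJ (hy : Hy s u a cl x)
    (hnd : ∀ S₀ S₁, NdE (S₀ ∪ R0 u) S₁ → NdJ s S₀ S₁) {V V' M X z H k : ℕ} (hz : u ≤ z) :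
    (((SE u a X).filter fun S => (V : ℤ) ≤ kd S) \
      ((RK u a X z H k (KQ cl V V' M)).filter fun S => NdJ s (sm z S) (la z S))) ⊆
    A1 u cl V' M (X * ∏ p ∈ R0 u, p) z H k ∪
      (SE u a X).filter fun S => S ∪ R0 u ∈ B1 (X * ∏ p ∈ R0 u, p) z H k := by
  intro S hS
  rw [Finset.mem_sdiff, Finset.mem_filter, Finset.mem_filter] at hS
  obtain ⟨⟨h1', hV⟩, h2⟩ := hS
  have hd := SE_disj hy.cp.cop h1'
  have hP := R0_pos u
  have hXX : X ≤ X * ∏ p ∈ R0 u, p := Nat.le_mul_of_pos_right _ hP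
  have h0 := mem_SA.1 (SE_sub X h1')
  have h1 : S ∈ SA (X * ∏ p ∈ R0 u, p) := mem_SA.2 ⟨h0.1, h0.2.trans hXX⟩
  have h1u : S ∪ R0 u ∈ SA (X * ∏ p ∈ R0 u, p) := by
    refine mem_SA.2 ⟨fun p hp => ?_, ?_⟩
    · rcases mem_union.1 hp with h | h
      · exact h0.1 p h
      · exact (mem_filter.1 h).2
    · rw [prod_union hd]
      exact Nat.mul_le_mul_right _ h0.2
  by_contra hc
  rw [mem_union, not_or] at hc
  obtain ⟨c1, c2⟩ := hc
  unfold A1 at c1
  simp only [mem_union, mem_filter, mem_biUnion, mem_univ, true_and, not_or, not_exists] at c1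
  obtain ⟨⟨⟨a1, a2⟩, a3⟩, a4⟩ := c1
  rw [mem_filter] at c2
  have c3 : S ∪ R0 u ∉ B1 (X * ∏ p ∈ R0 u, p) z H k := fun h => c2 ⟨h1', h⟩
  unfold B1 at c3
  simp only [mem_union, mem_filter, not_or] at c3
  obtain ⟨⟨b1, b2⟩, b3⟩ := c3
  have d1 : S.card ≤ k := by
    by_contra h
    exact a1 ⟨h1, not_le.1 h⟩
  have d1' : (S ∪ R0 u).card ≤ k := by
    by_contra h
    exact b1 ⟨h1u, not_le.1 h⟩
  have d2 : Set.InjOn (jj H) (la z S : Set ℕ) := by
    by_contra h
    exact a2 ⟨h1, h⟩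
  have d3 : (∏ p ∈ sm z S, p) * ∏ p ∈ la z S, XX H (jj H p) ≤ X := by
    by_contra h
    apply b2
    refine ⟨h1u, d1', ?_⟩
    have hdd : Disjoint (sm z S) (R0 u) := hd.mono_left (filter_subset _ _)
    rw [sm_un hz, la_un hz, prod_union hdd]
    push Not at h
    calc X * ∏ p ∈ R0 u, p < ((∏ p ∈ sm z S, p) * ∏ p ∈ la z S, XX H (jj H p)) * ∏ p ∈ R0 u, p :=
          Nat.mul_lt_mul_of_pos_right h hP
      _ = _ := by ring
  have d4 : NdJ s (sm z S) (la z S) := by
    apply hnd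
    by_contra h
    apply b3
    refine ⟨h1u, d1', ?_⟩
    rwa [sm_un hz, la_un hz]
  apply h2
  refine ⟨?_, d4⟩
  unfold RK
  rw [mem_filter]
  refine ⟨h1', d2, d1, d3, ?_, ?_, fun r => ?_⟩
  · rw [kJ_eqD hy.four d2]
    exact hV
  · rw [kJ_eqD hy.four d2, n0_img hy.four d2]
    by_contra h
    exact a3 ⟨h1, not_le.1 h⟩
  · rw [kJ_eqD hy.four d2, card_img d2]
    by_contra h
    exact a4 r ⟨h1, not_le.1 h⟩

lemma card_B (hy : Hy s u a cl x) (Y X z H k : ℕ) :
    ((SE u a X).filter fun S => S ∪ R0 u ∈ B1 Y z H k).card ≤ (B1 Y z H k).card := by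
  refine card_le_card_of_injOn (fun S => S ∪ R0 u) (fun S hS => (mem_filter.1 hS).2) ?_
  intro S hS T hT hST
  rw [coe_filter] at hS hT
  have h1 := SE_disj hy.cp.cop hS.1
  have h2 := SE_disj hy.cp.cop hT.1
  have h3 : (S ∪ R0 u) \ R0 u = (T ∪ R0 u) \ R0 u := by
    have : S ∪ R0 u = T ∪ R0 u := hST
    rw [this]
  rwa [union_sdiff_cancel_right h1, union_sdiff_cancel_right h2] at h3

end

/-! ### the small quantities -/

lemma sml_shift {E : ℕ → ℝ} (h : Sml E) {P : ℕ} (hP : 0 < P) : Sml fun X => E (X * P) := by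
  intro δ hδ
  have hP' : (0 : ℝ) < P := by exact_mod_cast hP
  have h1 := h (δ / P) (by positivity)
  have ht : Tendsto (fun X : ℕ => X * P) atTop atTop :=
    tendsto_atTop_mono (fun X => Nat.le_mul_of_pos_right X hP) tendsto_id
  filter_upwards [ht.eventually h1] with X hX
  refine hX.trans (le_of_eq ?_)
  push_cast
  field_simp

lemma sml_sum {ι : Type} (T : Finset ι) (E : ι → ℕ → ℝ) (h : ∀ i ∈ T, Sml (E i)) :
    Sml fun X => ∑ i ∈ T, E i X := by
  induction T using Finset.induction_on with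
  | empty =>
    intro δ hδ
    refine Eventually.of_forall fun X => ?_
    simp only [sum_empty]
    positivity
  | insert i T hi ih =>
    simp only [sum_insert hi]
    exact sml_add (h i (mem_insert_self _ _)) (ih fun j hj => h j (mem_insert_of_mem hj))

lemma amc_mem {t : ℕ} (β : Fin t → Bool) : 0 ≤ amc β ∧ amc β ≤ 1 := by
  obtain ⟨m0, m1⟩ := c2_mem
  unfold amc
  constructor
  · exact prod_nonneg fun l _ => by split_ifs <;> linarith
  · exact prod_le_one (fun l _ => by split_ifs <;> linarith) (fun l _ => by split_ifs <;> linarith)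

lemma card_A1 {n : ℕ} (u : ℕ) (cl : Fin n → ℕ) (V' M Y z H k : ℕ) :
    ((A1 u cl V' M Y z H k).card : ℝ) ≤ ((((((SA Y).filter fun S => k < S.card).card : ℝ) +
    (((SA Y).filter fun S => ¬ Set.InjOn (jj H) (la z S : Set ℕ)).card : ℝ)) +
    (((SA Y).filter fun S => (n0 z S : ℤ) < 3 * kd S + (V' : ℤ)).card : ℝ)) +
    ∑ r : Fin n, (((SA Y).filter fun S =>
      (((la z S).filter fun p => p % (7 * u) = cl r).card : ℤ) <
        (M : ℤ) * kd S + (M : ℤ) * ((sm z S).card : ℤ) + (V' : ℤ)).card : ℝ)) := by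
  have h1 : (A1 u cl V' M Y z H k).card ≤ ((((SA Y).filter fun S => k < S.card).card +
    ((SA Y).filter fun S => ¬ Set.InjOn (jj H) (la z S : Set ℕ)).card) +
    ((SA Y).filter fun S => (n0 z S : ℤ) < 3 * kd S + (V' : ℤ)).card) +
    ∑ r : Fin n, ((SA Y).filter fun S =>
      (((la z S).filter fun p => p % (7 * u) = cl r).card : ℤ) <
        (M : ℤ) * kd S + (M : ℤ) * ((sm z S).card : ℤ) + (V' : ℤ)).card := by
    unfold A1
    refine (card_union_le _ _).trans (Nat.add_le_add ?_ card_biUnion_le)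
    refine (card_union_le _ _).trans (Nat.add_le_add_right (card_union_le _ _) _)
  exact_mod_cast h1

lemma card_B1 (Y z H k : ℕ) :
    ((B1 Y z H k).card : ℝ) ≤ ((((SA Y).filter fun S => k < S.card).card : ℝ) +
    (((SA Y).filter fun S => S.card ≤ k ∧
      Y < (∏ p ∈ sm z S, p) * ∏ p ∈ la z S, XX H (jj H p)).card : ℝ)) +
    (((SA Y).filter fun S => S.card ≤ k ∧ ¬ NdE (sm z S) (la z S)).card : ℝ) := by
  have h1 : (B1 Y z H k).card ≤ (((SA Y).filter fun S => k < S.card).card +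
    ((SA Y).filter fun S => S.card ≤ k ∧
      Y < (∏ p ∈ sm z S, p) * ∏ p ∈ la z S, XX H (jj H p)).card) +
    ((SA Y).filter fun S => S.card ≤ k ∧ ¬ NdE (sm z S) (la z S)).card := by
    unfold B1
    exact (card_union_le _ _).trans (Nat.add_le_add_right (card_union_le _ _) _)
  exact_mod_cast h1

/-- **The joint law in a class.** -/
theorem t_DJ (hKY : S_KYJ) (hFJ : S_FEWJ) : S_DJ := by
  intro t n s u a cl x hy β ε hε
  obtain ⟨C, hC1, hkey⟩ := hKY
  obtain ⟨V₀, hV₀⟩ : ∃ V₀ : ℕ, (4 * (t : ℝ) + 2) * (1 / 2 : ℝ) ^ V₀ ≤ ε / 16 := by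
    obtain ⟨V₀, h⟩ := exists_pow_lt_of_lt_one (show 0 < ε / 16 / (4 * (t : ℝ) + 2) by positivity)
      (show (1 / 2 : ℝ) < 1 by norm_num)
    refine ⟨V₀, ?_⟩
    rw [lt_div_iff₀ (by positivity)] at h
    linarith
  obtain ⟨V, V', M, K, hkey⟩ := hkey t n s u a cl x hy V₀
  have hPR := R0_pos u
  set P : ℕ := ∏ p ∈ R0 u, p with hP
  -- the exceptional sets
  have s1 := sml_many Pool.Agent.L0h74.KD.CNT.t_CNT
  have s2 := sml_cut Pool.Agent.L0h74.KD.CNT.t_CNT
  have s3 := sml_coll Pool.Agent.L0h74.KD.CNT.t_CNT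
  have s4 := sml_eps (Pool.Agent.L0h74.KD.FEW.t_FEW V')
  have s5 := sml_eps Pool.Agent.L0h74.EV.BAD.t_BADE
  have s6 := sml_sum (univ : Finset (Fin n)) (fun r Y => (((SA Y).filter fun S =>
      (((la (zz Y) S).filter fun p => p % (7 * u) = cl r).card : ℤ) <
        (M : ℤ) * kd S + (M : ℤ) * ((sm (zz Y) S).card : ℤ) + (V' : ℤ)).card : ℝ))
    fun r _ => sml_eps (hFJ (7 * u) (cl r) M V' (hy.clc r).1 (hy.clc r).2)
  have s8 := sml_mainJ u K hC1
  have stot := sml_shift (sml_add (sml_add (sml_add (sml_add (sml_add s1 s3) s4) s6)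
    (sml_add (sml_add s1 s2) s5)) s8) hPR
  have hev := stot (ε / 16) (by linarith)
  -- the half law
  set B : ℕ := ∑ l, (kW (s l)).natAbs with hB
  have hcg : Cg 1 u a := ⟨hy.cp, hy.four, squarefree_one, one_dvd _, by norm_num⟩
  obtain ⟨X₁, hX₁⟩ := Pool.Agent.L0h74.AP.Den.t_KD' hcg (one_mul u).symm (one_mul a).symm
    (V : ℤ) (ε / 16) (by linarith)
  obtain ⟨X₂, hX₂⟩ := Pool.Agent.L0h74.AP.Den.t_KD' hcg (one_mul u).symm (one_mul a).symm
    (-(B : ℤ)) (ε / 16) (by linarith)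
  have ht : Tendsto (fun X : ℕ => X * P) atTop atTop :=
    tendsto_atTop_mono (fun X => Nat.le_mul_of_pos_right X hPR) tendsto_id
  filter_upwards [hev, ht.eventually (ev_eL (2 * u + 1)), eventually_ge_atTop X₁,
    eventually_ge_atTop X₂, eventually_ge_atTop 1] with X hX hl' hk1 hk2 hX1
  have hKD1 := hX₁ X hk1
  have hKD2 := hX₂ X hk2
  set Y : ℕ := X * P with hY
  have hu0 : (0 : ℝ) ≤ u := Nat.cast_nonneg _
  have hl : 1 ≤ eL Y := by linarith
  have hl0 : 0 < eL Y := by linarith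
  have hXY : X ≤ Y := Nat.le_mul_of_pos_right _ hPR
  have hXR : (1 : ℝ) ≤ X := by exact_mod_cast hX1
  have hXYR : (X : ℝ) ≤ Y := by exact_mod_cast hXY
  have hlogXY : Real.log X ≤ Real.log Y := Real.log_le_log (by linarith) hXYR
  have hNN : (HH Y : ℝ) * Real.log X < CX.NN Y := by
    refine lt_of_le_of_lt (mul_le_mul_of_nonneg_left hlogXY (Nat.cast_nonneg _)) ?_
    unfold CX.NN
    push_cast
    exact Nat.lt_floor_add_one _
  have huz : u ≤ zz Y := by
    have h1 := zz_ge hl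
    have h2 := Real.add_one_le_exp (eL Y ^ 3)
    have h3 : eL Y ≤ eL Y ^ 3 := le_self_pow₀ hl (by norm_num)
    have h4 : (u : ℝ) ≤ zz Y := by linarith
    exact_mod_cast h4
  have hmain := hkey β X (zz Y) (HH Y) (kk Y) (CX.NN Y) (kap C Y) hX1 (HH_pos hl0) huz
    (kap_nonneg hC1 Y) (kap_pow hC1 hl) hNN
  set RKs := RK u a X (zz Y) (HH Y) (kk Y) (KQ cl V V' M) with hRK
  set T := RKs.filter fun S => NdJ s (sm (zz Y) S) (la (zz Y) S) with hT
  set R := (SE u a X).filter fun S => (V : ℤ) ≤ kd S with hR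
  set R' := (SE u a X).filter fun S => -(B : ℤ) ≤ kd S with hR'
  have hTG : RKs.filter (fun S => NdJ s (sm (zz Y) S) (la (zz Y) S) ∧ PatS s β S) =
      T.filter (PatS s β) := by
    rw [hT, filter_filter]
  rw [hTG] at hmain
  have hTR : T ⊆ R := by
    intro S hS
    rw [hT, mem_filter, hRK, RK, mem_filter] at hS
    rw [hR, mem_filter]
    refine ⟨hS.1.1, ?_⟩
    have := hS.1.2.2.2.2.1
    rwa [kJ_eqD hy.four hS.1.2.1] at this
  have hRS : (RKs.card : ℝ) ≤ X := by
    exact_mod_cast (card_le_card ((filter_subset _ _).trans (SE_sub X))).trans (SA_card X)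
  have hcmp := cmp (PatS s β) T R hTR (amc β) (amc_mem β).1 (amc_mem β).2
  have hout : ((R \ T).card : ℝ) ≤ ((A1 u cl V' M Y (zz Y) (HH Y) (kk Y)).card : ℝ) +
      ((B1 Y (zz Y) (HH Y) (kk Y)).card : ℝ) := by
    have g := card_le_card (out_subJ (V := V) (V' := V') (M := M) (X := X) (H := HH Y)
      (k := kk Y) hy (fun S₀ S₁ h => ndj_of (fun l p hp => mem_filter.2
        ⟨Nat.mem_primeFactors.2 ⟨(hy.W l _ hp).1, hy.Wu l p hp, hy.cp.pos.ne'⟩, hy.W l _ hp⟩) h)
      huz)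
    rw [← hRK, ← hT, ← hR, ← hP, ← hY] at g
    have g2 := (g.trans (card_union_le _ _)).trans (Nat.add_le_add_left
      (card_B hy Y X (zz Y) (HH Y) (kk Y)) _)
    exact_mod_cast g2
  have hA1 := card_A1 u cl V' M Y (zz Y) (HH Y) (kk Y)
  have hB1 := card_B1 Y (zz Y) (HH Y) (kk Y)
  have g1 : (4 * (t : ℝ) + 2) * (1 / 2 : ℝ) ^ V₀ * (RKs.card : ℝ) ≤ ε / 16 * X :=
    mul_le_mul hV₀ hRS (Nat.cast_nonneg _) (by positivity)
  have g3 : (9 * ((u : ℝ) * (CX.NN Y : ℝ)) + 9) ^ kk Y *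
      (3 ^ (K * (kk Y ^ 2 + 1)) * kap C Y) * (X * (1 + Real.log X)) ≤
      (9 * ((u : ℝ) * (CX.NN Y : ℝ)) + 9) ^ kk Y *
      (3 ^ (K * (kk Y ^ 2 + 1)) * kap C Y) * (Y * (1 + Real.log Y)) := by
    have h1 := kap_nonneg hC1 Y
    have h2 := Real.log_natCast_nonneg X
    have h3 := Real.log_natCast_nonneg Y
    gcongr
  -- the lower part
  have hRR' : R ⊆ R' := by
    intro S hS
    rw [hR, mem_filter] at hS
    rw [hR', mem_filter]
    refine ⟨hS.1, ?_⟩
    have := hS.2
    omega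
  have hR'S : R' ⊆ SE u a X := filter_subset _ _
  have hneg : ∀ S ∈ SE u a X, S ∉ R' → ∀ l, ¬ GdS (s l) S := by
    intro S hS hS' l hG
    apply hS'
    rw [hR', mem_filter]
    refine ⟨hS, ?_⟩
    have hd := SE_disj hy.cp.cop hS
    have h1 := t_NEGS (hy.t23 l) (fun p hp hp' => (Finset.disjoint_left.1 hd) hp (mem_filter.2
      ⟨Nat.mem_primeFactors.2 ⟨(hy.W l _ hp').1, hy.Wu l p hp', hy.cp.pos.ne'⟩,
        hy.W l _ hp'⟩)) hG
    have h2 : (kW (s l)).natAbs ≤ B :=
      single_le_sum (f := fun l => (kW (s l)).natAbs) (fun _ _ => Nat.zero_le _) (mem_univ l)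
    omega
  have hA : ((SE u a X).filter (PatS s β)).card = (R.filter (PatS s β)).card +
      ((SE u a X \ R).filter (PatS s β)).card := by
    rw [← card_union_of_disjoint, ← filter_union,
      union_sdiff_of_subset (hRR'.trans hR'S)]
    exact disjoint_filter_filter disjoint_sdiff
  have hcR : ((SE u a X \ R).card : ℝ) = (SE u a X).card - R.card := by
    rw [card_sdiff_of_subset (hRR'.trans hR'S), Nat.cast_sub (card_le_card (hRR'.trans hR'S))]
  have hcR' : ((SE u a X \ R').card : ℝ) = (SE u a X).card - R'.card := by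
    rw [card_sdiff_of_subset hR'S, Nat.cast_sub (card_le_card hR'S)]
  have hcRR : ((R' \ R).card : ℝ) = R'.card - R.card := by
    rw [card_sdiff_of_subset hRR', Nat.cast_sub (card_le_card hRR')]
  have hlow : |(((SE u a X \ R).filter (PatS s β)).card : ℝ) -
      1 / 2 * (if ∀ l, β l = false then 1 else 0) * ((SE u a X).card : ℝ)| ≤ ε / 8 * X := by
    have k1 := abs_le.1 hKD1
    have k2 := abs_le.1 hKD2
    by_cases hβ : ∀ l, β l = false
    · rw [if_pos hβ]
      have h1 : (((SE u a X \ R).filter (PatS s β)).card : ℝ) ≤ (SE u a X).card - R.card := by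
        rw [← hcR]
        exact_mod_cast card_le_card (filter_subset _ _)
      have h2 : ((SE u a X).card : ℝ) - R'.card ≤
          (((SE u a X \ R).filter (PatS s β)).card : ℝ) := by
        rw [← hcR']
        have : SE u a X \ R' ⊆ (SE u a X \ R).filter (PatS s β) := by
          intro S hS
          rw [Finset.mem_sdiff] at hS
          rw [mem_filter, Finset.mem_sdiff]
          refine ⟨⟨hS.1, fun h => hS.2 (hRR' h)⟩, fun l => ?_⟩
          rw [hβ l]
          exact ⟨fun h => absurd h (hneg S hS.1 hS.2 l), fun h => absurd h (by decide)⟩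
        exact_mod_cast card_le_card this
      rw [abs_le]
      constructor
      · linarith [k2.2]
      · linarith [k1.1]
    · rw [if_neg hβ]
      have h1 : (((SE u a X \ R).filter (PatS s β)).card : ℝ) ≤ R'.card - R.card := by
        rw [← hcRR]
        have : (SE u a X \ R).filter (PatS s β) ⊆ R' \ R := by
          intro S hS
          rw [mem_filter, Finset.mem_sdiff] at hS
          rw [Finset.mem_sdiff]
          refine ⟨?_, hS.1.2⟩
          by_contra h
          apply hβ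
          intro l
          by_contra h2
          have h3 : β l = true := by
            cases hb : β l
            · exact absurd hb h2
            · rfl
          exact hneg S hS.1.1 h l ((hS.2 l).2 h3)
        exact_mod_cast card_le_card this
      have h2 : (0 : ℝ) ≤ (((SE u a X \ R).filter (PatS s β)).card : ℝ) := Nat.cast_nonneg _
      rw [mul_zero, zero_mul, sub_zero, abs_of_nonneg h2]
      linarith [k2.2, k1.1]
  have hup : |((R.filter (PatS s β)).card : ℝ) - amc β * (R.card : ℝ)| ≤ ε / 2 * X := by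
    have h0 : (0 : ℝ) ≤ ε * X := by positivity
    refine hcmp.trans ?_
    refine (add_le_add hmain (hout.trans (add_le_add hA1 hB1))).trans ?_
    linarith
  have hmid : |amc β * ((R.card : ℝ) - 1 / 2 * ((SE u a X).card : ℝ))| ≤ ε / 16 * X := by
    rw [abs_mul, abs_of_nonneg (amc_mem β).1]
    calc amc β * |(R.card : ℝ) - 1 / 2 * ((SE u a X).card : ℝ)| ≤
        1 * |(R.card : ℝ) - 1 / 2 * ((SE u a X).card : ℝ)| :=
          mul_le_mul_of_nonneg_right (amc_mem β).2 (abs_nonneg _)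
      _ ≤ ε / 16 * X := by rw [one_mul]; exact hKD1
  have hfin : (((SE u a X).filter (PatS s β)).card : ℝ) -
      (1 / 2 * amc β + 1 / 2 * (if ∀ l, β l = false then 1 else 0)) * ((SE u a X).card : ℝ) =
      (((R.filter (PatS s β)).card : ℝ) - amc β * (R.card : ℝ)) +
      amc β * ((R.card : ℝ) - 1 / 2 * ((SE u a X).card : ℝ)) +
      ((((SE u a X \ R).filter (PatS s β)).card : ℝ) -
      1 / 2 * (if ∀ l, β l = false then 1 else 0) * ((SE u a X).card : ℝ)) := by
    rw [hA]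
    push_cast
    ring
  rw [hfin]
  have h0 : (0 : ℝ) ≤ ε * X := by positivity
  refine (abs_add_le _ _).trans ((add_le_add (abs_add_le _ _) le_rfl).trans ?_)
  linarith

end Pool.Agent.L0h2.P
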