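import Pool.Agent.L0h2.P.Stm

/-!
# Project P: the separating classes
-/

set_option autoImplicit false
set_option linter.unusedVariables false

open scoped Classical

namespace Pool.Agent.L0h2.P

open Finset
open Pool.Agent.Y703.CQ (nr)
open Pool.Agent.N973.ND (Pr m7 ty)
open Pool.Agent.L0h74.EV (n2)

/-- a non-residue -/
theorem nonres {r : ℕ} (hr : r.Prime) (h2 : r ≠ 2) : ∃ ν : ℕ, ¬ IsSquare ((ν : ℕ) : ZMod r) := by
  have : Fact r.Prime := ⟨hr⟩
  obtain ⟨a, ha⟩ := FiniteField.exists_nonsquare (F := ZMod r) (by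
    rw [ZMod.ringChar_zmod_n]
    exact h2)
  refine ⟨a.val, ?_⟩
  rwa [ZMod.natCast_zmod_val]

theorem t_CLS : S_CLS := by
  intro u h56 hu0 r hr
  obtain ⟨ν, hν⟩ : ∃ ν : ℕ, r ≠ 2 → ¬ IsSquare ((ν : ℕ) : ZMod r) := by
    by_cases h : r = 2
    · exact ⟨0, fun h' => absurd h h'⟩
    · rcases hr with hr | hr
      · exact absurd hr h
      · obtain ⟨ν, hν⟩ := nonres hr.1.1 h
        exact ⟨ν, fun _ => hν⟩
  have hr7 : r ≠ 7 := by
    rcases hr with hr | hr
    · rw [hr]; norm_num
    · exact hr.1.2.2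
  set sm : ℕ → ℕ := fun p => if p = 2 then 8 else p with hsm
  set am : ℕ → ℕ := fun p => if p = 2 then (if r = 2 then 5 else 1) else if p = r then ν else 1
    with ham
  have hpr : ∀ p ∈ u.primeFactors, p.Prime := fun p hp => Nat.prime_of_mem_primeFactors hp
  obtain ⟨k, hk⟩ := Nat.chineseRemainderOfFinset am sm u.primeFactors (by
    intro p hp
    simp only [hsm]
    split_ifs
    · norm_num
    · exact (hpr p hp).ne_zero) (by
    intro p hp q hq hpq
    have h1 := hpr p (mem_coe.1 hp)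
    have h2 := hpr q (mem_coe.1 hq)
    have h3 : ∀ a : ℕ, a.Prime → a ≠ 2 → Nat.Coprime 8 a := by
      intro a ha ha2
      have h4 : Nat.Coprime (2 ^ 3) a :=
        Nat.Coprime.pow_left 3 ((Nat.coprime_primes Nat.prime_two ha).2 fun h => ha2 h.symm)
      exact h4
    show Nat.Coprime (sm p) (sm q)
    simp only [hsm]
    split_ifs with h4 h5 h5
    · exact absurd (h4.trans h5.symm) hpq
    · exact h3 q h2 h5
    · exact (h3 p h1 h4).symm
    · exact (Nat.coprime_primes h1 h2).2 hpq)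
  have hd8 : 8 ∣ 7 * u := Dvd.dvd.mul_left ((by norm_num : 8 ∣ 56).trans h56) 7
  have hdm : ∀ p ∈ u.primeFactors, sm p ∣ 7 * u := by
    intro p hp
    simp only [hsm]
    split_ifs
    · exact hd8
    · exact Dvd.dvd.mul_left (Nat.dvd_of_mem_primeFactors hp) 7
  have hmem2 : 2 ∈ u.primeFactors := Nat.mem_primeFactors.2
    ⟨Nat.prime_two, (by norm_num : 2 ∣ 56).trans h56, hu0.ne'⟩
  have hmem7 : 7 ∈ u.primeFactors := Nat.mem_primeFactors.2
    ⟨by norm_num, (by norm_num : 7 ∣ 56).trans h56, hu0.ne'⟩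
  -- the residues
  have key : ∀ q : ℕ, q % (7 * u) = k % (7 * u) → ∀ p ∈ u.primeFactors, q % sm p = am p % sm p := by
    intro q hq p hp
    have h1 := hk p hp
    have h2 : q ≡ k [MOD (7 * u)] := hq
    exact (h2.of_dvd (hdm p hp)).trans h1
  have k8 : ∀ q : ℕ, q % (7 * u) = k % (7 * u) → q % 8 = (if r = 2 then 5 else 1) := by
    intro q hq
    have h1 := key q hq 2 hmem2
    simp only [hsm, ham, if_true] at h1
    rw [h1]
    split_ifs <;> norm_num
  have kp : ∀ q : ℕ, q % (7 * u) = k % (7 * u) → ∀ p ∈ u.primeFactors, p ≠ 2 →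
      q % p = (if p = r then ν else 1) % p := by
    intro q hq p hp hp2
    have h1 := key q hq p hp
    simp only [hsm, ham, if_neg hp2] at h1
    exact h1
  have k7 : ∀ q : ℕ, q % (7 * u) = k % (7 * u) → q % 7 = 1 := by
    intro q hq
    have h1 := kp q hq 7 hmem7 (by norm_num)
    rw [if_neg (fun h => hr7 h.symm)] at h1
    exact h1
  have h7u : 0 < 7 * u := by omega
  refine ⟨k % (7 * u), Nat.mod_lt _ h7u, ?_, ?_⟩
  · rw [Nat.coprime_iff_gcd_eq_one]
    by_contra hne
    obtain ⟨p, hp, hd⟩ := Nat.exists_prime_and_dvd hne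
    have h1 := hd.trans (Nat.gcd_dvd_left _ _)
    have h2 := hd.trans (Nat.gcd_dvd_right _ _)
    have h3 : p ∣ u := by
      rcases (Nat.Prime.dvd_mul hp).1 h2 with h | h
      · rw [(Nat.prime_dvd_prime_iff_eq hp (by norm_num)).1 h]
        exact (by norm_num : 7 ∣ 56).trans h56
      · exact h
    have hmem : p ∈ u.primeFactors := Nat.mem_primeFactors.2 ⟨hp, h3, hu0.ne'⟩
    have hself : (k % (7 * u)) % (7 * u) = k % (7 * u) := Nat.mod_mod _ _
    by_cases hp2 : p = 2
    · have h4 := k8 _ hself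
      rw [hp2] at h1
      have h5 : (k % (7 * u)) % 2 = 0 := Nat.mod_eq_zero_of_dvd h1
      split_ifs at h4 <;> omega
    · have h4 := kp _ hself p hmem hp2
      rw [Nat.mod_eq_zero_of_dvd h1] at h4
      by_cases hpr' : p = r
      · rw [if_pos hpr'] at h4
        have h5 : ((ν : ℕ) : ZMod r) = 0 := by
          rw [ZMod.natCast_eq_zero_iff]
          rw [← hpr']
          exact Nat.dvd_of_mod_eq_zero h4.symm
        apply hν (fun h => hp2 (hpr'.trans h))
        rw [h5]
        exact ⟨0, by simp⟩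
      · rw [if_neg hpr', Nat.mod_eq_of_lt hp.one_lt] at h4
        omega
  · intro q hq hqc
    have e8 := k8 q hqc
    have e7 := k7 q hqc
    refine ⟨?_, ?_, ?_⟩
    · have h1 : m7 q = 1 := by
        unfold m7
        rw [if_pos (Or.inl e7)]
      have h2 : ¬ q % 4 = 3 := by split_ifs at e8 <;> omega
      unfold ty
      rw [h1, if_neg h2]
    · intro r' hr' hru
      have hmem : r' ∈ u.primeFactors := Nat.mem_primeFactors.2 ⟨hr'.1, hru, hu0.ne'⟩
      have h1 := kp q hqc r' hmem hr'.2.1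
      by_cases hrr : r' = r
      · rw [if_pos hrr] at h1 ⊢
        have h2 : ((q : ℕ) : ZMod r') = (ν : ℕ) := by
          rw [ZMod.natCast_eq_natCast_iff]
          exact h1
        unfold nr
        rw [h2, if_neg]
        have h3 := hν (fun h => hr'.2.1 (hrr.trans h))
        rw [← hrr] at h3
        exact h3
      · rw [if_neg hrr] at h1 ⊢
        have h2 : ((q : ℕ) : ZMod r') = (1 : ℕ) := by
          rw [ZMod.natCast_eq_natCast_iff]
          exact h1
        unfold nr
        rw [h2, if_pos]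
        exact ⟨1, by simp⟩
    · unfold n2
      by_cases h2 : r = 2
      · rw [if_pos h2] at e8 ⊢
        rw [if_pos (Or.inr e8)]
      · rw [if_neg h2] at e8 ⊢
        rw [if_neg (by omega)]

end Pool.Agent.L0h2.P
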