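import Pool.Agent.L0h2.P.Stm

/-! P-KEYG: the sum over the boxes, general predicates (after `Pool/Agent/L0h74/EV/KEY.lean`). -/

set_option autoImplicit false
set_option linter.unusedVariables false

open scoped Classical

namespace Pool.Agent.L0h2.P.KEYG

open Finset
open Pool.Agent.Y703.CX (sm la jj XX)
open Pool.Agent.N973.ND (Pr)
open Pool.Agent.L0h74.EV (Cl SE)
open Pool.Agent.L0h74.EV.KEY (ph ky CC mem_CC cls_val sm_fill la_fill ph_fill im_fill ky_fill
  inj_fill inj_ph)
open Pool.Agent.L0h74.KD.KEY (le_XX cl_prime sm_la_card sm_la_prod card_sub TP mem_TP harm_TP)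
open Pool.Agent.L0h2.P (RK KPg S_KEYG)

section
variable {u a X z H k : ℕ} {Kq : Finset ℕ → Finset (ℕ × ℕ) → Prop}

theorem rk_iff (hH : 1 ≤ H) {S : Finset ℕ} (hS : ∀ q ∈ S, Pr q)
    (hi : Set.InjOn (ph u H) (la z S : Set ℕ)) :
    S ∈ RK u a X z H k Kq ↔ KPg u a X z H k Kq (ky u z H S).1 (ky u z H S).2 := by
  have v3 := cls_val hi
  set J := (la z S).image (ph u H) with hJ
  have hky : ky u z H S = (sm z S, J) := rfl
  rw [hky]
  have f2 : J.card = (la z S).card := Finset.card_image_of_injOn hi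
  have f8 : ∏ e ∈ J, XX H e.1 = ∏ p ∈ la z S, XX H (jj H p) := by
    rw [hJ, Finset.prod_image hi]
    rfl
  have f9 : Set.InjOn (jj H) (la z S : Set ℕ) ↔ Set.InjOn Prod.fst (J : Set (ℕ × ℕ)) := by
    constructor
    · intro h a ha b hb hab
      rw [Finset.mem_coe, hJ, Finset.mem_image] at ha hb
      obtain ⟨p, hp, rfl⟩ := ha
      obtain ⟨q, hq, rfl⟩ := hb
      rw [h (Finset.mem_coe.2 hp) (Finset.mem_coe.2 hq) hab]
    · intro h p hp q hq hpq
      exact hi hp hq (h (Finset.mem_coe.2 (Finset.mem_image_of_mem _ (Finset.mem_coe.1 hp)))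
        (Finset.mem_coe.2 (Finset.mem_image_of_mem _ (Finset.mem_coe.1 hq))) hpq)
  have hsm : sm z S ⊆ S := Finset.filter_subset _ _
  have hla : la z S ⊆ S := Finset.filter_subset _ _
  constructor
  · intro h
    unfold RK at h
    rw [Finset.mem_filter] at h
    obtain ⟨h1, h2, h3, h4, h5⟩ := h
    unfold SE at h1
    rw [Finset.mem_filter] at h1
    obtain ⟨-, h6, h10⟩ := h1
    refine ⟨fun q hq => hS q (hsm hq), fun q hq => (Finset.mem_filter.1 hq).2,
      f9.1 h2, ?_, ?_, ?_, h5⟩
    · rw [f2, sm_la_card]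
      exact h3
    · rw [f8]
      exact h4
    · rw [v3]
      exact h6.2
  · rintro ⟨k1, k2, k7, k8, k9, k13, k10⟩
    have hprod : ∏ p ∈ S, p ≤ X := by
      rw [← sm_la_prod z S]
      refine le_trans (Nat.mul_le_mul_left _ ?_) k9
      rw [f8]
      refine Finset.prod_le_prod' fun p hp => le_XX hH (cl_prime (hS p (hla hp))).one_le
    rw [v3] at k13
    unfold RK SE
    rw [Finset.mem_filter, Finset.mem_filter, Finset.mem_powerset]
    refine ⟨⟨?_, ⟨hS, k13⟩, hprod⟩, f9.2 k7, ?_, ?_, k10⟩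
    · intro q hq
      rw [Finset.mem_range]
      have h1 : q ∣ ∏ p ∈ S, p := Finset.dvd_prod_of_mem _ hq
      have h2 : 0 < ∏ p ∈ S, p := Finset.prod_pos fun p hp => (cl_prime (hS p hp)).pos
      have := Nat.le_of_dvd h2 h1
      omega
    · rw [← sm_la_card z S, ← f2]
      exact k8
    · rw [← f8]
      exact k9

theorem rk_facts {S : Finset ℕ} (hS : S ∈ RK u a X z H k Kq) :
    (∀ q ∈ S, Pr q) ∧ Set.InjOn (jj H) (la z S : Set ℕ) ∧ ∏ p ∈ S, p ≤ X := by
  unfold RK SE at hS
  rw [Finset.mem_filter, Finset.mem_filter] at hS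
  exact ⟨hS.1.2.1.1, hS.2.1, hS.1.2.2⟩

theorem key_bij (hH : 1 ≤ H) {S₀ : Finset ℕ} {J : Finset (ℕ × ℕ)}
    (hkey : KPg u a X z H k Kq S₀ J) (P : Finset ℕ → Prop) [DecidablePred P] [DecidableEq J] :
    ((Fintype.piFinset fun i : J => CC u z H i).filter fun p => P (S₀ ∪ univ.image p)).card =
      ((RK u a X z H k Kq).filter fun S => ky u z H S = (S₀, J) ∧ P S).card := by
  have h₀ := hkey.le
  apply Finset.card_bij (fun (p : J → ℕ) _ => S₀ ∪ univ.image p)
  · intro p hp
    rw [Finset.mem_filter, Fintype.mem_piFinset] at hp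
    obtain ⟨hp, hP⟩ := hp
    have hk := ky_fill hH h₀ hp
    rw [Finset.mem_filter]
    refine ⟨?_, hk, hP⟩
    rw [rk_iff hH _ (inj_fill hH h₀ hp), hk]
    · exact hkey
    · intro q hq
      rw [Finset.mem_union, Finset.mem_image] at hq
      rcases hq with hq | ⟨i, -, rfl⟩
      · exact hkey.cl q hq
      · exact ((mem_CC hH).1 (hp i)).1
  · intro p hp p' hp' h
    rw [Finset.mem_filter, Fintype.mem_piFinset] at hp hp'
    have h1 := la_fill hH h₀ hp.1
    rw [h, la_fill hH h₀ hp'.1] at h1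
    funext i
    have h2 : p i ∈ univ.image p' := by
      rw [h1]
      exact Finset.mem_image_of_mem _ (Finset.mem_univ _)
    rw [Finset.mem_image] at h2
    obtain ⟨j, -, hj⟩ := h2
    have h3 := ph_fill hH hp.1 i
    have h4 := ph_fill hH hp'.1 j
    rw [hj, h3] at h4
    rw [← hj, Subtype.ext h4]
  · intro S hS
    rw [Finset.mem_filter] at hS
    obtain ⟨hSR, hSk, hSP⟩ := hS
    obtain ⟨hSO, hSI, -⟩ := rk_facts hSR
    have hk1 : sm z S = S₀ := congrArg Prod.fst hSk
    have hk2 : (la z S).image (ph u H) = J := congrArg Prod.snd hSk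
    have hex : ∀ i : J, ∃ q ∈ la z S, ph u H q = i := by
      rintro ⟨i, hi⟩
      rw [← hk2, Finset.mem_image] at hi
      exact hi
    choose p hp1 hp2 using hex
    have him : univ.image p = la z S := by
      ext q
      rw [Finset.mem_image]
      constructor
      · rintro ⟨i, -, rfl⟩
        exact hp1 i
      · intro hq
        have hjq : ph u H q ∈ J := by
          rw [← hk2]
          exact Finset.mem_image_of_mem _ hq
        exact ⟨⟨ph u H q, hjq⟩, Finset.mem_univ _, inj_ph hSI (Finset.mem_coe.2 (hp1 _))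
          (Finset.mem_coe.2 hq) (hp2 ⟨ph u H q, hjq⟩)⟩
    have hSe : S₀ ∪ univ.image p = S := by
      rw [him, ← hk1]
      unfold sm la
      exact Finset.filter_union_filter_not_eq _ _
    refine ⟨p, ?_, hSe⟩
    rw [Finset.mem_filter, Fintype.mem_piFinset, hSe]
    refine ⟨fun i => (mem_CC hH).2 ⟨hSO _ (Finset.mem_filter.1 (hp1 i)).1,
      not_le.1 (Finset.mem_filter.1 (hp1 i)).2, hp2 i⟩, hSP⟩

end

/-- **P-KEYG.** -/
theorem t_KEYG : S_KEYG := by
  intro u a X z H k N Kq P G c δ B hu1 hX hH hz hN hδ hB0 hbox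
  set T := (RK u a X z H k Kq).image (ky u z H) with hT
  have hfib : ∀ (P : Finset ℕ → Prop) [DecidablePred P],
      (((RK u a X z H k Kq).filter fun S => P S).card : ℝ) =
      ∑ e ∈ T, (((RK u a X z H k Kq).filter fun S => ky u z H S = e ∧ P S).card : ℝ) := by
    intro P _
    rw [Finset.card_eq_sum_card_fiberwise (f := ky u z H) (t := T) (by
      intro S hS
      rw [Finset.mem_coe, Finset.mem_filter] at hS
      exact Finset.mem_coe.2 (Finset.mem_image_of_mem _ hS.1))]
    push_cast
    refine Finset.sum_congr rfl fun e _ => ?_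
    congr 2
    ext S
    simp only [Finset.mem_filter]
    tauto
  have hKP : ∀ e ∈ T, KPg u a X z H k Kq e.1 e.2 := by
    intro e he
    rw [hT, Finset.mem_image] at he
    obtain ⟨S, hS, rfl⟩ := he
    obtain ⟨f1, f2, f3⟩ := rk_facts hS
    exact (rk_iff hH f1 (inj_ph f2)).1 hS
  have hf1 := hfib fun S => P S ∧ G S
  have hf2 := hfib fun S => P S
  have hf3 := hfib fun _ => True
  simp only [and_true, Finset.filter_true] at hf3
  rw [hf1, hf2, hf3, Finset.mul_sum, ← Finset.sum_sub_distrib]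
  refine (Finset.abs_sum_le_sum_abs _ _).trans ?_
  have h3 : ∀ e ∈ T, |(((RK u a X z H k Kq).filter fun S => ky u z H S = e ∧
        (P S ∧ G S)).card : ℝ) -
      c * (((RK u a X z H k Kq).filter fun S => ky u z H S = e ∧ P S).card : ℝ)| ≤
      δ * (((RK u a X z H k Kq).filter fun S => ky u z H S = e).card : ℝ) +
      B * (X / ((∏ p ∈ e.1, p : ℕ) : ℝ)) := by
    intro e he
    obtain ⟨S₀, J⟩ := e
    have hk' := hKP _ he
    have hb := hbox S₀ J hk'
    have e1 : ((Fintype.piFinset fun i : J => CC u z H i).filter fun p =>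
        P (S₀ ∪ univ.image p) ∧ G (S₀ ∪ univ.image p)).card =
        ((RK u a X z H k Kq).filter fun S => ky u z H S = (S₀, J) ∧ (P S ∧ G S)).card := by
      rw [← key_bij hH hk' (fun S => P S ∧ G S)]
    have e2 : ((Fintype.piFinset fun i : J => CC u z H i).filter fun p =>
        P (S₀ ∪ univ.image p)).card =
        ((RK u a X z H k Kq).filter fun S => ky u z H S = (S₀, J) ∧ P S).card := by
      rw [← key_bij hH hk' (fun S => P S)]
    have e3 : (Fintype.piFinset fun i : J => CC u z H i).card =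
        ((RK u a X z H k Kq).filter fun S => ky u z H S = (S₀, J)).card := by
      have h := key_bij hH hk' (fun _ => True)
      simpa using h
    rw [e1, e2, e3] at hb
    exact hb
  refine (Finset.sum_le_sum h3).trans ?_
  rw [Finset.sum_add_distrib, ← Finset.mul_sum]
  refine add_le_add le_rfl ?_
  have hsub : T ⊆ (TP X) ×ˢ
      ((range N ×ˢ range (7 * u + 1)).powerset.filter fun J => J.card ≤ k) := by
    intro e he
    have hk' := hKP e he
    rw [hT, Finset.mem_image] at he
    obtain ⟨S, hS, rfl⟩ := he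
    obtain ⟨f1, f2, f3⟩ := rk_facts hS
    rw [Finset.mem_product, Finset.mem_filter, Finset.mem_powerset]
    refine ⟨mem_TP (fun q hq => cl_prime (hk'.cl q hq)) ?_, ?_, ?_⟩
    · refine le_trans ?_ f3
      exact Nat.le_of_dvd (Finset.prod_pos fun p hp => (cl_prime (f1 p hp)).pos)
        (Finset.prod_dvd_prod_of_subset _ _ _ (Finset.filter_subset _ _))
    · intro e he
      unfold ky at he
      rw [Finset.mem_image] at he
      obtain ⟨q, hq, rfl⟩ := he
      have hqS := (Finset.mem_filter.1 hq).1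
      have hq0 := (cl_prime (f1 q hqS)).pos
      have hqX : q ≤ X := by
        refine le_trans ?_ f3
        exact Nat.le_of_dvd (Finset.prod_pos fun p hp => (cl_prime (f1 p hp)).pos)
          (Finset.dvd_prod_of_mem _ hqS)
      unfold ph
      rw [Finset.mem_product, Finset.mem_range, Finset.mem_range]
      constructor
      · have h3 : ((jj H q : ℕ) : ℝ) < N := by
          refine lt_of_le_of_lt (Nat.floor_le (mul_nonneg (Nat.cast_nonneg _)
            (Real.log_nonneg (by exact_mod_cast hq0)))) ?_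
          refine lt_of_le_of_lt ?_ hN
          refine mul_le_mul_of_nonneg_left ?_ (Nat.cast_nonneg _)
          exact Real.log_le_log (by exact_mod_cast hq0) (by exact_mod_cast hqX)
        exact_mod_cast h3
      · show q % (7 * u) < 7 * u + 1
        have := Nat.mod_lt q (by omega : 0 < 7 * u)
        omega
    · have := hk'.card
      omega
  refine (Finset.sum_le_sum_of_subset_of_nonneg hsub fun _ _ _ => by positivity).trans ?_
  rw [Finset.sum_product]
  simp only [Finset.sum_const, nsmul_eq_mul]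
  rw [← Finset.mul_sum]
  have h4 : ((((range N ×ˢ range (7 * u + 1)).powerset.filter fun J => J.card ≤ k).card : ℕ) : ℝ) ≤
      (9 * (u * N) + 9 : ℝ) ^ k := by
    have h5 := card_sub (range N ×ˢ range (7 * u + 1)) k
    rw [Finset.card_product, Finset.card_range, Finset.card_range] at h5
    calc ((((range N ×ˢ range (7 * u + 1)).powerset.filter fun J => J.card ≤ k).card : ℕ) : ℝ) ≤
          (((N * (7 * u + 1) + 1) ^ k : ℕ) : ℝ) := by exact_mod_cast h5
      _ = (N * (7 * u + 1) + 1 : ℝ) ^ k := by push_cast; ring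
      _ ≤ _ := by
        apply pow_le_pow_left₀ (by positivity)
        have h6 : (0 : ℝ) ≤ N := Nat.cast_nonneg _
        have h7 : (1 : ℝ) ≤ u := by exact_mod_cast hu1
        nlinarith
  have h5 : ∑ S ∈ TP X, B * (X / ((∏ p ∈ S, p : ℕ) : ℝ)) ≤ B * (X * (1 + Real.log X)) := by
    have h6 : ∀ S ∈ TP X, B * ((X : ℝ) / ((∏ p ∈ S, p : ℕ) : ℝ)) =
        B * X * (1 / ((∏ p ∈ S, p : ℕ) : ℝ)) := by
      intro S _
      ring
    rw [Finset.sum_congr rfl h6, ← Finset.mul_sum]
    have h7 := mul_le_mul_of_nonneg_left (harm_TP X) (mul_nonneg hB0 (Nat.cast_nonneg X))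
    refine h7.trans (le_of_eq ?_)
    ring
  have h6 : 0 ≤ ∑ S ∈ TP X, B * ((X : ℝ) / ((∏ p ∈ S, p : ℕ) : ℝ)) :=
    Finset.sum_nonneg fun _ _ => by positivity
  rw [mul_assoc]
  gcongr

end Pool.Agent.L0h2.P.KEYG
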