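import Pool.Agent.L0h74.EV.KEY
import Pool.Agent.L0h74.AP.KDL
import Pool.Agent.L0h1.KD.LC

/-!
# Project P (helper2): the joint law of `t` twists over all `D` (natural density), statements

The systems are those of helper74's project EV: the primes are the elements of `Option ℕ`, `none` is
the prime two. A system `s` has the symbols `s.d` and a fixed part `s.W` (the primes of the twist
which divide the modulus, and two). The set `S` of the prime factors of `m`, `m` in a class prime to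
the modulus, is the varying part.
-/

set_option autoImplicit false
set_option linter.unusedVariables false

open scoped Classical

namespace Pool.Agent.L0h2.P

open Finset
open Pool.Agent.Y703.CX (sm la jj XX eL zz kk)
open Pool.Agent.Y703.CQ (nr sg c2)
open Pool.Agent.N973.ND (Pr m7 uu ty kd RecA SA)
open Pool.Agent.N916.GB (HB ps S_BIL)
open Pool.Agent.L0h1.KD (n0)
open Pool.Agent.L0h74.EV (Dt tyO nO GdO SE Cl n2 NdE)
open Pool.Agent.L0h74.EV.KEY (ph CC)
open Pool.Agent.L0h74.AP (Cp)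

/-- a system: the symbols and the fixed part -/
structure Sy where
  /-- the symbols -/
  d : Dt
  /-- the fixed part -/
  W : Finset (Option ℕ)

/-- the primes of `Option ℕ` -/
def PrW : Option ℕ → Prop
  | none => True
  | some p => Pr p

/-- all the primes of a system -/
noncomputable def SW (s : Sy) (S : Finset ℕ) : Finset (Option ℕ) := (S.image some) ∪ s.W

/-- the good sets -/
def GdS (s : Sy) (S : Finset ℕ) : Prop := GdO s.d (SW s S)

/-- `kd` of the fixed part -/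
noncomputable def kW (s : Sy) : ℤ :=
  ((s.W.filter fun x => tyO s.d.t x = 3).card : ℤ) - ((s.W.filter fun x => tyO s.d.t x = 1).card : ℤ)

/-- the diagonal at a large prime, with the symbols of the fixed part -/
noncomputable def dg (s : Sy) (p : ℕ) : ZMod 2 := s.d.b p + ∑ v ∈ s.W, nO s.d.t v (some p)

/-- the labels of the large primes are not degenerate -/
def NdJ {t : ℕ} (s : Fin t → Sy) (S₀ S₁ : Finset ℕ) : Prop :=
  ∀ (l : Fin t) (w : Option ℕ → ZMod 2), (∃ v ∈ SW (s l) S₀, w v ≠ 0) →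
    ∃ p ∈ S₁, ty p = 2 ∧ ∑ v ∈ SW (s l) S₀, w v * nO (s l).d.t (some p) v ≠ 0

/-- the pattern of the good systems -/
def PatS {t : ℕ} (s : Fin t → Sy) (β : Fin t → Bool) (S : Finset ℕ) : Prop :=
  ∀ l, (GdS (s l) S ↔ β l = true)

/-- the limit of a pattern -/
noncomputable def amc {t : ℕ} (β : Fin t → Bool) : ℝ := ∏ l, if β l = true then c2 else 1 - c2

/-- the hypotheses on the systems: the class `a` modulo `u`, the classes `cl r` modulo `7 u` of the
primes which separate the systems, their values `x l r` -/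
structure Hy {t n : ℕ} (s : Fin t → Sy) (u a : ℕ) (cl : Fin n → ℕ) (x : Fin t → Fin n → ZMod 2) :
    Prop where
  cp : Cp u a
  four : 4 ∣ u
  t23 : ∀ l, (s l).d.t = 2 ∨ (s l).d.t = 3
  recA : ∀ l, RecA (s l).d.A
  W : ∀ l, ∀ v ∈ (s l).W, PrW v
  Wu : ∀ l p, some p ∈ (s l).W → p ∣ u
  par : ∀ l S, Cl u a S → (kW (s l) + kd S) % 2 = 0
  cls : ∀ r p, Pr p → p % (7 * u) = cl r →
    ty p = 2 ∧ ∀ l l', dg (s l) p + x l r = dg (s l') p + x l' r
  clc : ∀ r, cl r < 7 * u ∧ (cl r).Coprime (7 * u)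
  sep : ∀ l l', l ≠ l' → ∃ r, x l r ≠ x l' r

/-! ### The sum over the boxes -/

/-- the regular sets: `Kq` is a condition on the key -/
noncomputable def RK (u a X z H k : ℕ) (Kq : Finset ℕ → Finset (ℕ × ℕ) → Prop) :
    Finset (Finset ℕ) :=
  (SE u a X).filter fun S => Set.InjOn (jj H) (la z S : Set ℕ) ∧ S.card ≤ k ∧
    (∏ p ∈ sm z S, p) * ∏ p ∈ la z S, XX H (jj H p) ≤ X ∧
    Kq (sm z S) ((la z S).image (ph u H))

/-- the keys which occur -/
structure KPg (u a X z H k : ℕ) (Kq : Finset ℕ → Finset (ℕ × ℕ) → Prop) (S₀ : Finset ℕ)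
    (J : Finset (ℕ × ℕ)) : Prop where
  cl : ∀ q ∈ S₀, Pr q
  le : ∀ q ∈ S₀, q ≤ z
  inj : Set.InjOn Prod.fst (J : Set (ℕ × ℕ))
  card : S₀.card + J.card ≤ k
  prod : (∏ p ∈ S₀, p) * ∏ e ∈ J, XX H e.1 ≤ X
  cls : ((∏ p ∈ S₀, p) * ∏ e ∈ J, e.2) % u = a
  kq : Kq S₀ J

/-- KEYG: the passage from a box to the sum over the boxes, for general predicates. -/
def S_KEYG : Prop := ∀ (u a X z H k N : ℕ) (Kq : Finset ℕ → Finset (ℕ × ℕ) → Prop)
  (P G : Finset ℕ → Prop) (c δ B : ℝ), 1 ≤ u → 1 ≤ X → 1 ≤ H → 1 ≤ z →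
  (H : ℝ) * Real.log X < N → 0 ≤ δ → 0 ≤ B →
  (∀ S₀ J, KPg u a X z H k Kq S₀ J →
    |(((Fintype.piFinset fun i : J => CC u z H i).filter fun p =>
        P (S₀ ∪ univ.image p) ∧ G (S₀ ∪ univ.image p)).card : ℝ) -
      c * (((Fintype.piFinset fun i : J => CC u z H i).filter fun p =>
        P (S₀ ∪ univ.image p)).card : ℝ)| ≤
    δ * ((Fintype.piFinset fun i : J => CC u z H i).card : ℝ) +
      B * (X / ((∏ p ∈ S₀, p : ℕ) : ℝ))) →
  |(((RK u a X z H k Kq).filter fun S => P S ∧ G S).card : ℝ) -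
      c * (((RK u a X z H k Kq).filter fun S => P S).card : ℝ)| ≤
    δ * ((RK u a X z H k Kq).card : ℝ) + (9 * (u * N) + 9 : ℝ) ^ k * B * (X * (1 + Real.log X))

/-- `kd` of a key -/
noncomputable def kJ (S₀ : Finset ℕ) (J : Finset (ℕ × ℕ)) : ℤ :=
  kd S₀ + ((J.filter fun e => ty e.2 = 3).card : ℤ) - ((J.filter fun e => ty e.2 = 1).card : ℤ)

/-- the condition on the key -/
def KQ {n : ℕ} (cl : Fin n → ℕ) (V V' M : ℕ) (S₀ : Finset ℕ) (J : Finset (ℕ × ℕ)) : Prop :=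
  (V : ℤ) ≤ kJ S₀ J ∧ 3 * kJ S₀ J + (V' : ℤ) ≤ ((J.filter fun e => ty e.2 = 0).card : ℤ) ∧
  ∀ r, (M : ℤ) * kJ S₀ J + (M : ℤ) * (S₀.card : ℤ) + (V' : ℤ) ≤
    ((J.filter fun e => e.2 = cl r).card : ℤ)

/-- KYJ: the joint law on the regular sets -/
def S_KYJ : Prop := ∃ C : ℝ, 1 ≤ C ∧ ∀ (t n : ℕ) (s : Fin t → Sy) (u a : ℕ) (cl : Fin n → ℕ)
  (x : Fin t → Fin n → ZMod 2), Hy s u a cl x → ∀ (V₀ : ℕ), ∃ V V' M K : ℕ,
  ∀ (β : Fin t → Bool) (X z H k N : ℕ) (κ : ℝ), 1 ≤ X → 1 ≤ H → u ≤ z → 0 ≤ κ →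
  C ≤ κ ^ 12 * z → (H : ℝ) * Real.log X < N →
  |(((RK u a X z H k (KQ cl V V' M)).filter fun S =>
        NdJ s (sm z S) (la z S) ∧ PatS s β S).card : ℝ) -
      amc β * (((RK u a X z H k (KQ cl V V' M)).filter fun S =>
        NdJ s (sm z S) (la z S)).card : ℝ)| ≤
    (4 * t + 2) * (1 / 2 : ℝ) ^ V₀ * ((RK u a X z H k (KQ cl V V' M)).card : ℝ) +
    (9 * (u * N) + 9 : ℝ) ^ k * (3 ^ (K * (k ^ 2 + 1)) * κ) * (X * (1 + Real.log X))

/-! ### The exceptional sets -/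

/-- FEWJ: few sets have few large primes in a class compared with `kd` and the number of the small
primes. -/
def S_FEWJ : Prop := ∀ (q c M V : ℕ), c < q → c.Coprime q → ∀ ε : ℝ, 0 < ε →
  ∃ X₀ : ℕ, ∀ X : ℕ, X₀ ≤ X →
  (((SA X).filter fun S => (((la (zz X) S).filter fun p => p % q = c).card : ℤ) <
    (M : ℤ) * kd S + (M : ℤ) * ((sm (zz X) S).card : ℤ) + (V : ℤ)).card : ℝ) ≤ ε * X

/-! ### The law in a class -/

/-- DJ: the joint law in a class -/
def S_DJ : Prop := ∀ (t n : ℕ) (s : Fin t → Sy) (u a : ℕ) (cl : Fin n → ℕ)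
  (x : Fin t → Fin n → ZMod 2), Hy s u a cl x → ∀ β : Fin t → Bool,
  ∀ ε : ℝ, 0 < ε → ∀ᶠ X : ℕ in Filter.atTop,
    |(((SE u a X).filter (PatS s β)).card : ℝ) -
      (1 / 2 * amc β + 1 / 2 * (if ∀ l, β l = false then 1 else 0)) * ((SE u a X).card : ℝ)| ≤
      ε * X

/-! ### The separating classes -/

/-- CLS: the class of the primes `q ≡ 1` modulo `4`, split, for which exactly one of the primes of
`2 u` is not a square -/
def S_CLS : Prop := ∀ u : ℕ, 56 ∣ u → 0 < u → ∀ r : ℕ, (r = 2 ∨ (Pr r ∧ r ∣ u)) →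
  ∃ c : ℕ, c < 7 * u ∧ c.Coprime (7 * u) ∧ ∀ q, Pr q → q % (7 * u) = c →
    ty q = 2 ∧ (∀ r', Pr r' → r' ∣ u → nr r' q = if r' = r then 1 else 0) ∧
      n2 q = if r = 2 then 1 else 0

end Pool.Agent.L0h2.P
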