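import Mathlib
import Pool.Agent.L0h2.P.Stm
import Pool.Agent.L0h74.KD.FEW
import Pool.Agent.Y405.CQ.MER

/-!
# Project P: few sets have few large primes in a class compared with `kd` and with the number of the
small primes

`fewG` is the general form: `T3` and `T1` are two sets of primes with the same logarithmic density.
-/

set_option autoImplicit false
set_option linter.unusedVariables false
set_option maxHeartbeats 1000000

open scoped Classical

namespace Pool.Agent.L0h2.P

open Finset Filter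
open Pool.Agent.Y703.CX (sm la eL zz eL_tendsto)
open Pool.Agent.N973.ND (Pr m7 ty SA kd)
open Pool.Agent.L0h74.KD.FEW (dev log_small mer Pa ty_mod)

/-- the primes with a property in an interval -/
noncomputable def PT (T : ℕ → Prop) (y : ℕ) : Finset ℕ := (Icc 1 y).filter fun p => p.Prime ∧ T p

lemma mem_PT {T : ℕ → Prop} {y p : ℕ} : p ∈ PT T y ↔ (1 ≤ p ∧ p ≤ y) ∧ p.Prime ∧ T p := by
  rw [PT, mem_filter, mem_Icc]

lemma PT_prime {T : ℕ → Prop} {y p : ℕ} (h : p ∈ PT T y) : p.Prime := by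
  rw [PT, mem_filter] at h
  exact h.2.1

lemma PT_sub (T : ℕ → Prop) (y : ℕ) : PT T y ⊆ Icc 1 y := filter_subset _ _

lemma SA_mem {X : ℕ} {S : Finset ℕ} (hS : S ∈ SA X) {p : ℕ} (hp : p ∈ S) : p.Prime ∧ p ≤ X := by
  rw [SA, mem_filter, mem_powerset] at hS
  have h1 := hS.1 hp
  rw [mem_range] at h1
  exact ⟨(hS.2.1 p hp).1, by omega⟩

lemma filter_PT {X : ℕ} {S : Finset ℕ} (hS : S ∈ SA X) (T : ℕ → Prop) :
    S.filter (fun p => p ∈ PT T X) = S.filter T := by
  refine filter_congr fun p hp => ?_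
  obtain ⟨h1, h2⟩ := SA_mem hS hp
  rw [PT, mem_filter, mem_Icc]
  exact ⟨fun h => h.2.2, fun h => ⟨⟨h1.pos, h2⟩, h1, h⟩⟩

/-- **few sets have few large primes in a class**, general form -/
theorem fewG {T1 T3 : ℕ → Prop} {Cb : ℝ}
    (hb : ∀ y : ℕ, 3 ≤ y → ∑ p ∈ PT T3 y, (1 : ℝ) / p - ∑ p ∈ PT T1 y, (1 : ℝ) / p ≤ Cb)
    {q c : ℕ} (hc : c < q) (hcq : c.Coprime q) (M V : ℕ) {ε : ℝ} (hε : 0 < ε) :
    ∃ X₀ : ℕ, ∀ X : ℕ, X₀ ≤ X →
    (((SA X).filter fun S => (((la (zz X) S).filter fun p => p % q = c).card : ℤ) <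
      (M : ℤ) * (((S.filter T3).card : ℤ) - ((S.filter T1).card : ℤ)) +
      (M : ℤ) * ((sm (zz X) S).card : ℤ) + (V : ℤ)).card : ℝ) ≤ ε * X := by
  obtain ⟨C0, hC0, hm0⟩ := Pool.Agent.Y405.CQ.mertens_ap q (by omega) c hc hcq
  obtain ⟨C1, hC1, hm1⟩ := Pool.Agent.Y405.CQ.mertens_ap 1 le_rfl 0 (by norm_num) (by norm_num)
  obtain ⟨κ, hκ⟩ : ∃ κ : ℝ, κ = 1 / (Nat.totient q : ℝ) := ⟨_, rfl⟩
  rw [← hκ] at hm0
  have hφ : (1 : ℝ) ≤ Nat.totient q := by
    exact_mod_cast Nat.totient_pos.2 (by omega : 0 < q)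
  have hκ0 : 0 < κ := by rw [hκ]; positivity
  have hκ1 : κ ≤ 1 := by rw [hκ, div_le_one (by linarith)]; exact hφ
  obtain ⟨C, hCd⟩ : ∃ C : ℝ, C = C0 + C1 + |Cb| := ⟨_, rfl⟩
  have hCb := le_abs_self Cb
  have hCb0 := abs_nonneg Cb
  have hC : 0 ≤ C := by rw [hCd]; positivity
  have hall : ∀ (T : ℕ → Prop) (y : ℕ), 3 ≤ y →
      ∑ p ∈ PT T y, (1 : ℝ) / p ≤ Real.log (Real.log y) + C := by
    intro T y hy
    have h1 := (abs_le.1 (hm1 y hy)).2
    have h2 : ∑ p ∈ PT T y, (1 : ℝ) / p ≤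
        ∑ p ∈ (Icc 1 y).filter (fun p => p.Prime ∧ p % 1 = 0), (1 : ℝ) / p := by
      refine sum_le_sum_of_subset_of_nonneg ?_ fun _ _ _ => by positivity
      intro p hp
      rw [PT, mem_filter] at hp
      rw [mem_filter]
      exact ⟨hp.1, hp.2.1, Nat.mod_one p⟩
    rw [Nat.totient_one, Nat.cast_one, div_one, one_mul] at h1
    linarith
  have hM0 : (0 : ℝ) ≤ M := Nat.cast_nonneg M
  have hV0 : (0 : ℝ) ≤ V := Nat.cast_nonneg V
  have ev : ∀ᶠ X : ℕ in atTop, (((SA X).filter fun S =>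
      (((la (zz X) S).filter fun p => p % q = c).card : ℤ) <
      (M : ℤ) * (((S.filter T3).card : ℤ) - ((S.filter T1).card : ℤ)) +
      (M : ℤ) * ((sm (zz X) S).card : ℤ) + (V : ℤ)).card : ℝ) ≤ ε * X := by
    filter_upwards [eL_tendsto.eventually (log_small (κ / (24 * (M + 1))) (by positivity)),
      eL_tendsto.eventually (eventually_ge_atTop (max 2 (max C (max
        (8 * (2 * (M + 1) * C + V) / κ) (24 * 64 * (M + 1) ^ 2 / (ε * κ ^ 2)))))),
      eventually_ge_atTop 3] with X h1 h2 h3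
    have l2 : 2 ≤ eL X := (le_max_left _ _).trans h2
    have lC : C ≤ eL X := (le_max_left _ _).trans ((le_max_right _ _).trans h2)
    have l3 : 8 * (2 * (M + 1) * C + V) / κ ≤ eL X :=
      (le_max_left _ _).trans ((le_max_right _ _).trans ((le_max_right _ _).trans h2))
    have l4 : 24 * 64 * (M + 1) ^ 2 / (ε * κ ^ 2) ≤ eL X :=
      (le_max_right _ _).trans ((le_max_right _ _).trans ((le_max_right _ _).trans h2))
    set l := eL X with hl
    have hl0 : 0 < l := by linarith
    have hX0 : (0 : ℝ) < X := by exact_mod_cast (by omega : 0 < X)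
    -- the bounds of z
    have hz3 : 3 ≤ zz X := by
      unfold zz
      apply Nat.le_floor
      have h := Real.add_one_le_exp ((eL X) ^ 3)
      have h' : (8 : ℝ) ≤ (eL X) ^ 3 := by
        have := pow_le_pow_left₀ (by norm_num : (0 : ℝ) ≤ 2) l2 3
        linarith
      push_cast
      linarith
    have hz0 : (0 : ℝ) < zz X := by exact_mod_cast (by omega : 0 < zz X)
    have hzlog : Real.log (zz X) ≤ l ^ 3 := by
      rw [Real.log_le_iff_le_exp hz0]
      exact Nat.floor_le (Real.exp_pos _).le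
    have hzlog0 : 0 < Real.log (zz X) := Real.log_pos (by exact_mod_cast (by omega : 1 < zz X))
    have hzll : Real.log (Real.log (zz X)) ≤ 3 * Real.log l := by
      have := Real.log_le_log hzlog0 hzlog
      rw [Real.log_pow] at this
      exact_mod_cast this
    have hlogl : 0 ≤ Real.log l := Real.log_nonneg (by linarith)
    have ell : Real.log (Real.log X) = l := rfl
    -- the sums
    obtain ⟨T0, hT0⟩ : ∃ T0 : ℕ → Prop, ∀ p, T0 p ↔ (p % q = c ∧ ¬ p ≤ zz X) :=
      ⟨fun p => p % q = c ∧ ¬ p ≤ zz X, fun _ => Iff.rfl⟩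
    obtain ⟨Ts, hTs⟩ : ∃ Ts : ℕ → Prop, ∀ p, Ts p ↔ p ≤ zz X := ⟨fun p => p ≤ zz X, fun _ => Iff.rfl⟩
    set L0 := ∑ p ∈ PT T0 X, (1 : ℝ) / p with hL0
    set L1 := ∑ p ∈ PT T1 X, (1 : ℝ) / p with hL1
    set L3 := ∑ p ∈ PT T3 X, (1 : ℝ) / p with hL3
    set Ls := ∑ p ∈ PT Ts X, (1 : ℝ) / p with hLs
    have a0 := hall T0 X h3
    have a1 := hall T1 X h3
    have a3 := hall T3 X h3
    have as := hall Ts X h3
    rw [← hL0, ell] at a0
    rw [← hL1, ell] at a1
    rw [← hL3, ell] at a3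
    rw [← hLs, ell] at as
    have b13 := hb X h3
    rw [← hL1, ← hL3] at b13
    have bs : Ls ≤ 3 * Real.log l + C := by
      have e1 : Ls ≤ ∑ p ∈ PT Ts (zz X), (1 : ℝ) / p := by
        refine sum_le_sum_of_subset_of_nonneg ?_ fun _ _ _ => by positivity
        intro p hp
        rw [mem_PT] at hp ⊢
        exact ⟨⟨hp.1.1, (hTs p).1 hp.2.2⟩, hp.2⟩
      have e2 := hall Ts (zz X) hz3
      linarith
    have b0 : κ * l - 3 * Real.log l - 2 * C ≤ L0 := by
      have e1 := (abs_le.1 (hm0 X h3)).1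
      have e2 := (abs_le.1 (hm0 (zz X) hz3)).2
      rw [ell] at e1
      have e3 : ∑ p ∈ (Icc 1 X).filter (fun p => p.Prime ∧ p % q = c), (1 : ℝ) / p ≤
          L0 + ∑ p ∈ (Icc 1 (zz X)).filter (fun p => p.Prime ∧ p % q = c), (1 : ℝ) / p := by
        rw [hL0, ← sum_union]
        · refine sum_le_sum_of_subset_of_nonneg ?_ fun _ _ _ => by positivity
          intro p hp
          rw [mem_filter, mem_Icc] at hp
          rw [mem_union, mem_PT, mem_filter, mem_Icc]
          by_cases hpz : p ≤ zz X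
          · exact Or.inr ⟨⟨hp.1.1, hpz⟩, hp.2⟩
          · exact Or.inl ⟨hp.1, hp.2.1, (hT0 p).2 ⟨hp.2.2, hpz⟩⟩
        · rw [disjoint_left]
          intro p hp hp2
          rw [mem_PT] at hp
          rw [mem_filter, mem_Icc] at hp2
          exact ((hT0 p).1 hp.2.2).2 hp2.1.2
      have e4 : κ * Real.log (Real.log (zz X)) ≤ 3 * Real.log l := by
        have g1 : κ * Real.log (Real.log (zz X)) ≤ κ * (3 * Real.log l) :=
          mul_le_mul_of_nonneg_left hzll hκ0.le
        have g2 : κ * (3 * Real.log l) ≤ 1 * (3 * Real.log l) :=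
          mul_le_mul_of_nonneg_right hκ1 (by positivity)
        linarith
      have e5 : C0 ≤ C := by rw [hCd]; linarith
      linarith
    obtain ⟨t, ht⟩ : ∃ t : ℝ, t = κ * l / (8 * (M + 1)) := ⟨_, rfl⟩
    have ht0 : 0 < t := by rw [ht]; positivity
    have hM1 : (0 : ℝ) < M + 1 := by linarith
    have htM : (M + 1) * t = κ * l / 8 := by
      rw [ht]
      field_simp
    have d0 := dev X (PT T0 X) (fun p => PT_prime) (PT_sub _ _) t ht0
    have d1 := dev X (PT T1 X) (fun p => PT_prime) (PT_sub _ _) t ht0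
    have d3 := dev X (PT T3 X) (fun p => PT_prime) (PT_sub _ _) t ht0
    have ds := dev X (PT Ts X) (fun p => PT_prime) (PT_sub _ _) t ht0
    rw [← hL0] at d0
    rw [← hL1] at d1
    rw [← hL3] at d3
    rw [← hLs] at ds
    -- the cover
    have hcov : ((SA X).filter fun S =>
        (((la (zz X) S).filter fun p => p % q = c).card : ℤ) <
        (M : ℤ) * (((S.filter T3).card : ℤ) - ((S.filter T1).card : ℤ)) +
        (M : ℤ) * ((sm (zz X) S).card : ℤ) + (V : ℤ)) ⊆
        (((SA X).filter fun S => t < |((S.filter (fun p => p ∈ PT T0 X)).card : ℝ) - L0|) ∪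
        ((SA X).filter fun S => t < |((S.filter (fun p => p ∈ PT T1 X)).card : ℝ) - L1|)) ∪
        (((SA X).filter fun S => t < |((S.filter (fun p => p ∈ PT T3 X)).card : ℝ) - L3|) ∪
        ((SA X).filter fun S => t < |((S.filter (fun p => p ∈ PT Ts X)).card : ℝ) - Ls|)) := by
      intro S hS
      rw [mem_filter] at hS
      obtain ⟨hS1, hS2⟩ := hS
      by_contra hcon
      simp only [mem_union, mem_filter, not_or, not_and, not_lt] at hcon
      obtain ⟨⟨c0, c1⟩, c3, cs⟩ := hcon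
      have c0 := abs_le.1 (c0 hS1)
      have c1 := abs_le.1 (c1 hS1)
      have c3 := abs_le.1 (c3 hS1)
      have cs := abs_le.1 (cs hS1)
      rw [filter_PT hS1] at c0 c1 c3 cs
      have e0 : S.filter T0 = (la (zz X) S).filter fun p => p % q = c := by
        ext p
        rw [la, mem_filter, mem_filter, mem_filter, hT0 p]
        constructor
        · rintro ⟨g1, g2, g3⟩
          exact ⟨⟨g1, g3⟩, g2⟩
        · rintro ⟨⟨g1, g3⟩, g2⟩
          exact ⟨g1, g2, g3⟩
      have es : S.filter Ts = sm (zz X) S := by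
        unfold sm
        exact filter_congr fun p _ => hTs p
      rw [e0] at c0
      rw [es] at cs
      have hS4 : (((la (zz X) S).filter fun p => p % q = c).card : ℝ) <
          M * (((S.filter T3).card : ℝ) - ((S.filter T1).card : ℝ)) +
          M * ((sm (zz X) S).card : ℝ) + V := by
        exact_mod_cast hS2
      have g1 : (M : ℝ) * (((S.filter T3).card : ℝ) - ((S.filter T1).card : ℝ)) ≤ M * (C + 2 * t) := by
        refine mul_le_mul_of_nonneg_left ?_ hM0
        have : Cb ≤ C := by rw [hCd]; linarith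
        linarith
      have g2 : (M : ℝ) * ((sm (zz X) S).card : ℝ) ≤ M * (3 * Real.log l + C + t) := by
        refine mul_le_mul_of_nonneg_left ?_ hM0
        linarith
      have g3 : 3 * ((M : ℝ) + 1) * Real.log l ≤ κ * l / 8 := by
        have := mul_le_mul_of_nonneg_left h1 (by positivity : (0 : ℝ) ≤ 3 * ((M : ℝ) + 1))
        refine this.trans (le_of_eq ?_)
        field_simp
        ring
      have g4 : 2 * ((M : ℝ) + 1) * C + V ≤ κ * l / 8 := by
        rw [div_le_iff₀ hκ0] at l3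
        linarith
      have hκl : 0 < κ * l := mul_pos hκ0 hl0
      have c01 := c0.1
      linarith
    have hcard := (card_le_card hcov).trans ((card_union_le _ _).trans
      (Nat.add_le_add (card_union_le _ _) (card_union_le _ _)))
    have hcard' : (((SA X).filter fun S =>
        (((la (zz X) S).filter fun p => p % q = c).card : ℤ) <
        (M : ℤ) * (((S.filter T3).card : ℤ) - ((S.filter T1).card : ℤ)) +
        (M : ℤ) * ((sm (zz X) S).card : ℤ) + (V : ℤ)).card : ℝ) ≤
        (((SA X).filter fun S => t < |((S.filter (fun p => p ∈ PT T0 X)).card : ℝ) - L0|).card +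
        ((SA X).filter fun S => t < |((S.filter (fun p => p ∈ PT T1 X)).card : ℝ) - L1|).card) +
        (((SA X).filter fun S => t < |((S.filter (fun p => p ∈ PT T3 X)).card : ℝ) - L3|).card +
        ((SA X).filter fun S => t < |((S.filter (fun p => p ∈ PT Ts X)).card : ℝ) - Ls|).card) := by
      exact_mod_cast hcard
    have hXl : ∀ L : ℝ, L ≤ l + C → 3 * (X : ℝ) * L ≤ 6 * (X * l) := by
      intro L hL
      have : 3 * (X : ℝ) * L ≤ 3 * X * (2 * l) :=
        mul_le_mul_of_nonneg_left (by linarith) (by positivity)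
      linarith
    have f1 := mul_le_mul_of_nonneg_right hcard' (sq_nonneg t)
    have f2 : 24 * (X * l) ≤ ε * X * t ^ 2 := by
      have h5 : 24 * 64 * ((M : ℝ) + 1) ^ 2 ≤ l * (ε * κ ^ 2) := by
        rwa [div_le_iff₀ (by positivity)] at l4
      have h6 : ε * X * t ^ 2 = (X * l) * ((l * (ε * κ ^ 2)) / (64 * ((M : ℝ) + 1) ^ 2)) := by
        rw [ht]
        field_simp
        ring
      rw [h6]
      have h7 : 24 ≤ (l * (ε * κ ^ 2)) / (64 * ((M : ℝ) + 1) ^ 2) := by
        rw [le_div_iff₀ (by positivity)]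
        linarith
      have h8 : 0 ≤ X * l := by positivity
      nlinarith
    have f3 := hXl L0 a0
    have f4 := hXl L1 a1
    have f5 := hXl L3 a3
    have f6 := hXl Ls as
    refine le_of_mul_le_mul_right ?_ (by positivity : 0 < t ^ 2)
    refine f1.trans ?_
    have f7 : ε * X * t ^ 2 = (ε * X) * t ^ 2 := rfl
    linarith
  obtain ⟨X₀, hX₀⟩ := eventually_atTop.1 ev
  exact ⟨X₀, hX₀⟩

/-- **S_FEWJ** -/
theorem t_FEWJ : S_FEWJ := by
  intro q c M V hc hcq ε hε
  obtain ⟨C, hC0, hC⟩ := mer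
  have hPT : ∀ a y : ℕ, PT (fun p => Pr p ∧ ty p = a) y = Pa a 0 y := by
    intro a y
    ext p
    rw [mem_PT, Pa, mem_filter, mem_range]
    constructor
    · rintro ⟨h1, h2, h3⟩
      exact ⟨by omega, h3, by omega⟩
    · rintro ⟨h1, h2, h3⟩
      exact ⟨⟨h3, by omega⟩, h2.1.1, h2⟩
  obtain ⟨X₀, hX₀⟩ := fewG (T1 := fun p => Pr p ∧ ty p = 1) (T3 := fun p => Pr p ∧ ty p = 3)
    (Cb := 2 * C) (by
      intro y hy
      rw [hPT, hPT]
      have h1 := (abs_le.1 (hC 1 (by norm_num) y hy)).1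
      have h3 := (abs_le.1 (hC 3 (by norm_num) y hy)).2
      linarith) hc hcq M V hε
  refine ⟨X₀, fun X hX => ?_⟩
  refine le_trans (le_of_eq ?_) (hX₀ X hX)
  congr 2
  refine filter_congr fun S hS => ?_
  have hpr : ∀ a : ℕ, S.filter (fun p => Pr p ∧ ty p = a) = S.filter fun p => ty p = a := by
    intro a
    refine filter_congr fun p hp => ?_
    rw [SA, mem_filter] at hS
    exact ⟨fun h => h.2, fun h => ⟨hS.2.1 p hp, h⟩⟩
  have hk : ((S.filter (fun p => Pr p ∧ ty p = 3)).card : ℤ) -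
      ((S.filter (fun p => Pr p ∧ ty p = 1)).card : ℤ) = kd S := by
    unfold kd
    rw [← hpr 3, ← hpr 1]
  rw [← hk]
  convert Iff.rfl

end Pool.Agent.L0h2.P
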