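import Pool.Agent.L0h1.KD.LC

/-!
# Project P: the joint law of several systems, the last columns

`t` systems with different small parts `U l` and the same large part `J`. The dual kernels are in
general position (`GP`); then the forms on them are independent and uniform over the moves.
-/

set_option autoImplicit false
set_option linter.unusedSectionVars false
set_option linter.unusedVariables false
set_option maxHeartbeats 1000000

open scoped Classical

namespace Pool.Agent.L0h2.P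

open Finset
open Pool.Agent.N973.ND
open Pool.Agent.L0h1.KD

/-- the limit of a pattern with the sizes `m` -/
noncomputable def amp {t : ℕ} (β : Fin t → Bool) (m : Fin t → ℕ) : ℝ :=
  ∏ l, if β l = true then am (m l) else 1 - am (m l)

theorem amp_nonneg {t : ℕ} (β : Fin t → Bool) (m : Fin t → ℕ) : 0 ≤ amp β m := by
  unfold amp
  refine prod_nonneg fun l _ => ?_
  have h1 := am_nonneg (m l)
  have h2 := am_le (m l)
  split_ifs <;> linarith

theorem amp_le {t : ℕ} (β : Fin t → Bool) (m : Fin t → ℕ) : amp β m ≤ 1 := by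
  unfold amp
  refine prod_le_one (fun l _ => ?_) fun l _ => ?_
  · have h1 := am_nonneg (m l)
    have h2 := am_le (m l)
    split_ifs <;> linarith
  · have h1 := am_nonneg (m l)
    have h2 := am_le (m l)
    split_ifs <;> linarith

/-- one system: the number of the alternating matrices with a given pattern -/
theorem card_alt_pat (hALT : S_ALT) (m : ℕ) (β : Bool) :
    ((univ.filter fun r : Pp (2 * m) → ZMod 2 => ((alt r).det ≠ 0 ↔ β = true)).card : ℝ) =
      2 ^ Fintype.card (Pp (2 * m)) * (if β = true then am m else 1 - am m) := by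
  have h1 := card_alt hALT m
  cases β with
  | true => simpa using h1
  | false =>
    have h2 : (univ.filter fun r : Pp (2 * m) → ZMod 2 => ((alt r).det ≠ 0 ↔ false = true)) =
        univ.filter fun r : Pp (2 * m) → ZMod 2 => ¬ (alt r).det ≠ 0 := by
      refine filter_congr fun r _ => ?_
      simp
    rw [h2]
    have h3 := card_filter_add_card_filter_not (s := (univ : Finset (Pp (2 * m) → ZMod 2)))
      (fun r => (alt r).det ≠ 0)
    have h4 : ((univ : Finset (Pp (2 * m) → ZMod 2)).card : ℝ) = 2 ^ Fintype.card (Pp (2 * m)) := by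
      rw [card_univ, Fintype.card_fun, ZMod.card]
      push_cast
      rfl
    have h5 : ((univ.filter fun r : Pp (2 * m) → ZMod 2 => (alt r).det ≠ 0).card : ℝ) +
        ((univ.filter fun r : Pp (2 * m) → ZMod 2 => ¬ (alt r).det ≠ 0).card : ℝ) =
        2 ^ Fintype.card (Pp (2 * m)) := by
      rw [← h4]
      exact_mod_cast h3
    rw [h1] at h5
    simp only [Bool.false_eq_true, if_false]
    linarith

/-- several systems: the number of the families of alternating matrices with a given pattern -/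
theorem card_alt_fam (hALT : S_ALT) {t : ℕ} (m : Fin t → ℕ) (β : Fin t → Bool) :
    ((univ.filter fun r : (Σ l : Fin t, Pp (2 * m l)) → ZMod 2 =>
      ∀ l, ((alt fun p => r ⟨l, p⟩).det ≠ 0 ↔ β l = true)).card : ℝ) =
      2 ^ Fintype.card (Σ l : Fin t, Pp (2 * m l)) * amp β m := by
  have h1 : (univ.filter fun r : (Σ l : Fin t, Pp (2 * m l)) → ZMod 2 =>
      ∀ l, ((alt fun p => r ⟨l, p⟩).det ≠ 0 ↔ β l = true)).card =
      (Fintype.piFinset fun l => univ.filter fun r : Pp (2 * m l) → ZMod 2 =>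
        ((alt r).det ≠ 0 ↔ β l = true)).card := by
    refine card_bij' (fun r _ l p => r ⟨l, p⟩) (fun f _ x => f x.1 x.2) ?_ ?_ ?_ ?_
    · intro r hr
      rw [mem_filter] at hr
      rw [Fintype.mem_piFinset]
      intro l
      rw [mem_filter]
      exact ⟨mem_univ _, hr.2 l⟩
    · intro f hf
      rw [Fintype.mem_piFinset] at hf
      rw [mem_filter]
      refine ⟨mem_univ _, fun l => ?_⟩
      have := hf l
      rw [mem_filter] at this
      exact this.2
    · intro r _
      funext x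
      rfl
    · intro f _
      rfl
  rw [h1, Fintype.card_piFinset]
  push_cast
  rw [prod_congr rfl fun l _ => card_alt_pat hALT (m l) (β l), prod_mul_distrib]
  unfold amp
  congr 1
  rw [prod_pow_eq_pow_sum]
  congr 1
  exact (Fintype.card_sigma).symm

section
variable {t : ℕ} {U : Fin t → Type} [∀ l, Fintype (U l)] {J : Type} [Fintype J] [LinearOrder J]

/-- the pattern of the good systems -/
def Pat (β : Fin t → Bool) (Sp Pc : ∀ l, Finset (U l ⊕ J)) (N E : ∀ l, U l ⊕ J → U l ⊕ J → ZMod 2)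
    (b : ∀ l, U l ⊕ J → ZMod 2) : Prop :=
  ∀ l, (Gv (Sp l) (Pc l) (N l) (E l) (b l) ↔ β l = true)

/-- the dual kernels are in general position -/
def GP (Jk : Finset J) (Sp Pc : ∀ l, Finset (U l ⊕ J)) (N : ∀ l, U l ⊕ J → U l ⊕ J → ZMod 2)
    (b : ∀ l, U l ⊕ J → ZMod 2) : Prop :=
  ∀ s : ∀ l, U l ⊕ J → ZMod 2, (∀ l, Zk (Sp l) (Pc l) (N l) (b l) (s l)) →
    (∀ k ∈ Jk, ∑ l, s l (Sum.inr k) = 0) → ∀ l j, s l j = 0

variable {Sp Pc : ∀ l, Finset (U l ⊕ J)} {Jk : Finset J}

/-- a system in general position: one system -/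
theorem GP.one {N : ∀ l, U l ⊕ J → U l ⊕ J → ZMod 2} {b : ∀ l, U l ⊕ J → ZMod 2}
    (h : GP Jk Sp Pc N b) (l : Fin t) (s : U l ⊕ J → ZMod 2) (hs : Zk (Sp l) (Pc l) (N l) (b l) s)
    (h0 : ∀ k ∈ Jk, s (Sum.inr k) = 0) : ∀ j, s j = 0 := by
  have h1 := h (fun l' => if h : l' = l then h ▸ s else 0) (by
    intro l'
    by_cases hl : l' = l
    · subst hl
      simpa using hs
    · simp only [dif_neg hl]
      have : (0 : U l' ⊕ J → ZMod 2) ∈ ZZ (Sp l') (Pc l') (N l') (b l') := Submodule.zero_mem _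
      exact this) (by
    intro k hk
    rw [sum_eq_single l]
    · simpa using h0 k hk
    · intro l' _ hl
      simp only [dif_neg hl]
      rfl
    · intro h; exact absurd (mem_univ _) h) l
  intro j
  have := h1 j
  simpa using this

/-- **the last columns**: exact uniformity and independence -/
theorem vstep (hALT : S_ALT) {q : ℕ} {m : Fin t → ℕ} {N E : ∀ l, U l ⊕ J → U l ⊕ J → ZMod 2}
    {b : ∀ l, U l ⊕ J → ZMod 2}
    {α β : Fin q → J} (hα : Function.Injective α) (hβ : Function.Injective β)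
    (hαβ : ∀ τ τ', α τ ≠ β τ') (hαP : ∀ l τ, Sum.inr (α τ) ∉ Pc l)
    (hβP : ∀ l τ, Sum.inr (β τ) ∉ Pc l)
    (hE : ∀ l, ∀ i ∈ Sp l, ∀ j ∈ Sp l, E l i j = E l j i) (hE0 : ∀ l i, E l i i = 0)
    (h1 : ∀ l x, Wk (Sp l) (Pc l) (N l) (b l) x → ∀ j, x j = 0)
    (hcard : ∀ l, (Sp l).card = (Pc l).card + 2 * m l)
    (hgp : GP Jk Sp Pc N b)
    (hgood : ∀ l s, Zk (Sp l) (Pc l) (N l) (b l) s →
      (∀ τ, Ph (N l) (b l) s (Sum.inr (α τ)) + Ph (N l) (b l) s (Sum.inr (β τ)) = 0) →
        ∀ j, s j = 0) (pat : Fin t → Bool) :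
    ((univ.filter fun v : Fin q → J → ZMod 2 =>
      Pat pat Sp Pc (fun l => pt (N l) (mv Jk α β v)) E b).card : ℝ) =
      amp pat m * (Fintype.card (Fin q → J → ZMod 2) : ℝ) := by
  have hfr : ∀ l, Module.finrank (ZMod 2) (ZZ (Sp l) (Pc l) (N l) (b l)) = 2 * m l := by
    intro l
    have h2 := card_Z (h1 l)
    rw [hcard l, pow_add] at h2
    have h3 : Nat.card (ZZ (Sp l) (Pc l) (N l) (b l)) = 2 ^ (2 * m l) := by
      have h4 : (0 : ℕ) < 2 ^ (Pc l).card := by positivity
      refine Nat.eq_of_mul_eq_mul_right h4 ?_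
      rw [h2]
      ring
    have h5 := Module.card_eq_pow_finrank (K := ZMod 2) (V := ZZ (Sp l) (Pc l) (N l) (b l))
    rw [← Nat.card_eq_fintype_card, h3, ZMod.card] at h5
    exact (Nat.pow_right_injective le_rfl h5).symm
  set z : ∀ l, Module.Basis (Fin (2 * m l)) (ZMod 2) (ZZ (Sp l) (Pc l) (N l) (b l)) := fun l =>
    Module.finBasisOfFinrankEq (ZMod 2) (ZZ (Sp l) (Pc l) (N l) (b l)) (hfr l) with hz
  have hzZ : ∀ l a, Zk (Sp l) (Pc l) (N l) (b l) (z l a : U l ⊕ J → ZMod 2) := fun l a => (z l a).2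
  -- the linear map
  set A : ∀ l, Fin q → (U l ⊕ J → ZMod 2) → ZMod 2 := fun l τ y =>
    Ph (N l) (b l) y (Sum.inr (α τ)) + Ph (N l) (b l) y (Sum.inr (β τ)) with hA
  have hAadd : ∀ l τ y y', A l τ (y + y') = A l τ y + A l τ y' := by
    intro l τ y y'
    simp only [hA, Ph_add]
    ring
  have hAsmul : ∀ l τ (c : ZMod 2) y, A l τ (c • y) = c * A l τ y := by
    intro l τ c y
    simp only [hA, Ph_smul]
    ring
  set L : (Fin q → J → ZMod 2) →ₗ[ZMod 2] ((Σ l : Fin t, Pp (2 * m l)) → ZMod 2) :=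
    { toFun := fun v p => ∑ τ, (A p.1 τ (z p.1 p.2.1.1) *
          pr Jk (v τ) (z p.1 p.2.1.2 : U p.1 ⊕ J → ZMod 2) +
        A p.1 τ (z p.1 p.2.1.2) * pr Jk (v τ) (z p.1 p.2.1.1 : U p.1 ⊕ J → ZMod 2))
      map_add' := fun v v' => by
        funext p
        simp only [Pi.add_apply, pr_add, mul_add, sum_add_distrib]
        ring
      map_smul' := fun c v => by
        funext p
        simp only [Pi.smul_apply, pr_smul, RingHom.id_apply, smul_eq_mul, mul_sum]
        exact sum_congr rfl fun τ _ => by ring } with hL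
  have hsum : ∀ l (c : Fin (2 * m l) → ZMod 2),
      ((∑ i, c i • z l i : ZZ (Sp l) (Pc l) (N l) (b l)) : U l ⊕ J → ZMod 2) =
      ∑ i, c i • (z l i : U l ⊕ J → ZMod 2) := by
    intro l c
    rw [Submodule.coe_sum]
    rfl
  have hzero : ∀ l (c : Fin (2 * m l) → ZMod 2),
      (∀ j, (∑ i, c i • (z l i : U l ⊕ J → ZMod 2)) j = 0) → ∀ i, c i = 0 := by
    intro l c hc
    have h2 : (∑ i, c i • z l i : ZZ (Sp l) (Pc l) (N l) (b l)) = 0 := by
      apply Subtype.ext
      rw [hsum]
      exact funext hc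
    exact Fintype.linearIndependent_iff.1 (z l).linearIndependent c h2
  have hind : ∀ r : (Σ l : Fin t, Pp (2 * m l)) → ZMod 2, (∀ v, ∑ p, r p * L v p = 0) →
      ∀ p, r p = 0 := by
    intro r hr
    set R : ∀ l, Matrix (Fin (2 * m l)) (Fin (2 * m l)) (ZMod 2) := fun l =>
      alt fun p => r ⟨l, p⟩ with hR
    have h2 : ∀ v : Fin q → J → ZMod 2, ∑ l, ∑ a, ∑ c, R l a c * ∑ τ, A l τ (z l a) *
        pr Jk (v τ) (z l c : U l ⊕ J → ZMod 2) = 0 := by
      intro v
      rw [← hr v, Fintype.sum_sigma]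
      refine sum_congr rfl fun l _ => ?_
      rw [← sum_alt (fun p => r ⟨l, p⟩) fun a c => ∑ τ, A l τ (z l a) *
        pr Jk (v τ) (z l c : U l ⊕ J → ZMod 2)]
      refine sum_congr rfl fun p _ => ?_
      have h3 : L v ⟨l, p⟩ = ∑ τ, (A l τ (z l p.1.1) * pr Jk (v τ) (z l p.1.2 : U l ⊕ J → ZMod 2) +
        A l τ (z l p.1.2) * pr Jk (v τ) (z l p.1.1 : U l ⊕ J → ZMod 2)) := rfl
      rw [h3, sum_add_distrib]
    have h3 : ∀ τ, ∀ k ∈ Jk, ∑ l, ∑ c, (∑ a, R l a c * A l τ (z l a)) *
        (z l c : U l ⊕ J → ZMod 2) (Sum.inr k) = 0 := by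
      intro τ k hk
      refine Eq.trans ?_ (h2 (Pi.single τ (Pi.single k 1)))
      refine sum_congr rfl fun l _ => ?_
      rw [sum_comm]
      refine sum_congr rfl fun c _ => ?_
      rw [sum_mul]
      refine sum_congr rfl fun a _ => ?_
      rw [sum_eq_single τ]
      · rw [Pi.single_eq_same, pr_single hk]
        ring
      · intro τ' _ h
        rw [Pi.single_eq_of_ne h, pr_zero, mul_zero]
      · intro h; exact absurd (mem_univ _) h
    have h4 : ∀ τ l c, ∑ a, R l a c * A l τ (z l a) = 0 := by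
      intro τ
      have h5 := hgp (fun l => ∑ c, (∑ a, R l a c * A l τ (z l a)) • (z l c : U l ⊕ J → ZMod 2)) (by
        intro l
        rw [← hsum]
        exact (∑ c, (∑ a, R l a c * A l τ (z l a)) • z l c : ZZ (Sp l) (Pc l) (N l) (b l)).2) (by
        intro k hk
        refine Eq.trans ?_ (h3 τ k hk)
        refine sum_congr rfl fun l _ => ?_
        rw [Finset.sum_apply]
        exact sum_congr rfl fun c _ => by rw [Pi.smul_apply, smul_eq_mul])
      exact fun l => hzero l _ (h5 l)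
    have h5 : ∀ l c a, R l a c = 0 := by
      intro l c
      have hAs : ∀ τ, A l τ (∑ a, R l a c • (z l a : U l ⊕ J → ZMod 2)) =
          ∑ a, R l a c * A l τ (z l a) := by
        intro τ
        set f : (U l ⊕ J → ZMod 2) →ₗ[ZMod 2] ZMod 2 :=
          { toFun := A l τ
            map_add' := hAadd l τ
            map_smul' := fun a s => hAsmul l τ a s } with hf
        have h6 := map_sum f (fun a => R l a c • (z l a : U l ⊕ J → ZMod 2)) univ
        have h7 : ∀ s, f s = A l τ s := fun _ => rfl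
        simp only [h7] at h6
        rw [h6]
        exact sum_congr rfl fun a _ => hAsmul _ _ _ _
      have h6 := hgood l (∑ a, R l a c • (z l a : U l ⊕ J → ZMod 2)) (by
        rw [← hsum]
        exact (∑ a, R l a c • z l a : ZZ (Sp l) (Pc l) (N l) (b l)).2) (by
        intro τ
        exact (hAs τ).trans (h4 τ l c))
      exact hzero l _ h6
    rintro ⟨l, p⟩
    have h6 := h5 l p.1.2 p.1.1
    have h7 : (alt fun p => r ⟨l, p⟩) p.1.1 p.1.2 = 0 := h6
    exact (alt_lt (fun p => r ⟨l, p⟩) p.2).symm.trans h7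
  set M₀ : ∀ l, Matrix (Fin (2 * m l)) (Fin (2 * m l)) (ZMod 2) := fun l =>
    gm (N l) (E l) (b l) fun a => (z l a : U l ⊕ J → ZMod 2) with hM₀
  set r₀ : (Σ l : Fin t, Pp (2 * m l)) → ZMod 2 := fun p => M₀ p.1 p.2.1.1 p.2.1.2 with hr₀
  have hiff : ∀ (v : Fin q → J → ZMod 2) l, Gv (Sp l) (Pc l) (pt (N l) (mv Jk α β v)) (E l) (b l) ↔
      (alt fun p => (r₀ + L v) ⟨l, p⟩).det ≠ 0 := by
    intro v l
    set Nv := pt (N l) (mv Jk α β v) with hNv
    have hZ : ZZ (Sp l) (Pc l) (N l) (b l) = ZZ (Sp l) (Pc l) Nv (b l) := by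
      ext s
      exact (Zk_mv (N l) (hαP l) (hβP l) v (b l) s).symm
    have e1 : Gv (Sp l) (Pc l) Nv (E l) (b l) ↔ ∀ s, Zk (Sp l) (Pc l) Nv (b l) s →
        (∀ y, Zk (Sp l) (Pc l) Nv (b l) y → bf Nv (E l) (b l) y s = 0) → ∀ j, s j = 0 := by
      unfold Gv
      refine and_iff_right ?_
      intro x hx
      exact h1 l x ((Wk_mv (N l) (hαP l) (hβP l) v (b l) x).1 hx)
    rw [e1, nondeg_iff (hE l) ((z l).map (LinearEquiv.ofEq _ _ hZ))]
    have e2 : ∀ a, (((z l).map (LinearEquiv.ofEq _ _ hZ)) a : U l ⊕ J → ZMod 2) = z l a := by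
      intro a
      rw [Module.Basis.map_apply, LinearEquiv.coe_ofEq_apply]
    simp only [e2]
    have e3 : gm Nv (E l) (b l) (fun a => (z l a : U l ⊕ J → ZMod 2)) =
        alt fun p => (r₀ + L v) ⟨l, p⟩ := by
      rw [← alt_of (M := gm Nv (E l) (b l) (fun a => (z l a : U l ⊕ J → ZMod 2)))]
      · congr 1
        funext p
        have e4 : (r₀ + L v) ⟨l, p⟩ = bf (N l) (E l) (b l) (z l p.1.1) (z l p.1.2) +
          ∑ τ, (A l τ (z l p.1.1) * pr Jk (v τ) (z l p.1.2 : U l ⊕ J → ZMod 2) +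
        A l τ (z l p.1.2) * pr Jk (v τ) (z l p.1.1 : U l ⊕ J → ZMod 2)) := rfl
        rw [e4]
        exact bf_mv (N l) (E l) Jk hα hβ hαβ v (b l) _ _
      · apply Matrix.IsSymm.ext
        intro a c
        exact bf_comm (hE l) (hzZ l _).1 (hzZ l _).1
      · intro a
        exact bf_self (hE l) (hE0 l) (hzZ l _).1
    rw [e3]
  have hcount : (univ.filter fun v : Fin q → J → ZMod 2 =>
      Pat pat Sp Pc (fun l => pt (N l) (mv Jk α β v)) E b).card *
        2 ^ Fintype.card (Σ l : Fin t, Pp (2 * m l)) =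
      (univ.filter fun r : (Σ l : Fin t, Pp (2 * m l)) → ZMod 2 =>
        ∀ l, ((alt fun p => r ⟨l, p⟩).det ≠ 0 ↔ pat l = true)).card *
        Fintype.card (Fin q → J → ZMod 2) := by
    have hpat : ∀ v : Fin q → J → ZMod 2, Pat pat Sp Pc (fun l => pt (N l) (mv Jk α β v)) E b ↔
        ∀ l, ((alt fun p => (r₀ + L v) ⟨l, p⟩).det ≠ 0 ↔ pat l = true) := by
      intro v
      unfold Pat
      refine forall_congr' fun l => ?_
      rw [hiff v l]
    rw [filter_congr fun v _ => hpat v]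
    rw [card_eq_sum_card_fiberwise (f := fun v => r₀ + L v)
      (t := univ.filter fun r : (Σ l : Fin t, Pp (2 * m l)) → ZMod 2 =>
        ∀ l, ((alt fun p => r ⟨l, p⟩).det ≠ 0 ↔ pat l = true)) (by
        intro v hv
        rw [mem_coe, mem_filter] at hv ⊢
        exact ⟨mem_univ _, hv.2⟩), sum_mul]
    rw [sum_congr rfl (g := fun _ => Fintype.card (Fin q → J → ZMod 2)) ?_, sum_const, smul_eq_mul]
    intro r hr
    rw [mem_filter] at hr
    rw [← card_fib L hind (r - r₀)]
    congr 2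
    ext v
    simp only [mem_filter, mem_univ, true_and]
    constructor
    · rintro ⟨-, h3⟩
      rw [← h3, add_sub_cancel_left]
    · intro h3
      have h4 : r₀ + L v = r := by rw [h3, add_sub_cancel]
      rw [h4]
      exact ⟨hr.2, rfl⟩
  have hc2 := card_alt_fam hALT m pat
  have h9 : (0 : ℝ) < 2 ^ Fintype.card (Σ l : Fin t, Pp (2 * m l)) := by positivity
  have h10 : ((univ.filter fun v : Fin q → J → ZMod 2 =>
      Pat pat Sp Pc (fun l => pt (N l) (mv Jk α β v)) E b).card : ℝ) *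
        2 ^ Fintype.card (Σ l : Fin t, Pp (2 * m l)) =
      ((univ.filter fun r : (Σ l : Fin t, Pp (2 * m l)) → ZMod 2 =>
        ∀ l, ((alt fun p => r ⟨l, p⟩).det ≠ 0 ↔ pat l = true)).card : ℝ) *
        (Fintype.card (Fin q → J → ZMod 2) : ℝ) := by
    exact_mod_cast hcount
  rw [hc2] at h10
  refine mul_right_cancel₀ h9.ne' ?_
  rw [h10]
  ring

end

end Pool.Agent.L0h2.P
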