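import Pool.Agent.L0h2.P.GP0
import Pool.Agent.L0h2.P.LA1
import Pool.Agent.N916.GB.Stm

/-!
# Project P: general position of the dual kernels, for most of the completions
-/

set_option autoImplicit false
set_option linter.unusedSectionVars false
set_option linter.unusedVariables false
set_option maxHeartbeats 1000000

open scoped Classical

namespace Pool.Agent.L0h2.P

open Finset
open Pool.Agent.N973.ND
open Pool.Agent.L0h1.KD
open Pool.Agent.N916.GB (ps)

section
variable {J : Type} [Fintype J] [LinearOrder J]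

theorem gsx_symm (σ : ps J → ZMod 2) (k l : J) :
    Pool.Agent.N916.GB.sx σ k l = Pool.Agent.N916.GB.sx σ l k := by
  have hlt : ∀ {k l : J}, (k, l) ∈ ps J → k < l := fun h => by
    unfold ps at h
    exact (mem_filter.1 h).2
  unfold Pool.Agent.N916.GB.sx
  by_cases h : (k, l) ∈ ps J
  · have h' : (l, k) ∉ ps J := fun h' => lt_asymm (hlt h) (hlt h')
    rw [dif_pos h, dif_neg h', dif_pos h]
  · rw [dif_neg h]
    by_cases h' : (l, k) ∈ ps J
    · rw [dif_pos h', dif_pos h']
    · rw [dif_neg h', dif_neg h', dif_neg h]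

theorem gsx_self (σ : ps J → ZMod 2) (k : J) : Pool.Agent.N916.GB.sx σ k k = 0 := by
  have h : (k, k) ∉ ps J := fun h => by
    unfold ps at h
    exact lt_irrefl _ (mem_filter.1 h).2
  unfold Pool.Agent.N916.GB.sx
  rw [dif_neg h, dif_neg h]

theorem gsx_add (σ τ : ps J → ZMod 2) (k l : J) :
    Pool.Agent.N916.GB.sx (σ + τ) k l =
      Pool.Agent.N916.GB.sx σ k l + Pool.Agent.N916.GB.sx τ k l := by
  unfold Pool.Agent.N916.GB.sx
  split_ifs
  · rfl
  · rfl
  · rw [add_zero]

/-- a symmetric function comes from the pairs -/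
theorem gsx_of (D : J → J → ZMod 2) (hD : ∀ k l, D k l = D l k) {k l : J} (h : k ≠ l) :
    Pool.Agent.N916.GB.sx (fun e : ps J => D e.1.1 e.1.2) k l = D k l := by
  have hmem : ∀ k l : J, (k, l) ∈ ps J ↔ k < l := fun k l => by
    unfold ps
    simp
  unfold Pool.Agent.N916.GB.sx
  rcases lt_or_gt_of_ne h with h1 | h1
  · rw [dif_pos ((hmem k l).2 h1)]
  · rw [dif_neg (fun h2 => lt_asymm h1 ((hmem k l).1 h2)), dif_pos ((hmem l k).2 h1)]
    exact hD l k

end

section
variable {t : ℕ} {U : Fin t → Type} [∀ l, Fintype (U l)] {J : Type} [Fintype J] [LinearOrder J]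

/-- the part of the diagonal which depends on the system -/
def tau (N : ∀ l, U l ⊕ J → U l ⊕ J → ZMod 2) (b : ∀ l, U l ⊕ J → ZMod 2) (l : Fin t) (j : J) :
    ZMod 2 := b l (Sum.inr j) + ∑ v, N l (Sum.inr j) (Sum.inl v)

/-- the hypotheses: `J1` are the large split indices, `PJ` the large columns -/
structure Gh (J1 PJ : Finset J) (Sp Pc : ∀ l, Finset (U l ⊕ J))
    (N : ∀ l, U l ⊕ J → U l ⊕ J → ZMod 2) (b : ∀ l, U l ⊕ J → ZMod 2) (NJ : J → J → ZMod 2)
    {ρ : Type} (x : Fin t → ρ → ZMod 2) (JR : ρ → Finset J) (Q e : ℕ) : Prop where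
  sp : ∀ l k, Sum.inr k ∈ Sp l ↔ k ∈ J1
  pc : ∀ l k, Sum.inr k ∈ Pc l ↔ k ∈ PJ
  nj : ∀ l k k', N l (Sum.inr k) (Sum.inr k') = NJ k k'
  nd : ∀ l (w : U l → ZMod 2), (∃ v, w v ≠ 0) → ∃ k ∈ PJ, ∑ v, w v * N l (Sum.inl v) (Sum.inr k) ≠ 0
  ine : ∃ o, o ∉ J1 ∧ o ∉ PJ
  cl : ∀ r, ∀ j ∈ JR r, j ∈ J1 ∧ j ∈ PJ ∧ ∀ l l', tau N b l j + x l r = tau N b l' j + x l' r
  sep : ∀ l l' : Fin t, l ≠ l' → ∃ r, x l r ≠ x l' r
  Q : ∀ r, Q ≤ (JR r).card
  e : J1.card + t ≤ PJ.card + e

variable {J1 PJ : Finset J} {Sp Pc : ∀ l, Finset (U l ⊕ J)}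
  {N : ∀ l, U l ⊕ J → U l ⊕ J → ZMod 2} {b : ∀ l, U l ⊕ J → ZMod 2} {NJ : J → J → ZMod 2}
  {ρ : Type} {x : Fin t → ρ → ZMod 2} {JR : ρ → Finset J} {Q e : ℕ}

/-- the family of vectors with given values -/
def mkv (su : ∀ l, U l → ZMod 2) (v : J → Fin t → ZMod 2) (l : Fin t) : U l ⊕ J → ZMod 2 :=
  Sum.elim (su l) fun k => v k l

/-- the contribution of the small part -/
def aa (N : ∀ l, U l ⊕ J → U l ⊕ J → ZMod 2) (su : ∀ l, U l → ZMod 2) (j : J) : Fin t → ZMod 2 :=
  fun l => ∑ u, su l u * N l (Sum.inl u) (Sum.inr j)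

/-- the constant term of the equation at `j` -/
def cc (N : ∀ l, U l ⊕ J → U l ⊕ J → ZMod 2) (b : ∀ l, U l ⊕ J → ZMod 2) (NJ : J → J → ZMod 2)
    (su : ∀ l, U l → ZMod 2) (v : J → Fin t → ZMod 2) (j : J) : Fin t → ZMod 2 :=
  (fun l => aa N su j l + tau N b l j * v j l) + (∑ k, NJ k j • v k) + (∑ k, NJ j k) • v j

/-- the equation at a large index -/
theorem eq_at (H : Gh J1 PJ Sp Pc N b NJ x JR Q e) (su : ∀ l, U l → ZMod 2)
    (v : J → Fin t → ZMod 2) (σ : ps J → ZMod 2) (l : Fin t) (j : J) :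
    Ph (pt (N l) (Pool.Agent.N916.GB.sx σ)) (b l) (mkv su v l) (Sum.inr j) =
      (cc N b NJ su v j + ∑ k, Pool.Agent.N916.GB.sx σ k j • (v k + v j)) l := by
  rw [Ph_inr]
  have h1 : Ph (N l) (b l) (mkv su v l) (Sum.inr j) = cc N b NJ su v j l := by
    unfold Ph TT cc aa tau
    rw [Fintype.sum_sum_type, Fintype.sum_sum_type]
    have e1 : ∀ u, mkv su v l (Sum.inl u) = su l u := fun _ => rfl
    have e2 : ∀ k, mkv su v l (Sum.inr k) = v k l := fun _ => rfl
    simp only [e1, e2, H.nj]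
    simp only [Pi.add_apply, Finset.sum_apply, Pi.smul_apply, smul_eq_mul]
    have e3 : ∑ k, v k l * NJ k j = ∑ k, NJ k j * v k l := sum_congr rfl fun k _ => mul_comm _ _
    rw [e3]
    ring
  rw [h1]
  simp only [Pi.add_apply, Finset.sum_apply, Pi.smul_apply, smul_eq_mul, Pi.add_apply, mul_add,
    sum_add_distrib]
  have e2 : ∀ k, mkv su v l (Sum.inr k) = v k l := fun _ => rfl
  simp only [e2]
  have e3 : ∑ k, v k l * Pool.Agent.N916.GB.sx σ k j =
      ∑ k, Pool.Agent.N916.GB.sx σ k j * v k l := sum_congr rfl fun k _ => mul_comm _ _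
  have e4 : (∑ k, Pool.Agent.N916.GB.sx σ j k) * v j l =
      ∑ k, Pool.Agent.N916.GB.sx σ k j * v j l := by
    rw [sum_mul]
    exact sum_congr rfl fun k _ => by rw [gsx_symm]
  rw [e3, e4, add_assoc]

/-- the completions which solve the equations -/
noncomputable def Sol (PJ : Finset J) (N : ∀ l, U l ⊕ J → U l ⊕ J → ZMod 2)
    (b : ∀ l, U l ⊕ J → ZMod 2) (NJ : J → J → ZMod 2) (su : ∀ l, U l → ZMod 2)
    (v : J → Fin t → ZMod 2) : Finset (ps J → ZMod 2) :=
  univ.filter fun σ => ∀ j ∈ PJ,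
    cc N b NJ su v j + ∑ k, Pool.Agent.N916.GB.sx σ k j • (v k + v j) = 0

/-- the size of the space of values -/
noncomputable def rk {t : ℕ} (R : Submodule (ZMod 2) (Fin t → ZMod 2)) : ℕ :=
  (univ.filter fun y : Fin t → ZMod 2 => y ∈ R).card

theorem rk_pos {t : ℕ} (R : Submodule (ZMod 2) (Fin t → ZMod 2)) : 0 < rk R := by
  unfold rk
  exact card_pos.2 ⟨0, mem_filter.2 ⟨mem_univ _, R.zero_mem⟩⟩

theorem rk_le {t : ℕ} (R : Submodule (ZMod 2) (Fin t → ZMod 2)) : rk R ≤ 2 ^ t := by
  unfold rk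
  refine (card_filter_le _ _).trans (le_of_eq ?_)
  rw [card_univ, Fintype.card_fun, ZMod.card, Fintype.card_fin]

theorem vadd_self {t : ℕ} (v : Fin t → ZMod 2) : v + v = 0 := by
  funext l
  exact z2_add (v l)

/-- **the number of the solutions** -/
theorem sol_card (hine : ∃ o, o ∉ J1 ∧ o ∉ PJ) (su : ∀ l, U l → ZMod 2)
    {v : J → Fin t → ZMod 2} (h0 : ∀ k, k ∉ J1 → v k = 0) :
    (Sol PJ N b NJ su v).card * rk (Submodule.span (ZMod 2) (Set.range v)) ^ PJ.card ≤
      2 ^ (ps J).card * rk (Submodule.span (ZMod 2) (Set.range v)) ^ t := by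
  obtain ⟨o, ho1, ho2⟩ := hine
  have : Nonempty J := ⟨o⟩
  set R := Submodule.span (ZMod 2) (Set.range v) with hR
  have hvR : ∀ k, v k ∈ R := fun k => Submodule.subset_span (Set.mem_range_self k)
  rcases (Sol PJ N b NJ su v).eq_empty_or_nonempty with hemp | ⟨σ₀, hσ₀⟩
  · rw [hemp, card_empty, zero_mul]
    exact Nat.zero_le _
  obtain ⟨K, hK, hKs⟩ := few_span v
  set P' := PJ \ K with hP'
  -- the homomorphism
  set f : (ps J → ZMod 2) →+ ({j // j ∈ P'} → R) :=
    { toFun := fun σ j => ⟨∑ k, Pool.Agent.N916.GB.sx σ k j.1 • (v k + v j.1),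
        R.sum_mem fun k _ => R.smul_mem _ (R.add_mem (hvR k) (hvR j.1))⟩
      map_zero' := by
        funext j
        apply Subtype.ext
        show ∑ k, Pool.Agent.N916.GB.sx (0 : ps J → ZMod 2) k j.1 • (v k + v j.1) = 0
        refine sum_eq_zero fun k _ => ?_
        have : Pool.Agent.N916.GB.sx (0 : ps J → ZMod 2) k j.1 = 0 := by
          unfold Pool.Agent.N916.GB.sx
          split_ifs <;> rfl
        rw [this, zero_smul]
      map_add' := fun σ τ => by
        funext j
        apply Subtype.ext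
        show ∑ k, Pool.Agent.N916.GB.sx (σ + τ) k j.1 • (v k + v j.1) =
          ∑ k, Pool.Agent.N916.GB.sx σ k j.1 • (v k + v j.1) +
          ∑ k, Pool.Agent.N916.GB.sx τ k j.1 • (v k + v j.1)
        rw [← sum_add_distrib]
        exact sum_congr rfl fun k _ => by rw [gsx_add, add_smul] } with hf
  have hfv : ∀ σ (j : {j // j ∈ P'}), ((f σ j : R) : Fin t → ZMod 2) =
      ∑ k, Pool.Agent.N916.GB.sx σ k j.1 • (v k + v j.1) := fun _ _ => rfl
  have hsurj : Function.Surjective f := by
    intro w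
    have hw : ∀ j : {j // j ∈ P'}, ∃ g : J → ZMod 2, (∀ k, k ∉ K → g k = 0) ∧
        ∑ k, g k • v k = (w j : Fin t → ZMod 2) := fun j => hKs _ (w j).2
    choose g hg1 hg2 using hw
    set G : J → J → ZMod 2 := fun j k => if h : j ∈ P' then
      g ⟨j, h⟩ k + (if k = o then ∑ k', g ⟨j, h⟩ k' else 0) else 0 with hG
    set D : J → J → ZMod 2 := fun k j => G j k + G k j with hD
    refine ⟨fun e => D e.1.1 e.1.2, ?_⟩
    funext j
    apply Subtype.ext
    rw [hfv]
    have hjP : j.1 ∈ P' := j.2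
    have hjK : j.1 ∉ K := (mem_sdiff.1 hjP).2
    have hjo : j.1 ≠ o := fun h => ho2 (h ▸ (mem_sdiff.1 hjP).1)
    have h1 : ∀ k, Pool.Agent.N916.GB.sx (fun e : ps J => D e.1.1 e.1.2) k j.1 • (v k + v j.1) =
        G j.1 k • (v k + v j.1) := by
      intro k
      by_cases hk : k = j.1
      · rw [hk, vadd_self, smul_zero, smul_zero]
      · rw [gsx_of D (fun a c => by rw [hD]; exact add_comm _ _) hk]
        have h2 : G k j.1 = 0 := by
          rw [hG]
          simp only
          split_ifs with h3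
          · rw [hg1 _ _ hjK, add_zero]
          · rfl
        show (G j.1 k + G k j.1) • _ = _
        rw [h2, add_zero]
    rw [sum_congr rfl fun k _ => h1 k]
    have h2 : ∀ k, G j.1 k = g j k + (if k = o then ∑ k', g j k' else 0) := by
      intro k
      rw [hG]
      exact dif_pos hjP
    have h3 : ∀ k, G j.1 k • (v k + v j.1) = g j k • v k + g j k • v j.1 +
        (if k = o then (∑ k', g j k') • (v o + v j.1) else 0) := by
      intro k
      rw [h2, add_smul, smul_add]
      congr 1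
      split_ifs with h4
      · rw [h4]
      · rw [zero_smul]
    rw [sum_congr rfl fun k _ => h3 k, sum_add_distrib, sum_add_distrib, sum_ite_eq' univ o,
      if_pos (mem_univ _), hg2, ← sum_smul, h0 o ho1, zero_add, add_assoc, vadd_self, add_zero]
  have h1 := fib_card f hsurj (f σ₀)
  have hcardR : Fintype.card R = rk R := by
    unfold rk
    exact Fintype.card_subtype _
  rw [Fintype.card_fun, hcardR, Fintype.card_coe, Fintype.card_fun, ZMod.card, Fintype.card_coe] at h1
  have h1' : (univ.filter fun σ => f σ = f σ₀).card * rk R ^ P'.card = 2 ^ (ps J).card := by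
    convert h1
  have hsub : Sol PJ N b NJ su v ⊆ univ.filter fun σ => f σ = f σ₀ := by
    intro σ hσ
    unfold Sol at hσ hσ₀
    rw [mem_filter] at hσ hσ₀ ⊢
    refine ⟨mem_univ _, ?_⟩
    funext j
    apply Subtype.ext
    rw [hfv, hfv]
    have h2 := hσ.2 j.1 (mem_sdiff.1 j.2).1
    have h3 := hσ₀.2 j.1 (mem_sdiff.1 j.2).1
    exact add_left_cancel (h2.trans h3.symm)
  have hPJ : PJ.card ≤ P'.card + t := by
    have h2 := card_le_card_sdiff_add_card (s := PJ) (t := K)
    rw [hP']
    omega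
  have hpos := rk_pos R
  calc (Sol PJ N b NJ su v).card * rk R ^ PJ.card
      ≤ (univ.filter fun σ => f σ = f σ₀).card * rk R ^ (P'.card + t) :=
        Nat.mul_le_mul (card_le_card hsub) (Nat.pow_le_pow_right hpos hPJ)
    _ = ((univ.filter fun σ => f σ = f σ₀).card * rk R ^ P'.card) * rk R ^ t := by
        rw [pow_add]; ring
    _ = 2 ^ (ps J).card * rk R ^ t := congrArg (· * rk R ^ t) h1'

/-- the values which occur with the space `R` -/
noncomputable def TR (J1 PJ : Finset J) (N : ∀ l, U l ⊕ J → U l ⊕ J → ZMod 2)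
    (b : ∀ l, U l ⊕ J → ZMod 2) (R : Submodule (ZMod 2) (Fin t → ZMod 2))
    (su : ∀ l, U l → ZMod 2) : Finset (J → Fin t → ZMod 2) :=
  univ.filter fun v => (∀ k, k ∉ J1 → v k = 0) ∧ (∀ k, v k ∈ R) ∧
    ∀ j ∈ PJ, (fun l => aa N su j l + tau N b l j * v j l) ∈ R

/-- the number of the values which occur -/
theorem tr_card (H : Gh J1 PJ Sp Pc N b NJ x JR Q e) {R : Submodule (ZMod 2) (Fin t → ZMod 2)}
    (hR : R ≠ ⊥) (hH : ∀ y ∈ R, ∑ l, y l = 0) (su : ∀ l, U l → ZMod 2) :
    (TR J1 PJ N b R su).card * 2 ^ Q ≤ rk R ^ J1.card := by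
  obtain ⟨r, y, hy, hn⟩ := stable_bot H.sep hR hH
  set A : J → Finset (Fin t → ZMod 2) := fun k => if k ∈ J1 then
    (if k ∈ JR r then univ.filter (fun v => v ∈ R ∧ (fun l => aa N su k l + x l r * v l) ∈ R)
      else univ.filter fun v => v ∈ R) else {0} with hA
  have ht0 : ∀ j ∈ JR r, ∃ c : ZMod 2, ∀ l, tau N b l j = x l r + c := by
    intro j hj
    by_cases h : Nonempty (Fin t)
    · obtain ⟨l₀⟩ := h
      refine ⟨tau N b l₀ j + x l₀ r, fun l => ?_⟩
      have h1 := (H.cl r j hj).2.2 l l₀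
      have : ∀ a b c d : ZMod 2, a + b = c + d → a = b + (c + d) := by decide
      exact this _ _ _ _ h1
    · exact ⟨0, fun l => absurd ⟨l⟩ h⟩
  have hsub : TR J1 PJ N b R su ⊆ Fintype.piFinset A := by
    intro v hv
    unfold TR at hv
    rw [mem_filter] at hv
    obtain ⟨-, h1, h2, h3⟩ := hv
    rw [Fintype.mem_piFinset]
    intro k
    rw [hA]
    simp only
    split_ifs with hk hk2
    · rw [mem_filter]
      refine ⟨mem_univ _, h2 k, ?_⟩
      obtain ⟨c, hc⟩ := ht0 k hk2
      have h4 := R.add_mem (h3 k (H.cl r k hk2).2.1) (R.smul_mem c (h2 k))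
      have h5 : (fun l => aa N su k l + tau N b l k * v k l) + c • v k =
          fun l => aa N su k l + x l r * v k l := by
        funext l
        simp only [Pi.add_apply, Pi.smul_apply, smul_eq_mul, hc l]
        have : ∀ a p q w : ZMod 2, a + (p + q) * w + q * w = a + p * w := by decide
        exact this _ _ _ _
      rwa [h5] at h4
    · rw [mem_filter]
      exact ⟨mem_univ _, h2 k⟩
    · rw [mem_singleton]
      exact h1 k hk
  have hJRsub : JR r ⊆ J1 := fun j hj => (H.cl r j hj).1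
  have hcardA : ∀ k, (A k).card * (if k ∈ JR r then 2 else 1) ≤ if k ∈ J1 then rk R else 1 := by
    intro k
    rw [hA]
    simp only
    by_cases hk : k ∈ J1
    · rw [if_pos hk, if_pos hk]
      by_cases hk2 : k ∈ JR r
      · rw [if_pos hk2, if_pos hk2, mul_comm]
        exact half hy hn _
      · rw [if_neg hk2, if_neg hk2, mul_one]
        exact le_rfl
    · have hk2 : k ∉ JR r := fun h => hk (hJRsub h)
      rw [if_neg hk, if_neg hk2, if_neg hk, card_singleton, mul_one]
  have h1 : (Fintype.piFinset A).card * 2 ^ (JR r).card ≤ rk R ^ J1.card := by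
    rw [Fintype.card_piFinset]
    have e1 : 2 ^ (JR r).card = ∏ k : J, if k ∈ JR r then 2 else 1 := by
      rw [← prod_filter, filter_mem_eq_inter, univ_inter, prod_const]
    have e2 : rk R ^ J1.card = ∏ k : J, if k ∈ J1 then rk R else 1 := by
      rw [← prod_filter, filter_mem_eq_inter, univ_inter, prod_const]
    rw [e1, e2, ← prod_mul_distrib]
    exact prod_le_prod' fun k _ => hcardA k
  calc (TR J1 PJ N b R su).card * 2 ^ Q
      ≤ (Fintype.piFinset A).card * 2 ^ (JR r).card :=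
        Nat.mul_le_mul (card_le_card hsub) (Nat.pow_le_pow_right (by norm_num) (H.Q r))
    _ ≤ _ := h1

/-- the number of the subspaces -/
noncomputable def Kg (t : ℕ) : ℕ := Nat.card (Submodule (ZMod 2) (Fin t → ZMod 2))

/-- **few completions are not in general position** -/
theorem card_GP (H : Gh J1 PJ Sp Pc N b NJ x JR Q e) :
    (univ.filter fun σ : ps J → ZMod 2 =>
      ¬ GP J1 Sp Pc (fun l => pt (N l) (Pool.Agent.N916.GB.sx σ)) b).card * 2 ^ Q ≤
      2 ^ (ps J).card * (2 ^ (∑ l, Fintype.card (U l)) * (Kg t * 2 ^ (t * e))) := by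
  have : Finite (Submodule (ZMod 2) (Fin t → ZMod 2)) :=
    Finite.of_injective (fun R : Submodule (ZMod 2) (Fin t → ZMod 2) => (R : Set (Fin t → ZMod 2)))
      SetLike.coe_injective
  haveI : Fintype (Submodule (ZMod 2) (Fin t → ZMod 2)) := Fintype.ofFinite _
  set B := univ.filter fun σ : ps J → ZMod 2 =>
      ¬ GP J1 Sp Pc (fun l => pt (N l) (Pool.Agent.N916.GB.sx σ)) b with hB
  set RR := univ.filter fun R : Submodule (ZMod 2) (Fin t → ZMod 2) =>
    R ≠ ⊥ ∧ ∀ y ∈ R, ∑ l, y l = 0 with hRR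
  -- the cover
  have hcov : B ⊆ RR.biUnion fun R => (univ : Finset (∀ l, U l → ZMod 2)).biUnion fun su =>
      ((TR J1 PJ N b R su).filter fun v => Submodule.span (ZMod 2) (Set.range v) = R).biUnion
        fun v => Sol PJ N b NJ su v := by
    intro σ hσ
    rw [hB, mem_filter] at hσ
    obtain ⟨-, hσ⟩ := hσ
    unfold GP at hσ
    push Not at hσ
    obtain ⟨s, hs, hsum, l₀, j₀, hne⟩ := hσ
    set su : ∀ l, U l → ZMod 2 := fun l u => s l (Sum.inl u) with hsu
    set v : J → Fin t → ZMod 2 := fun k l => s l (Sum.inr k) with hv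
    have hmk : ∀ l, mkv su v l = s l := by
      intro l
      funext i
      rcases i with u | k <;> rfl
    have h0 : ∀ k, k ∉ J1 → v k = 0 := by
      intro k hk
      funext l
      exact (hs l).1 (Sum.inr k) fun h => hk ((H.sp l k).1 h)
    have hH0 : ∀ k, ∑ l, v k l = 0 := by
      intro k
      by_cases hk : k ∈ J1
      · exact hsum k hk
      · rw [h0 k hk]
        simp
    have heq : ∀ j ∈ PJ, cc N b NJ su v j +
        ∑ k, Pool.Agent.N916.GB.sx σ k j • (v k + v j) = 0 := by
      intro j hj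
      funext l
      rw [← eq_at H su v σ l j, hmk]
      exact (hs l).2 (Sum.inr j) ((H.pc l j).2 hj)
    set R := Submodule.span (ZMod 2) (Set.range v) with hR
    have hvR : ∀ k, v k ∈ R := fun k => Submodule.subset_span (Set.mem_range_self k)
    have hRH : ∀ y ∈ R, ∑ l, y l = 0 := by
      intro y hy
      refine Submodule.span_induction (p := fun y _ => ∑ l, y l = 0) ?_ ?_ ?_ ?_ hy
      · rintro _ ⟨k, rfl⟩
        exact hH0 k
      · simp
      · intro y z _ _ h1 h2
        simp only [Pi.add_apply, sum_add_distrib, h1, h2, add_zero]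
      · intro c y _ h1
        simp only [Pi.smul_apply, smul_eq_mul, ← mul_sum, h1, mul_zero]
    have hRne : R ≠ ⊥ := by
      intro h
      have hv0 : ∀ k, v k = 0 := by
        intro k
        have := hvR k
        rw [h] at this
        exact (Submodule.mem_bot _).1 this
      -- the small part
      have hw : ∃ u, su l₀ u ≠ 0 := by
        rcases j₀ with u | k
        · exact ⟨u, hne⟩
        · exact absurd (congrFun (hv0 k) l₀) hne
      obtain ⟨k, hk, hk2⟩ := H.nd l₀ (su l₀) hw
      apply hk2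
      have h1 := heq k hk
      have h2 := congrFun h1 l₀
      unfold cc aa at h2
      simp only [hv0, Pi.add_apply, Finset.sum_apply, Pi.smul_apply, Pi.zero_apply, smul_eq_mul,
        mul_zero, add_zero, sum_const_zero] at h2
      exact h2
    rw [mem_biUnion]
    refine ⟨R, mem_filter.2 ⟨mem_univ _, hRne, hRH⟩, ?_⟩
    rw [mem_biUnion]
    refine ⟨su, mem_univ _, ?_⟩
    rw [mem_biUnion]
    refine ⟨v, ?_, ?_⟩
    · rw [mem_filter]
      refine ⟨?_, rfl⟩
      unfold TR
      rw [mem_filter]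
      refine ⟨mem_univ _, h0, hvR, fun j hj => ?_⟩
      have h1 := heq j hj
      have h2 : (fun l => aa N su j l + tau N b l j * v j l) =
          (∑ k, NJ k j • v k) + (∑ k, NJ j k) • v j +
            ∑ k, Pool.Agent.N916.GB.sx σ k j • (v k + v j) := by
        funext l
        have h3 := congrFun h1 l
        unfold cc at h3
        simp only [Pi.add_apply, Pi.zero_apply] at h3
        simp only [Pi.add_apply]
        have : ∀ a p q w : ZMod 2, a + p + q + w = 0 → a = p + q + w := by decide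
        exact this _ _ _ _ h3
      rw [h2]
      refine R.add_mem (R.add_mem (R.sum_mem fun k _ => R.smul_mem _ (hvR k))
        (R.smul_mem _ (hvR j))) (R.sum_mem fun k _ => R.smul_mem _ (R.add_mem (hvR k) (hvR j)))
    · unfold Sol
      rw [mem_filter]
      exact ⟨mem_univ _, heq⟩
  -- the count for a space
  have hone : ∀ R ∈ RR, ((univ : Finset (∀ l, U l → ZMod 2)).biUnion fun su =>
      ((TR J1 PJ N b R su).filter fun v => Submodule.span (ZMod 2) (Set.range v) = R).biUnion
        fun v => Sol PJ N b NJ su v).card * 2 ^ Q ≤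
      2 ^ (ps J).card * (2 ^ (∑ l, Fintype.card (U l)) * 2 ^ (t * e)) := by
    intro R hR
    rw [hRR, mem_filter] at hR
    obtain ⟨-, hRne, hRH⟩ := hR
    have hpos := rk_pos R
    have h1 : ∀ su : ∀ l, U l → ZMod 2,
        (((TR J1 PJ N b R su).filter fun v => Submodule.span (ZMod 2) (Set.range v) = R).biUnion
        fun v => Sol PJ N b NJ su v).card * 2 ^ Q ≤ 2 ^ (ps J).card * 2 ^ (t * e) := by
      intro su
      set T' := (TR J1 PJ N b R su).filter fun v => Submodule.span (ZMod 2) (Set.range v) = R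
        with hT'
      have h2 : ∀ v ∈ T', (Sol PJ N b NJ su v).card * rk R ^ PJ.card ≤
          2 ^ (ps J).card * rk R ^ t := by
        intro v hv
        rw [hT', mem_filter] at hv
        obtain ⟨hv1, hv2⟩ := hv
        unfold TR at hv1
        rw [mem_filter] at hv1
        have h3 := sol_card (PJ := PJ) (N := N) (b := b) (NJ := NJ) H.ine su hv1.2.1
        rwa [hv2] at h3
      have h3 : (T'.biUnion fun v => Sol PJ N b NJ su v).card * rk R ^ PJ.card ≤
          T'.card * (2 ^ (ps J).card * rk R ^ t) := by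
        refine (Nat.mul_le_mul_right _ card_biUnion_le).trans ?_
        rw [sum_mul]
        refine (sum_le_sum h2).trans (le_of_eq ?_)
        rw [sum_const, smul_eq_mul]
      have h4 : T'.card * 2 ^ Q ≤ rk R ^ J1.card :=
        (Nat.mul_le_mul_right _ (card_le_card (filter_subset _ _))).trans (tr_card H hRne hRH su)
      have h5 : (T'.biUnion fun v => Sol PJ N b NJ su v).card * 2 ^ Q * rk R ^ PJ.card ≤
          2 ^ (ps J).card * 2 ^ (t * e) * rk R ^ PJ.card := by
        calc (T'.biUnion fun v => Sol PJ N b NJ su v).card * 2 ^ Q * rk R ^ PJ.card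
            = ((T'.biUnion fun v => Sol PJ N b NJ su v).card * rk R ^ PJ.card) * 2 ^ Q := by ring
          _ ≤ (T'.card * (2 ^ (ps J).card * rk R ^ t)) * 2 ^ Q := Nat.mul_le_mul_right _ h3
          _ = (T'.card * 2 ^ Q) * (2 ^ (ps J).card * rk R ^ t) := by ring
          _ ≤ rk R ^ J1.card * (2 ^ (ps J).card * rk R ^ t) := Nat.mul_le_mul_right _ h4
          _ = 2 ^ (ps J).card * rk R ^ (J1.card + t) := by rw [pow_add]; ring
          _ ≤ 2 ^ (ps J).card * rk R ^ (PJ.card + e) :=
            Nat.mul_le_mul_left _ (Nat.pow_le_pow_right hpos H.e)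
          _ = 2 ^ (ps J).card * rk R ^ e * rk R ^ PJ.card := by rw [pow_add]; ring
          _ ≤ 2 ^ (ps J).card * 2 ^ (t * e) * rk R ^ PJ.card := by
            refine Nat.mul_le_mul_right _ (Nat.mul_le_mul_left _ ?_)
            rw [pow_mul]
            exact Nat.pow_le_pow_left (rk_le R) e
      exact Nat.le_of_mul_le_mul_right h5 (by positivity)
    refine (Nat.mul_le_mul_right _ card_biUnion_le).trans ?_
    rw [sum_mul]
    refine (sum_le_sum fun su _ => h1 su).trans (le_of_eq ?_)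
    rw [sum_const, smul_eq_mul, card_univ, Fintype.card_pi]
    have h6 : ∏ l, Fintype.card (U l → ZMod 2) = 2 ^ (∑ l, Fintype.card (U l)) := by
      rw [← prod_pow_eq_pow_sum]
      exact prod_congr rfl fun l _ => by rw [Fintype.card_fun, ZMod.card]
    rw [h6]
    ring
  refine (Nat.mul_le_mul_right _ ((card_le_card hcov).trans card_biUnion_le)).trans ?_
  rw [sum_mul]
  refine (sum_le_sum hone).trans ?_
  rw [sum_const, smul_eq_mul]
  have h7 : RR.card ≤ Kg t := by
    unfold Kg
    rw [Nat.card_eq_fintype_card]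
    exact card_le_univ _
  calc RR.card * (2 ^ (ps J).card * (2 ^ (∑ l, Fintype.card (U l)) * 2 ^ (t * e)))
      ≤ Kg t * (2 ^ (ps J).card * (2 ^ (∑ l, Fintype.card (U l)) * 2 ^ (t * e))) :=
        Nat.mul_le_mul_right _ h7
    _ = _ := by ring

end

end Pool.Agent.L0h2.P
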