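import Pool.Agent.L0h2.P.LA2
import Pool.Agent.L0h2.P.GP
import Pool.Agent.L0h2.P.Stm
import Pool.Agent.L0h74.EV.BX

/-!
# Project P: the count in a box, preparations
-/

set_option autoImplicit false
set_option linter.unusedSectionVars false
set_option linter.unusedVariables false
set_option maxHeartbeats 4000000

open scoped Classical

namespace Pool.Agent.L0h2.P

open Finset
open Pool.Agent.Y703.CQ (nr sg c2 S_C2)
open Pool.Agent.N973.ND (Pr m7 uu ty kd Gv RecA SA Hyp Wk pt TT Ph Zk bf S_ALT)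
open Pool.Agent.N916.GB (HB)
open Pool.Agent.N958.GB (sgm)
open Pool.Agent.L0h1.KD (ty_cases Gv_congr' E1_congr Zk_congr E1 am am_le am_nonneg card_E1 xe hat
  JK LC JL_dis)
open Pool.Agent.L0h74.EV (Dt tyO m7O uO nO bO eO GdO PrO tyO_cases Lb lb LN rr rr_inj rr_im NN EE
  SSp PPc GdO_iff GRO_eq TP MM Kc hyp hat_TP two_tuples NN_hat EE_hat SSp_eq PPc_eq mem_SSp)

section
variable {t : ℕ} {U : Fin t → Type} [∀ l, Fintype (U l)] {J : Type} [Fintype J] [LinearOrder J]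
  {Sp Pc : ∀ l, Finset (U l ⊕ J)} {Jk : Finset J}
  {N N' E E' : ∀ l, U l ⊕ J → U l ⊕ J → ZMod 2} {b : ∀ l, U l ⊕ J → ZMod 2} {m : Fin t → ℕ}
  {pat : Fin t → Bool}

theorem G0_congr (hN : ∀ l, ∀ i ∈ Sp l, ∀ j, N l i j = N' l i j) :
    G0 Jk Sp Pc N b ↔ G0 Jk Sp Pc N' b := by
  unfold G0 GP
  refine and_congr ?_ ?_
  · refine forall_congr' fun l => ?_
    unfold E1
    refine forall_congr' fun x => ?_
    rw [E1_congr (hN l) (fun _ _ => rfl)]
  · refine forall_congr' fun x => imp_congr ?_ Iff.rfl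
    refine forall_congr' fun l => ?_
    rw [Zk_congr (hN l) (fun _ _ => rfl)]

theorem ffj_congr (hN : ∀ l, ∀ i ∈ Sp l, ∀ j, N l i j = N' l i j)
    (hE : ∀ l, ∀ i ∈ Sp l, ∀ j ∈ Sp l, E l i j = E' l i j) :
    ffj Jk Sp Pc E b m pat N = ffj Jk Sp Pc E' b m pat N' := by
  have h1 : Pat pat Sp Pc N E b ↔ Pat pat Sp Pc N' E' b := by
    unfold Pat
    refine forall_congr' fun l => ?_
    rw [Gv_congr' (hN l) (fun _ _ => rfl) (hE l)]
  have h2 : G0 Jk Sp Pc N b ↔ G0 Jk Sp Pc N' b := G0_congr hN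
  unfold ffj
  simp only [h1, h2]

end

/-- the difference of two products -/
theorem prod_diff {α : Type} (S : Finset α) (f g : α → ℝ) (hf0 : ∀ i, 0 ≤ f i) (hf : ∀ i, f i ≤ 1)
    (hg0 : ∀ i, 0 ≤ g i) (hg : ∀ i, g i ≤ 1) :
    |∏ i ∈ S, f i - ∏ i ∈ S, g i| ≤ ∑ i ∈ S, |f i - g i| := by
  induction S using Finset.induction_on with
  | empty => simp
  | insert a S ha ih =>
    rw [prod_insert ha, prod_insert ha, sum_insert ha]
    have e : f a * ∏ i ∈ S, f i - g a * ∏ i ∈ S, g i =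
        (f a - g a) * ∏ i ∈ S, f i + g a * (∏ i ∈ S, f i - ∏ i ∈ S, g i) := by ring
    rw [e]
    refine (abs_add_le _ _).trans (add_le_add ?_ ?_)
    · rw [abs_mul]
      have h1 : |∏ i ∈ S, f i| ≤ 1 := by
        rw [abs_of_nonneg (prod_nonneg fun i _ => hf0 i)]
        exact prod_le_one (fun i _ => hf0 i) fun i _ => hf i
      exact mul_le_of_le_one_right (abs_nonneg _) h1
    · rw [abs_mul, abs_of_nonneg (hg0 a)]
      exact (mul_le_of_le_one_left (abs_nonneg _) (hg a)).trans ih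

theorem amp_amc (hC2 : S_C2) {t V : ℕ} {m : Fin t → ℕ} (hV : ∀ l, V ≤ m l) (pat : Fin t → Bool) :
    |amp pat m - amc pat| ≤ t * (1 / 2 : ℝ) ^ V := by
  obtain ⟨h1, h2, h3, -⟩ := hC2
  have h4 : ∀ l, |(if pat l = true then am (m l) else 1 - am (m l)) -
      (if pat l = true then c2 else 1 - c2)| ≤ (1 / 2 : ℝ) ^ V := by
    intro l
    have h5 : |am (m l) - c2| ≤ (1 / 4 : ℝ) ^ m l := h1 (m l)
    have h6 : (1 / 4 : ℝ) ^ m l ≤ (1 / 2 : ℝ) ^ V := by
      calc (1 / 4 : ℝ) ^ m l ≤ (1 / 4 : ℝ) ^ V :=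
            pow_le_pow_of_le_one (by norm_num) (by norm_num) (hV l)
        _ ≤ (1 / 2 : ℝ) ^ V := pow_le_pow_left₀ (by norm_num) (by norm_num) V
    split_ifs
    · exact h5.trans h6
    · have e : (1 - am (m l)) - (1 - c2) = -(am (m l) - c2) := by ring
      rw [e, abs_neg]
      exact h5.trans h6
  unfold amp amc
  refine (prod_diff univ _ _ ?_ ?_ ?_ ?_).trans ?_
  · intro l
    have := am_nonneg (m l)
    have := am_le (m l)
    split_ifs <;> linarith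
  · intro l
    have := am_nonneg (m l)
    have := am_le (m l)
    split_ifs <;> linarith
  · intro l
    split_ifs <;> linarith
  · intro l
    split_ifs <;> linarith
  · refine (sum_le_card_nsmul _ _ _ fun l _ => h4 l).trans (le_of_eq ?_)
    rw [card_univ, Fintype.card_fin, nsmul_eq_mul]

section
variable {t : ℕ} {s : Fin t → Sy} {ι : Type} [Fintype ι] [LinearOrder ι] {S₀ : Finset ℕ}
  {τ : ι → ℕ} {β : ∀ l, ι → Lb (SW (s l) S₀)} {C : ι → Finset ℕ} {p p₀ : ι → ℕ}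

theorem SW_union (s : Sy) (p : ι → ℕ) :
    SW s (S₀ ∪ univ.image p) = SW s S₀ ∪ univ.image fun i => some (p i) := by
  unfold SW
  ext v
  simp only [mem_union, mem_image, mem_univ, true_and]
  constructor
  · rintro (⟨a, h | ⟨i, rfl⟩, rfl⟩ | h)
    · exact Or.inl (Or.inl ⟨a, h, rfl⟩)
    · exact Or.inr ⟨i, rfl⟩
    · exact Or.inl (Or.inr h)
  · rintro ((⟨a, h, rfl⟩ | h) | ⟨i, rfl⟩)
    · exact Or.inl ⟨a, Or.inl h, rfl⟩
    · exact Or.inr h
    · exact Or.inl ⟨p i, Or.inr ⟨i, rfl⟩, rfl⟩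

theorem SW_disj {s : Sy} (hdis : ∀ v ∈ S₀, some v ∉ s.W) : Disjoint (S₀.image some) s.W := by
  rw [Finset.disjoint_left]
  intro v hv hv'
  rw [mem_image] at hv
  obtain ⟨a, ha, rfl⟩ := hv
  exact hdis a ha hv'

theorem sum_SW {M : Type} [AddCommMonoid M] {s : Sy} (hdis : ∀ v ∈ S₀, some v ∉ s.W)
    (f : Option ℕ → M) :
    ∑ v : SW s S₀, f v = ∑ u ∈ S₀, f (some u) + ∑ v ∈ s.W, f v := by
  rw [Finset.sum_coe_sort (SW s S₀) f]
  unfold SW
  rw [sum_union (SW_disj hdis), sum_image fun a _ b _ h => Option.some_injective _ h]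

/-- the sizes -/
theorem card_spW {s : Sy} (ht : s.d.t = 2 ∨ s.d.t = 3) (hdis : ∀ v ∈ S₀, some v ∉ s.W) {m : ℕ}
    (h : kW s + kd S₀ + ((univ.filter fun i => τ i = 3).card : ℤ) -
      ((univ.filter fun i => τ i = 1).card : ℤ) = 2 * m) : Kc s.d.t (SW s S₀) τ m := by
  intro p hτ
  have key : ∀ x : Option ℕ, (if m7O x = 1 then (1 : ℤ) else 0) -
      (if tyO s.d.t x = 2 ∨ tyO s.d.t x = 1 then 1 else 0) =
      (if tyO s.d.t x = 3 then 1 else 0) - (if tyO s.d.t x = 1 then 1 else 0) := by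
    intro x
    rcases tyO_cases ht x with h | h | h | h <;> rw [h.1, h.2.1] <;> simp
  have h1 : ((SSp (rr (SW s S₀) p)).card : ℤ) - ((PPc s.d.t (rr (SW s S₀) p)).card : ℤ) =
      ∑ i : SW s S₀ ⊕ ι, ((if tyO s.d.t (rr (SW s S₀) p i) = 3 then (1 : ℤ) else 0) -
        (if tyO s.d.t (rr (SW s S₀) p i) = 1 then 1 else 0)) := by
    unfold SSp PPc
    rw [card_filter, card_filter]
    push_cast
    rw [← sum_sub_distrib]
    exact sum_congr rfl fun i _ => key _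
  have h3 : ∑ u : SW s S₀, ((if tyO s.d.t (rr (SW s S₀) p (Sum.inl u)) = 3 then (1 : ℤ) else 0) -
        (if tyO s.d.t (rr (SW s S₀) p (Sum.inl u)) = 1 then 1 else 0)) = kd S₀ + kW s := by
    have e1 := sum_SW (M := ℤ) hdis fun v => ((if tyO s.d.t v = 3 then (1 : ℤ) else 0) -
        (if tyO s.d.t v = 1 then 1 else 0))
    refine e1.trans ?_
    unfold kd kW
    rw [card_filter, card_filter, card_filter, card_filter]
    push_cast
    rw [← sum_sub_distrib, ← sum_sub_distrib]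
    rfl
  have h4 : ∑ i : ι, ((if tyO s.d.t (rr (SW s S₀) p (Sum.inr i)) = 3 then (1 : ℤ) else 0) -
        (if tyO s.d.t (rr (SW s S₀) p (Sum.inr i)) = 1 then 1 else 0)) =
        ((univ.filter fun i => τ i = 3).card : ℤ) - ((univ.filter fun i => τ i = 1).card : ℤ) := by
    rw [card_filter, card_filter]
    push_cast
    rw [← sum_sub_distrib]
    refine sum_congr rfl fun i _ => ?_
    have : tyO s.d.t (rr (SW s S₀) p (Sum.inr i)) = τ i := hτ i
    rw [this]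
  rw [Fintype.sum_sum_type, h3, h4] at h1
  omega

/-- the columns of the dual kernel -/
noncomputable def PQ (τ : ι → ℕ) : Finset ι := univ.filter fun i => τ i = 2 ∨ τ i = 1

theorem mem_PPc {d : Dt} {T : Finset (Option ℕ)} {γ : ι → Lb T} (h₀ : TP τ d T γ p₀) (k : ι) :
    Sum.inr k ∈ PPc d.t (rr T p₀) ↔ k ∈ PQ τ := by
  unfold PPc PQ
  rw [mem_filter, mem_filter]
  have h1 : tyO d.t (rr T p₀ (Sum.inr k)) = τ k := h₀.ty k
  rw [h1]
  simp

/-- the hypotheses for the general position -/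
theorem gh {n : ℕ} {x : Fin t → Fin n → ZMod 2} {JR : Fin n → Finset ι} {Q e : ℕ}
    (ht : ∀ l, (s l).d.t = 2 ∨ (s l).d.t = 3) (hdis : ∀ l, ∀ v ∈ S₀, some v ∉ (s l).W)
    (h₀ : ∀ l, TP τ (s l).d (SW (s l) S₀) (β l) p₀) (hβ : ∀ l, LN (SW (s l) S₀) τ (β l))
    (hL : ∃ i, τ i = 0)
    (hJR : ∀ r, ∀ i ∈ JR r, τ i = 2 ∧ ∀ l l', dg (s l) (p₀ i) + x l r = dg (s l') (p₀ i) + x l' r)
    (sep : ∀ l l' : Fin t, l ≠ l' → ∃ r, x l r ≠ x l' r) (hQ : ∀ r, Q ≤ (JR r).card)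
    (he : (JK τ).card + t ≤ (PQ τ).card + e) :
    Gh (JK τ) (PQ τ) (fun l => SSp (rr (SW (s l) S₀) p₀))
      (fun l => PPc (s l).d.t (rr (SW (s l) S₀) p₀)) (fun l => NN (s l).d.t (rr (SW (s l) S₀) p₀))
      (fun l i => bO (s l).d (rr (SW (s l) S₀) p₀ i)) (fun k k' => nr (p₀ k') (p₀ k)) x JR Q e := by
  refine ⟨fun l k => mem_SSp (h₀ l) k, fun l k => mem_PPc (h₀ l) k, fun l k k' => rfl, ?_, ?_, ?_,
    sep, hQ, he⟩
  · intro l w hw
    obtain ⟨i, hi, hi2⟩ := hβ l w hw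
    refine ⟨i, ?_, ?_⟩
    · unfold PQ
      exact mem_filter.2 ⟨mem_univ _, Or.inl hi⟩
    · intro h0
      apply hi2
      refine Eq.trans ?_ h0
      refine sum_congr rfl fun v' _ => ?_
      rw [← (h₀ l).lab i]
      rfl
  · obtain ⟨o, ho⟩ := hL
    refine ⟨o, ?_, ?_⟩
    · unfold JK
      rw [mem_filter]
      omega
    · unfold PQ
      rw [mem_filter]
      omega
  · intro r j hj
    obtain ⟨h1, h2⟩ := hJR r j hj
    refine ⟨?_, ?_, ?_⟩
    · unfold JK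
      exact mem_filter.2 ⟨mem_univ _, Or.inl h1⟩
    · unfold PQ
      exact mem_filter.2 ⟨mem_univ _, Or.inl h1⟩
    · have key : ∀ l, tau (fun l => NN (s l).d.t (rr (SW (s l) S₀) p₀))
          (fun l i => bO (s l).d (rr (SW (s l) S₀) p₀ i)) l j =
          dg (s l) (p₀ j) + ∑ u ∈ S₀, nr u (p₀ j) := by
        intro l
        unfold tau dg
        have e1 : ∑ v, (fun l => NN (s l).d.t (rr (SW (s l) S₀) p₀)) l (Sum.inr j) (Sum.inl v) =
            ∑ u ∈ S₀, nr u (p₀ j) + ∑ v ∈ (s l).W, nO (s l).d.t v (some (p₀ j)) :=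
          sum_SW (M := ZMod 2) (hdis l) fun v => nO (s l).d.t v (some (p₀ j))
        rw [e1]
        show (s l).d.b (p₀ j) + _ = _
        ring
      intro l l'
      rw [key l, key l']
      have h3 := h2 l l'
      have : ∀ a b c d e : ZMod 2, a + b = c + d → a + e + b = c + e + d := by decide
      exact this _ _ _ _ _ h3

/-- the average over the free symbols -/
theorem avg_lej (hALT : S_ALT) {m : Fin t → ℕ} {mm V : ℕ} (hmm : ∀ l, m l ≤ mm)
    (ht : ∀ l, (s l).d.t = 2 ∨ (s l).d.t = 3) (hA : ∀ l, RecA (s l).d.A)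
    (hS₀ : ∀ l, ∀ v ∈ SW (s l) S₀, PrO v)
    (h₀ : ∀ l, TP τ (s l).d (SW (s l) S₀) (β l) p₀) (hβ : ∀ l, LN (SW (s l) S₀) τ (β l))
    (hkd : ∀ l, Kc (s l).d.t (SW (s l) S₀) τ (m l)) (hV : 1 ≤ V)
    (hL : 6 * mm + 3 * V ≤ (univ.filter fun i => τ i = 0).card)
    (hp : ∀ l, TP τ (s l).d (SW (s l) S₀) (β l) p) (pat : Fin t → Bool) :
    |∑ ε : ↥(JK τ ×ˢ LC τ) → ZMod 2, ffj (JK τ) (fun l => SSp (rr (SW (s l) S₀) p₀))
      (fun l => PPc (s l).d.t (rr (SW (s l) S₀) p₀))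
      (fun l => EE (s l).d (rr (SW (s l) S₀) (hat τ p₀ p)))
      (fun l i => bO (s l).d (rr (SW (s l) S₀) p₀ i)) m pat
      (fun l => pt (MM (s l).d.t τ (SW (s l) S₀) (hat τ p₀ p)) (xe ε))| ≤
      t * (1 / 2 : ℝ) ^ V * 2 ^ Fintype.card ↥(JK τ ×ˢ LC τ) := by
  have hL1 : ∃ i, τ i = 0 := by
    have h1 : 0 < (univ.filter fun i => τ i = 0).card := by omega
    obtain ⟨i, hi⟩ := card_pos.1 h1
    exact ⟨i, (mem_filter.1 hi).2⟩
  have hH : ∀ l, Hyp (JK τ) (SSp (rr (SW (s l) S₀) p₀)) (PPc (s l).d.t (rr (SW (s l) S₀) p₀))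
      (fun i => uO (s l).d.t (rr (SW (s l) S₀) (hat τ p₀ p) i))
      (NN (s l).d.t (rr (SW (s l) S₀) (hat τ p₀ p)))
      (EE (s l).d (rr (SW (s l) S₀) (hat τ p₀ p))) (m l) := by
    intro l
    have hh := hat_TP (h₀ l) (hp l)
    have H := hyp (ht l) (hA l) (hS₀ l) hh (hβ l) (hkd l) hL1
    have hty : ∀ i, ty (hat τ p₀ p i) = ty (p₀ i) := fun i => (hh.ty i).trans ((h₀ l).ty i).symm
    rw [SSp_eq hty, PPc_eq hty] at H
    exact H
  have h1 := la2 (Sp := fun l => SSp (rr (SW (s l) S₀) p₀))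
    (Pc := fun l => PPc (s l).d.t (rr (SW (s l) S₀) p₀)) (Jk := JK τ) (Lc := LC τ)
    (N := fun l => MM (s l).d.t τ (SW (s l) S₀) (hat τ p₀ p))
    (E := fun l => EE (s l).d (rr (SW (s l) S₀) (hat τ p₀ p)))
    (b := fun l i => bO (s l).d (rr (SW (s l) S₀) p₀ i)) (m := m) (pat := pat)
    (q := 2 * mm + V) hALT hmm (by
      intro l k hk h
      have hl0 : τ k = 0 := by
        unfold LC at hk
        exact (mem_filter.1 hk).2
      have h2 := (mem_PPc (h₀ l) k).1 h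
      unfold PQ at h2
      have h3 := (mem_filter.1 h2).2
      omega) (fun l => (hH l).es) (fun l => (hH l).e0) (fun l => (hH l).card) (by
      have h2 : (LC τ).card = (univ.filter fun i => τ i = 0).card := rfl
      rw [h2]
      omega)
  refine le_of_mul_le_mul_right (h1.trans (le_of_eq ?_))
    (by positivity : (0 : ℝ) < 2 ^ (2 * mm + V))
  have h3 : (1 / 2 : ℝ) ^ V * 2 ^ V = 1 := by
    rw [← mul_pow]
    norm_num
  rw [pow_add]
  calc (t : ℝ) * 2 ^ (2 * mm) * 2 ^ Fintype.card ↥(JK τ ×ˢ LC τ) =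
      ((1 / 2 : ℝ) ^ V * 2 ^ V) * (t * 2 ^ (2 * mm) * 2 ^ Fintype.card ↥(JK τ ×ˢ LC τ)) := by
        rw [h3, one_mul]
    _ = _ := by ring

end

end Pool.Agent.L0h2.P
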