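import Pool.Agent.L0h2.P.Stm
import Pool.Agent.L0h74.AP.Main
import Pool.Agent.N973.ND.BOX0

/-!
# Project P: the systems of the numbers `h m`, `m` in a class prime to the modulus
-/

set_option autoImplicit false
set_option linter.unusedSectionVars false
set_option linter.unusedVariables false
set_option maxHeartbeats 1000000

open scoped Classical

namespace Pool.Agent.L0h2.P

open Finset Filter
open scoped Topology
open Pool.Agent.Y698 Pool.Agent.Y698.SG
open Pool.Agent.L0h4.TW hiding Dt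
open Pool.Agent.L0h23.KD (Aw bw tr recA)
open Pool.Agent.L0h23.ED (lam lab S_R2 kn kl kb k7 SysE Sys3 NSE NS3)
open Pool.Agent.N973.ND (Pr m7 uu ty RecA Gd GR kd Gd_iff)
open Pool.Agent.L0h74.EV (QPw NSA dtO dtE recA_O ns3_iff nse_iff GdE GdO GRO Dt nO tyO Cl n2 bO eO m7O)
open Pool.Agent.L0h61.EV (r2)
open Pool.Agent.Y703.CQ (c2 nr)
open Pool.Agent.L0h74.AP (Cp)
open Pool.Agent.L0h74.KD.KEY (kd_par)

/-- the good sets of odd primes -/
theorem GdO_some (d : Dt) (S : Finset ℕ) : GdO d (S.image some) ↔ Gd d.A d.b S := by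
  have h1 : GdO d (S.image some) ↔ GRO d fun i : S => some (i : ℕ) := by
    refine Pool.Agent.L0h74.EV.GdO_iff d (r := fun i : S => some (i : ℕ)) ?_ ?_
    · intro i j h
      exact Subtype.ext (Option.some_injective _ h)
    · ext x
      simp only [mem_image, mem_univ, true_and]
      constructor
      · rintro ⟨i, rfl⟩
        exact ⟨i, i.2, rfl⟩
      · rintro ⟨a, ha, rfl⟩
        exact ⟨⟨a, ha⟩, rfl⟩
  rw [h1]
  exact Iff.rfl

section
variable (w : ℕ → RR)

/-- the system of the numbers `1` modulo `4` -/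
noncomputable def sysO (T : Finset ℕ) : Sy where
  d := { t := 2, A := fun p q => lg (sy (w q) (w p)), A2 := fun _ => 0,
         b := fun p => lg (e7 (w p)), b2 := 0 }
  W := T.image some

/-- the system of the numbers `3` modulo `4` -/
noncomputable def sys3 (T : Finset ℕ) (σ : ZMod 2) : Sy where
  d := dtO w (fun p => lam (w p)) σ
  W := insertNone T

/-- the system of the even numbers -/
noncomputable def sysE (T : Finset ℕ) (t : ℕ) : Sy where
  d := dtE w (fun p => lam (w p)) t
  W := insertNone T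

/-- the system of the numbers `h m`, `m ≡ a` -/
noncomputable def sys (h a : ℕ) : Sy :=
  if h % 2 = 1 then
    (if (h * a) % 4 = 1 then sysO w h.primeFactors
      else sys3 w h.primeFactors (if (h * a) % 8 = 3 then 1 else 0))
  else sysE w (h / 2).primeFactors (if (h / 2 * a) % 4 = 3 then 3 else 2)

end

theorem SW_O (w : ℕ → RR) (T S : Finset ℕ) : SW (sysO w T) S = (T ∪ S).image some := by
  unfold SW sysO
  rw [image_union, union_comm]

theorem SW_ins {d : Dt} (T S : Finset ℕ) : SW ⟨d, insertNone T⟩ S = insertNone (T ∪ S) := by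
  unfold SW
  ext x
  rcases x with _ | x
  · simp
  · simp [or_comm]

/-- the prime factors of the product -/
theorem pf_mul {u h m : ℕ} (h0 : h ≠ 0) (hu : ∀ p, p.Prime → p ∣ h → p ∣ u) (hm0 : m ≠ 0)
    (hm : Nat.Coprime m u) : (h * m).primeFactors = h.primeFactors ∪ m.primeFactors ∧
      Disjoint h.primeFactors m.primeFactors := by
  refine ⟨Nat.primeFactors_mul h0 hm0, ?_⟩
  rw [Finset.disjoint_left]
  intro p hp hq
  have h1 := hu p (Nat.prime_of_mem_primeFactors hp) (Nat.dvd_of_mem_primeFactors hp)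
  have h2 := Nat.dvd_gcd (Nat.dvd_of_mem_primeFactors hq) h1
  rw [hm] at h2
  exact (Nat.prime_of_mem_primeFactors hp).one_lt.ne' (Nat.dvd_one.1 h2)

section
variable {Qf Pf : ℕ → Finset ℕ} {w : ℕ → RR} {u a : ℕ}

/-- **The good numbers `h m`.** -/
theorem nsa_sys (h : QPw Qf Pf w) (hc : Cp u a) (h8 : 8 ∣ u) {g m : ℕ} (hg : Squarefree g)
    (h7 : ¬ 7 ∣ g) (hu : ∀ p, p.Prime → p ∣ g → p ∣ u) (hm : Squarefree m) (hma : m % u = a) :
    NSA Qf Pf w (g * m) ↔ GdS (sys w g a) m.primeFactors := by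
  have hcop : Nat.Coprime m u := by
    rw [Nat.coprime_iff_gcd_eq_one, Nat.gcd_comm, Nat.gcd_rec, hma]
    exact hc.cop
  have hm0 : m ≠ 0 := hm.ne_zero
  have hg0 : g ≠ 0 := hg.ne_zero
  have m8 : m % 8 = a % 8 := by rw [← hma, Nat.mod_mod_of_dvd _ h8]
  have mod8 : ∀ n : ℕ, (n * m) % 8 = (n * a) % 8 := by
    intro n
    rw [Nat.mul_mod, m8, ← Nat.mul_mod]
  have mo : m % 2 = 1 := hc.modd hma
  have m7' : ¬ 7 ∣ m := fun h7 => hc.mod7 hma (Nat.mod_eq_zero_of_dvd h7)
  have hpf : ∀ n : ℕ, n ≠ 0 → (∀ p, p.Prime → p ∣ n → p ∣ u) →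
      (n * m).primeFactors = n.primeFactors ∪ m.primeFactors := fun n hn hn2 =>
    (pf_mul hn hn2 hm0 hcop).1
  have hsq : ∀ n : ℕ, Squarefree n → (∀ p, p.Prime → p ∣ n → p ∣ u) → Squarefree (n * m) := by
    intro n hn hn2
    have hcn : Nat.Coprime n m := by
      rw [Nat.coprime_iff_gcd_eq_one]
      by_contra hne
      obtain ⟨p, hp, hd⟩ := Nat.exists_prime_and_dvd hne
      have h1 := Nat.dvd_gcd (hd.trans (Nat.gcd_dvd_right _ _))
        (hn2 p hp (hd.trans (Nat.gcd_dvd_left _ _)))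
      rw [hcop] at h1
      exact hp.one_lt.ne' (Nat.dvd_one.1 h1)
    rw [Nat.squarefree_mul hcn]
    exact ⟨hn, hm⟩
  have h7m : ∀ n : ℕ, ¬ 7 ∣ n → ¬ 7 ∣ n * m := by
    intro n hn h1
    rcases (Nat.Prime.dvd_mul (by norm_num)).1 h1 with h2 | h2
    · exact hn h2
    · exact m7' h2
  unfold sys
  by_cases ho : g % 2 = 1
  · rw [if_pos ho]
    have o1 : (g * m) % 2 = 1 := by rw [Nat.mul_mod, ho, mo]
    have hd := h.dt (D := g * m) o1 (h7m g h7)
    by_cases h4 : (g * a) % 4 = 1
    · rw [if_pos h4]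
      have h4' : (g * m) % 4 = 1 := by have := mod8 g; omega
      unfold GdS
      rw [SW_O, GdO_some, ← hpf g hg0 hu, ← h.un (g * m)]
      refine Iff.trans ?_ (tr hd)
      constructor
      · rintro (h' | h' | h')
        · exact h'.2
        · omega
        · omega
      · exact fun h' => Or.inl ⟨h4', h'⟩
    · rw [if_neg h4]
      have h4' : (g * m) % 4 = 3 := by have := mod8 g; omega
      have hns := ns3_iff r2 hd (h.prod (hsq g hg hu)) h4'
      unfold GdS sys3
      rw [SW_ins, ← hpf g hg0 hu, ← h.un (g * m), ← mod8 g]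
      refine Iff.trans ?_ hns
      constructor
      · rintro (h' | h' | h')
        · omega
        · exact h'.2
        · omega
      · exact fun h' => Or.inr (Or.inl ⟨h4', h'⟩)
  · rw [if_neg ho]
    obtain ⟨g', hg'⟩ : ∃ g', g = 2 * g' := ⟨g / 2, by omega⟩
    have e0 : g / 2 = g' := by omega
    have hsq' : Squarefree g' ∧ g' % 2 = 1 := by
      have := hg
      rw [hg', Pool.Agent.L0h74.EV.Uni.sf_two] at this
      exact ⟨this.2, this.1⟩
    have hu' : ∀ p, p.Prime → p ∣ g' → p ∣ u := fun p hp hd =>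
      hu p hp (by rw [hg']; exact Dvd.dvd.mul_left hd 2)
    have h7' : ¬ 7 ∣ g' := fun h' => h7 (by rw [hg']; exact Dvd.dvd.mul_left h' 2)
    have hg0' : g' ≠ 0 := hsq'.1.ne_zero
    rw [e0]
    have o1 : (g' * m) % 2 = 1 := by rw [Nat.mul_mod, hsq'.2, mo]
    have hd := h.dt (D := g' * m) o1 (h7m g' h7')
    have hns := nse_iff r2 hd (h.prod (hsq g' hsq'.1 hu'))
    have e4 : (g' * m) % 4 = (g' * a) % 4 := by have := mod8 g'; omega
    rw [e4] at hns
    unfold GdS sysE
    rw [SW_ins, ← hpf g' hg0' hu', ← h.un (g' * m)]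
    refine Iff.trans ?_ hns
    have e : g * m / 2 = g' * m := by
      rw [hg', mul_assoc]
      omega
    unfold NSA
    rw [e]
    have e2 : (g * m) % 2 = 0 := by
      rw [hg', mul_assoc]
      omega
    constructor
    · rintro (h' | h' | h')
      · omega
      · omega
      · exact h'.2
    · exact fun h' => Or.inr (Or.inr ⟨e2, h'⟩)

end

end Pool.Agent.L0h2.P
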