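import Pool.Agent.L0h2.P.CEL

/-!
# Project P: the hypotheses on the systems of the numbers `h m`
-/

set_option autoImplicit false
set_option linter.unusedSectionVars false
set_option linter.unusedVariables false
set_option maxHeartbeats 1000000

open scoped Classical

namespace Pool.Agent.L0h2.P

open Finset Filter
open scoped Topology
open Pool.Agent.Y698 Pool.Agent.Y698.SG
open Pool.Agent.L0h4.TW hiding Dt
open Pool.Agent.L0h23.KD (Aw bw tr recA)
open Pool.Agent.L0h23.ED (lam lab S_R2 kn kl kb k7 SysE Sys3 NSE NS3)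
open Pool.Agent.N973.ND (Pr m7 uu ty RecA Gd GR kd Gd_iff)
open Pool.Agent.L0h74.EV (QPw NSA dtO dtE recA_O ns3_iff nse_iff GdE GdO GRO Dt nO tyO Cl n2 bO eO m7O)
open Pool.Agent.L0h74.EV.NEG (card_iN)
open Pool.Agent.L0h61.EV (r2)
open Pool.Agent.Y703.CQ (c2 nr)
open Pool.Agent.L0h74.AP (Cp)
open Pool.Agent.L0h74.KD.KEY (kd_par)
open Pool.Agent.L0h1.KD (ty_cases)

/-- the odd part of a square-free number -/
def od (g : ℕ) : ℕ := if g % 2 = 1 then g else g / 2

theorem od_facts {g : ℕ} (hg : Squarefree g) : Squarefree (od g) ∧ (od g) % 2 = 1 ∧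
    (g % 2 = 1 → g = od g) ∧ (g % 2 = 0 → g = 2 * od g) := by
  unfold od
  by_cases h : g % 2 = 1
  · rw [if_pos h]
    exact ⟨hg, h, fun _ => rfl, fun h' => by omega⟩
  · rw [if_neg h]
    obtain ⟨g', hg'⟩ : ∃ g', g = 2 * g' := ⟨g / 2, by omega⟩
    have e0 : g / 2 = g' := by omega
    have hsq' : g' % 2 = 1 ∧ Squarefree g' := by
      have := hg
      rw [hg', Pool.Agent.L0h74.EV.Uni.sf_two] at this
      exact this
    rw [e0]
    exact ⟨hsq'.2, hsq'.1, fun h' => absurd h' h, fun _ => hg'⟩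

theorem dvd_od {g r : ℕ} (hg : Squarefree g) (hr : r.Prime) (h2 : r ≠ 2) : r ∣ od g ↔ r ∣ g := by
  obtain ⟨h1, h3, h4, h5⟩ := od_facts hg
  rcases Nat.mod_two_eq_zero_or_one g with h | h
  · constructor
    · intro h6
      rw [h5 h]
      exact Dvd.dvd.mul_left h6 2
    · intro h6
      rw [h5 h] at h6
      rcases (Nat.Prime.dvd_mul hr).1 h6 with h7 | h7
      · exact absurd ((Nat.prime_dvd_prime_iff_eq hr Nat.prime_two).1 h7) h2
      · exact h7
  · rw [← h4 h]

/-- the primes of the odd part -/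
theorem pr_od {g : ℕ} (hg : Squarefree g) (h7 : ¬ 7 ∣ g) : ∀ p ∈ (od g).primeFactors, Pr p := by
  obtain ⟨h1, h3, h4, h5⟩ := od_facts hg
  refine Pool.Agent.L0h74.AP.pr_of h3 fun h => h7 ?_
  have h6 : 7 ∣ od g := Nat.dvd_of_mod_eq_zero h
  exact (dvd_od hg (by norm_num) (by norm_num)).1 h6

section
variable {w : ℕ → RR}

theorem kW_O (T : Finset ℕ) : kW (sysO w T) = kd T := by
  have h1 : ∀ c : ℕ, ((sysO w T).W.filter fun x => tyO (sysO w T).d.t x = c).card =
      (T.filter fun p => ty p = c).card := by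
    intro c
    show ((T.image some).filter fun x => tyO 2 x = c).card = _
    rw [filter_image, card_image_of_injective _ (Option.some_injective _)]
    rfl
  unfold kW kd
  rw [h1, h1]

theorem kW_ins (d : Dt) (T : Finset ℕ) : kW ⟨d, insertNone T⟩ =
    kd T + (if d.t = 3 then 1 else 0) - (if d.t = 1 then 1 else 0) := by
  have h1 : ∀ c : ℕ, ((insertNone T).filter fun x => tyO d.t x = c).card =
      (T.filter fun p => ty p = c).card + if d.t = c then 1 else 0 := by
    intro c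
    rw [card_iN T (fun x => tyO d.t x = c)]
    rfl
  unfold kW kd
  simp only [h1]
  push_cast
  ring

theorem dg_O (T : Finset ℕ) (q : ℕ) : dg (sysO w T) q = lg (e7 (w q)) + ∑ r ∈ T, nr r q := by
  unfold dg sysO
  simp only
  rw [sum_image fun a _ b _ h => Option.some_injective _ h]
  rfl

theorem dg_3 (T : Finset ℕ) (σ : ZMod 2) {q : ℕ} (hq : uu q = 0) :
    dg (sys3 w T σ) q = lg (e7 (w q)) + ∑ r ∈ T, nr r q := by
  unfold dg sys3
  simp only
  rw [Finset.sum_insertNone]
  have e1 : nO (dtO w (fun p => lam (w p)) σ).t none (some q) = n2 q := by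
    show n2 q + (if (3 : ℕ) = 3 then uu q else 0) = n2 q
    rw [if_pos rfl, hq, add_zero]
  have e2 : (dtO w (fun p => lam (w p)) σ).b q = lg (e7 (w q)) + n2 q := rfl
  rw [e1, e2]
  have : ∀ a b c : ZMod 2, a + b + (b + c) = a + c := by decide
  exact this _ _ _

theorem dg_E (T : Finset ℕ) (t : ℕ) {q : ℕ} (hq : uu q = 0) :
    dg (sysE w T t) q = lg (e7 (w q)) + (∑ r ∈ T, nr r q + n2 q) := by
  unfold dg sysE
  simp only
  rw [Finset.sum_insertNone]
  have e1 : nO (dtE w (fun p => lam (w p)) t).t none (some q) = n2 q := by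
    show n2 q + (if t = 3 then uu q else 0) = n2 q
    rw [hq]
    split_ifs <;> rw [add_zero]
  have e2 : (dtE w (fun p => lam (w p)) t).b q = lg (e7 (w q)) := rfl
  rw [e1, e2]
  congr 1
  rw [add_comm]
  rfl

theorem sys_t (g a : ℕ) : (sys w g a).d.t = 2 ∨ (sys w g a).d.t = 3 := by
  unfold sys
  by_cases h1 : g % 2 = 1
  · rw [if_pos h1]
    by_cases h2 : g * a % 4 = 1
    · rw [if_pos h2]
      exact Or.inl rfl
    · rw [if_neg h2]
      exact Or.inr rfl
  · rw [if_neg h1]
    by_cases h2 : g / 2 * a % 4 = 3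
    · rw [if_pos h2]
      exact Or.inr rfl
    · rw [if_neg h2]
      exact Or.inl rfl

theorem sys_W (g a : ℕ) : ∀ v ∈ (sys w g a).W, v = none ∨ ∃ p ∈ (od g).primeFactors, v = some p := by
  intro v hv
  have key : ∀ T : Finset ℕ, v ∈ insertNone T → v = none ∨ ∃ p ∈ T, v = some p := by
    intro T h
    rcases v with _ | v
    · exact Or.inl rfl
    · rw [Finset.some_mem_insertNone] at h
      exact Or.inr ⟨v, h, rfl⟩
  unfold od
  unfold sys at hv
  by_cases h1 : g % 2 = 1
  · rw [if_pos h1] at hv ⊢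
    by_cases h2 : g * a % 4 = 1
    · rw [if_pos h2] at hv
      have hv' : v ∈ g.primeFactors.image some := hv
      rw [mem_image] at hv'
      obtain ⟨p, hp, rfl⟩ := hv'
      exact Or.inr ⟨p, hp, rfl⟩
    · rw [if_neg h2] at hv
      exact key _ hv
  · rw [if_neg h1] at hv ⊢
    exact key _ hv

/-- the diagonal of the system -/
theorem sys_dg (g a : ℕ) {q : ℕ} (hq : uu q = 0) : dg (sys w g a) q =
    lg (e7 (w q)) + (∑ r ∈ (od g).primeFactors, nr r q + if g % 2 = 1 then 0 else n2 q) := by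
  unfold sys od
  by_cases h1 : g % 2 = 1
  · rw [if_pos h1, if_pos h1, if_pos h1, add_zero]
    by_cases h2 : g * a % 4 = 1
    · rw [if_pos h2, dg_O]
    · rw [if_neg h2, dg_3 _ _ hq]
  · rw [if_neg h1, if_neg h1, if_neg h1, dg_E _ _ hq]

/-- the parity of the system -/
theorem sys_par {u g a : ℕ} (h4 : 4 ∣ u) (ha : a % 2 = 1) (hg : Squarefree g) (h7 : ¬ 7 ∣ g)
    {S : Finset ℕ} (hS : Cl u a S) : (kW (sys w g a) + kd S) % 2 = 0 := by
  obtain ⟨o1, o2, o3, o4⟩ := od_facts hg
  have hT := kd_par (pr_od hg h7)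
  rw [Nat.prod_primeFactors_of_squarefree o1] at hT
  have hS1 := kd_par hS.1
  have hS4 : (∏ p ∈ S, p) % 4 = a % 4 := by
    rw [← hS.2, Nat.mod_mod_of_dvd _ h4]
  rw [hS4] at hS1
  have hm : (od g * a) % 4 = ((od g) % 4 * (a % 4)) % 4 := Nat.mul_mod _ _ _
  have c1 : (od g) % 4 = 1 ∨ (od g) % 4 = 3 := by omega
  have c2 : a % 4 = 1 ∨ a % 4 = 3 := by omega
  have hod : od g = if g % 2 = 1 then g else g / 2 := rfl
  unfold sys
  by_cases h1 : g % 2 = 1
  · rw [if_pos h1]
    rw [if_pos h1] at hod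
    rw [← hod]
    by_cases h2 : od g * a % 4 = 1
    · rw [if_pos h2, kW_O]
      rcases c1 with c1 | c1 <;> rcases c2 with c2 | c2 <;> rw [c1] at hT hm <;>
        rw [c2] at hS1 hm <;> simp at hT hS1 hm <;> omega
    · rw [if_neg h2]
      unfold sys3
      rw [kW_ins]
      have e1 : (dtO w (fun p => lam (w p)) (if od g * a % 8 = 3 then 1 else 0)).t = 3 := rfl
      rw [e1, if_pos rfl, if_neg (by norm_num)]
      rcases c1 with c1 | c1 <;> rcases c2 with c2 | c2 <;> rw [c1] at hT hm <;>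
        rw [c2] at hS1 hm <;> simp at hT hS1 hm <;> omega
  · rw [if_neg h1]
    rw [if_neg h1] at hod
    rw [← hod]
    unfold sysE
    rw [kW_ins]
    have e1 : (dtE w (fun p => lam (w p)) (if od g * a % 4 = 3 then 3 else 2)).t =
      if od g * a % 4 = 3 then 3 else 2 := rfl
    rw [e1]
    by_cases h2 : od g * a % 4 = 3
    · rw [if_pos h2, if_pos rfl, if_neg (by norm_num)]
      rcases c1 with c1 | c1 <;> rcases c2 with c2 | c2 <;> rw [c1] at hT hm <;>
        rw [c2] at hS1 hm <;> simp at hT hS1 hm <;> omega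
    · rw [if_neg h2, if_neg (by norm_num), if_neg (by norm_num)]
      rcases c1 with c1 | c1 <;> rcases c2 with c2 | c2 <;> rw [c1] at hT hm <;>
        rw [c2] at hS1 hm <;> simp at hT hS1 hm <;> omega

end

section
variable {Qf Pf : ℕ → Finset ℕ} {w : ℕ → RR} {u a : ℕ}

theorem sys_rec (h : QPw Qf Pf w) (g a : ℕ) : RecA (sys w g a).d.A := by
  unfold sys
  by_cases h1 : g % 2 = 1
  · rw [if_pos h1]
    by_cases h2 : g * a % 4 = 1
    · rw [if_pos h2]
      exact recA h.w
    · rw [if_neg h2]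
      exact recA_O h _ _
  · rw [if_neg h1]
    exact recA h.w

/-- **The systems of the numbers `h m` satisfy the hypotheses.** -/
theorem hy_of (hCLS : S_CLS) (h : QPw Qf Pf w) (hc : Cp u a) (h56 : 56 ∣ u) {t : ℕ}
    (g : Fin t → ℕ) (hsq : ∀ l, Squarefree (g l)) (h7 : ∀ l, ¬ 7 ∣ g l)
    (hu : ∀ l p, p.Prime → p ∣ g l → p ∣ u) (hinj : Function.Injective g) :
    ∃ (n : ℕ) (cl : Fin n → ℕ) (x : Fin t → Fin n → ZMod 2),
      Hy (fun l => sys w (g l) a) u a cl x := by
  have h4 : 4 ∣ u := (by norm_num : 4 ∣ 56).trans h56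
  have hao : a % 2 = 1 := hc.modd (Nat.mod_eq_of_lt hc.lt)
  set Ps := u.primeFactors.filter (fun p => p ≠ 7) with hPs
  have hP : ∀ r : Ps, (r : ℕ).Prime ∧ (r : ℕ) ∣ u ∧ (r : ℕ) ≠ 7 := by
    intro r
    have h1 := mem_filter.1 r.2
    exact ⟨Nat.prime_of_mem_primeFactors h1.1, Nat.dvd_of_mem_primeFactors h1.1, h1.2⟩
  have hex : ∀ r : Ps, ∃ c : ℕ, c < 7 * u ∧ c.Coprime (7 * u) ∧ ∀ q, Pr q → q % (7 * u) = c →
      ty q = 2 ∧ (∀ r', Pr r' → r' ∣ u → nr r' q = if r' = (r : ℕ) then 1 else 0) ∧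
        n2 q = if (r : ℕ) = 2 then 1 else 0 := by
    intro r
    obtain ⟨p1, p2, p3⟩ := hP r
    refine hCLS u h56 hc.pos r ?_
    by_cases hr : (r : ℕ) = 2
    · exact Or.inl hr
    · exact Or.inr ⟨⟨p1, hr, p3⟩, p2⟩
  choose cc hcc using hex
  set e := Ps.equivFin.symm with he
  refine ⟨Ps.card, fun i => cc (e i), fun l i => if ((e i : Ps) : ℕ) ∣ g l then 1 else 0, ?_⟩
  refine ⟨hc, h4, fun l => sys_t _ _, fun l => sys_rec h _ _, ?_, ?_, ?_, ?_, ?_, ?_⟩
  · intro l v hv
    rcases sys_W _ _ v hv with rfl | ⟨p, hp, rfl⟩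
    · exact trivial
    · exact pr_od (hsq l) (h7 l) p hp
  · intro l p hp
    rcases sys_W _ _ _ hp with h1 | ⟨p', hp', h1⟩
    · exact absurd h1 (by simp)
    · rw [Option.some_injective _ h1]
      have h2 := pr_od (hsq l) (h7 l) p' hp'
      exact hu l p' h2.1 ((dvd_od (hsq l) h2.1 h2.2.1).1 (Nat.dvd_of_mem_primeFactors hp'))
  · intro l S hS
    exact sys_par h4 hao (hsq l) (h7 l) hS
  · intro i q hq hqc
    obtain ⟨h1, h2, h3⟩ := hcc (e i)
    obtain ⟨k1, k2, k3⟩ := h3 q hq hqc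
    have hq0 : uu q = 0 := by
      rcases ty_cases q with h | h | h | h
      · exact h.2.2
      · rw [h.1] at k1; omega
      · exact h.2.2
      · rw [h.1] at k1; omega
    refine ⟨k1, ?_⟩
    have key : ∀ l, dg (sys w (g l) a) q + (if ((e i : Ps) : ℕ) ∣ g l then 1 else 0) =
        lg (e7 (w q)) := by
      intro l
      rw [sys_dg _ _ hq0]
      obtain ⟨o1, o2, o3, o4⟩ := od_facts (hsq l)
      obtain ⟨p1, p2, p3⟩ := hP (e i)
      have e1 : ∑ r ∈ (od (g l)).primeFactors, nr r q =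
          ∑ r ∈ (od (g l)).primeFactors, if r = ((e i : Ps) : ℕ) then 1 else 0 := by
        refine sum_congr rfl fun r hr => ?_
        have h2' := pr_od (hsq l) (h7 l) r hr
        exact k2 r h2' (hu l r h2'.1 ((dvd_od (hsq l) h2'.1 h2'.2.1).1
          (Nat.dvd_of_mem_primeFactors hr)))
      rw [e1, sum_ite_eq' _ ((e i : Ps) : ℕ) fun _ => (1 : ZMod 2), k3]
      have e2 : (if ((e i : Ps) : ℕ) ∈ (od (g l)).primeFactors then (1 : ZMod 2) else 0) +
          (if g l % 2 = 1 then 0 else if ((e i : Ps) : ℕ) = 2 then 1 else 0) =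
          if ((e i : Ps) : ℕ) ∣ g l then 1 else 0 := by
        by_cases hr : ((e i : Ps) : ℕ) = 2
        · rw [hr, if_pos rfl, if_neg (fun h' => by
            have := Nat.dvd_of_mem_primeFactors h'
            omega), zero_add]
          by_cases hg2 : g l % 2 = 1
          · rw [if_pos hg2, if_neg (by omega)]
          · rw [if_neg hg2, if_pos (by omega)]
        · rw [if_neg hr]
          have e3 : ((e i : Ps) : ℕ) ∈ (od (g l)).primeFactors ↔ ((e i : Ps) : ℕ) ∣ g l := by
            rw [Nat.mem_primeFactors, dvd_od (hsq l) p1 hr]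
            exact ⟨fun h' => h'.2.1, fun h' => ⟨p1, h', o1.ne_zero⟩⟩
          simp only [e3]
          split_ifs <;> simp
      rw [e2]
      have : ∀ x y : ZMod 2, x + y + y = x := by decide
      exact this _ _
    intro l l'
    exact (key l).trans (key l').symm
  · intro i
    obtain ⟨h1, h2, h3⟩ := hcc (e i)
    exact ⟨h1, h2⟩
  · intro l l' hne
    by_contra hcon
    push Not at hcon
    apply hne
    apply hinj
    have hdv : ∀ l l', (∀ i, (if ((e i : Ps) : ℕ) ∣ g l then (1 : ZMod 2) else 0) =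
        if ((e i : Ps) : ℕ) ∣ g l' then 1 else 0) → (g l).primeFactors ⊆ (g l').primeFactors := by
      intro l l' hll p hp
      have hpp := Nat.prime_of_mem_primeFactors hp
      have hpd := Nat.dvd_of_mem_primeFactors hp
      have hmem : p ∈ Ps := by
        rw [hPs, mem_filter, Nat.mem_primeFactors]
        exact ⟨⟨hpp, hu l p hpp hpd, hc.pos.ne'⟩, fun h' => h7 l (by rw [← h']; exact hpd)⟩
      have h1 := hll (e.symm ⟨p, hmem⟩)
      rw [e.apply_symm_apply] at h1
      simp only at h1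
      rw [if_pos hpd] at h1
      rw [Nat.mem_primeFactors]
      refine ⟨hpp, ?_, (hsq l').ne_zero⟩
      by_contra hnd
      rw [if_neg hnd] at h1
      exact one_ne_zero h1
    rw [← Nat.prod_primeFactors_of_squarefree (hsq l),
      ← Nat.prod_primeFactors_of_squarefree (hsq l')]
    rw [subset_antisymm (hdv l l' hcon) (hdv l' l fun i => (hcon i).symm)]

end

end Pool.Agent.L0h2.P
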