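import Pool.Agent.L0h2.P.NUM
import Pool.Agent.L0h2.P.CLS
import Pool.Agent.L0h2.P.DENJ
import Pool.Agent.L0h2.P.FEWJ
import Pool.Agent.L0h2.P.KEYG
import Pool.Agent.L0h2.M.NS
import Pool.Agent.L0h1.EV.All7
import Pool.Agent.L0h74.GF.Fin

/-!
# Project P: the joint law for the twists of `X_0(49)`
-/

set_option autoImplicit false
set_option linter.unusedSectionVars false
set_option linter.unusedVariables false
set_option maxHeartbeats 1000000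

open scoped Classical

namespace Pool.Agent.L0h2.P

open Finset Filter
open scoped Topology
open Pool.Agent.Y698 Pool.Agent.Y698.SG
open Pool.Agent.L0h74.EV (QPw NSA qpw_of critA_iff)
open Pool.Agent.L0h4.TA (exists_w)
open Pool.Agent.L0h1.EV (TT tt_iff rank_all7)
open Pool.Agent.Y703.CQ (c2)
open Pool.Agent.L0h74.AP (Dn Dn_sq Dn_seven)

variable {Qf Pf : ℕ → Finset ℕ} {w : ℕ → RR}

theorem dj : S_DJ := t_DJ (t_KYJ KEYG.t_KEYG) t_FEWJ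

theorem nsa_tt (h : QPw Qf Pf w) {D : ℕ} (hsf : Squarefree D) (h7 : ¬ 7 ∣ D) :
    NSA Qf Pf w D ↔ TT D := by
  rw [← critA_iff h hsf h7]
  exact (tt_iff h hsf h7).symm

theorem pat_tt (h : QPw Qf Pf w) {t : ℕ} (n : Fin t → ℤ) (β : Fin t → Bool) :
    PatN Qf Pf w (fun l => Dn (n l)) β ↔ ∀ l, (TT (Dn (n l)) ↔ β l = true) := by
  unfold PatN
  refine forall_congr' fun l => ?_
  rw [nsa_tt h (Dn_sq _) (Dn_seven _)]

/-- **The joint law of the twists by `D d_l`.** -/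
theorem law_TT (hDJ : S_DJ) {q : ℕ} (hq : 0 < q) (r : ℕ) {t : ℕ}
    (d : Fin t → ℤ) (hd0 : ∀ l, d l ≠ 0) (hinj : Function.Injective fun l => Dn (d l))
    {D₀ : ℕ} (h₀ : Fam q r D₀) (β : Fin t → Bool) :
    Tendsto (fun X : ℕ =>
      (nC (Fam q r) (fun D => ∀ l, (TT (Dn (D * d l)) ↔ β l = true)) X : ℝ) /
      (nC (Fam q r) (fun _ => True) X : ℝ)) atTop (𝓝 (lim β)) := by
  obtain ⟨w, hw⟩ := exists_w
  have h := qpw_of hw
  refine (law_res hDJ t_CLS h hq r d hd0 hinj h₀ β).congr fun X => ?_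
  rw [nC_congr (P := fun D : ℕ => PatN _ _ w (fun l => Dn (D * d l)) β)
    (Q := fun D : ℕ => ∀ l, (TT (Dn (D * d l)) ↔ β l = true))
    (fun D _ => pat_tt h (fun l => D * d l) β) X]

/-- the square-free part of the product -/
theorem tw_facts {D M : ℕ} (hD : Squarefree D ∧ ¬ 7 ∣ D) (hM : Squarefree M ∧ ¬ 7 ∣ M) :
    (Squarefree (Pool.Agent.L0h2.M.tw D M) ∧ ¬ 7 ∣ Pool.Agent.L0h2.M.tw D M) ∧
      D * M = Pool.Agent.L0h2.M.tw D M * (Nat.gcd D M) ^ 2 ∧ Nat.gcd D M ≠ 0 := by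
  have h1 := Pool.Agent.L0h2.M.tw_sq hD.1 hM.1
  have hg : Nat.gcd D M ≠ 0 := Nat.gcd_ne_zero_left hD.1.ne_zero
  refine ⟨⟨h1.1, fun h7 => ?_⟩, ?_, hg⟩
  · have h2 : 7 ∈ (Pool.Agent.L0h2.M.tw D M).primeFactors :=
      Nat.mem_primeFactors.2 ⟨by norm_num, h7, h1.1.ne_zero⟩
    rw [h1.2, Finset.mem_symmDiff] at h2
    rcases h2 with h2 | h2
    · exact hD.2 (Nat.dvd_of_mem_primeFactors h2.1)
    · exact hM.2 (Nat.dvd_of_mem_primeFactors h2.1)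
  · have h3 : (Nat.gcd D M) ^ 2 ∣ D * M := by
      rw [sq]
      exact mul_dvd_mul (Nat.gcd_dvd_left D M) (Nat.gcd_dvd_right D M)
    unfold Pool.Agent.L0h2.M.tw
    exact (Nat.div_mul_cancel h3).symm

theorem Dn_tw {D M : ℕ} (hD : Squarefree D ∧ ¬ 7 ∣ D) (hM : Squarefree M ∧ ¬ 7 ∣ M) :
    Dn ((D : ℤ) * (M : ℤ)) = Pool.Agent.L0h2.M.tw D M := by
  obtain ⟨h1, h2, h3⟩ := tw_facts hD hM
  refine Pool.Agent.L0h74.GF.Dn_unique h1.1 h1.2 (t := ((Nat.gcd D M : ℕ) : ℤ))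
    (by exact_mod_cast h3) (Or.inl ?_)
  exact_mod_cast h2

theorem Dn_nat {M : ℕ} (hM : Squarefree M ∧ ¬ 7 ∣ M) : Dn (M : ℤ) = M :=
  Pool.Agent.L0h74.GF.Dn_unique hM.1 hM.2 (t := 1) one_ne_zero (Or.inl (by ring))

/-- **The joint law of the twists by `D M_l`.** -/
theorem law_tw (hDJ : S_DJ) {q : ℕ} (hq : 0 < q) (r : ℕ) {t : ℕ}
    (M : Fin t → ℕ) (hM : ∀ l, Squarefree (M l) ∧ ¬ 7 ∣ M l) (hinj : Function.Injective M)
    {D₀ : ℕ} (h₀ : Fam q r D₀) (β : Fin t → Bool) :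
    Tendsto (fun X : ℕ =>
      (nC (Fam q r) (fun D => ∀ l, (TT (Pool.Agent.L0h2.M.tw D (M l)) ↔ β l = true)) X : ℝ) /
      (nC (Fam q r) (fun _ => True) X : ℝ)) atTop (𝓝 (lim β)) := by
  have hi : Function.Injective fun l => Dn ((M l : ℕ) : ℤ) := by
    intro l l' hl
    have h1 : Dn ((M l : ℕ) : ℤ) = Dn ((M l' : ℕ) : ℤ) := hl
    rw [Dn_nat (hM l), Dn_nat (hM l')] at h1
    exact hinj h1
  refine (law_TT hDJ hq r (fun l => ((M l : ℕ) : ℤ))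
    (fun l => by exact_mod_cast (hM l).1.ne_zero) hi h₀ β).congr fun X => ?_
  rw [nC_congr (P := fun D : ℕ => ∀ l, (TT (Dn (D * ((M l : ℕ) : ℤ))) ↔ β l = true))
    (Q := fun D : ℕ => ∀ l, (TT (Pool.Agent.L0h2.M.tw D (M l)) ↔ β l = true))
    (fun D hD => forall_congr' fun l => by rw [Dn_tw ⟨hD.1, hD.2.1⟩ (hM l)]) X]

/-- the proportion of the `D` for which at least one of the twists is good -/
theorem law_ex (hDJ : S_DJ) {q : ℕ} (hq : 0 < q) (r : ℕ) {t : ℕ}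
    (M : Fin t → ℕ) (hM : ∀ l, Squarefree (M l) ∧ ¬ 7 ∣ M l) (hinj : Function.Injective M)
    {D₀ : ℕ} (h₀ : Fam q r D₀) :
    Tendsto (fun X : ℕ =>
      (nC (Fam q r) (fun D => ∃ l, TT (Pool.Agent.L0h2.M.tw D (M l))) X : ℝ) /
      (nC (Fam q r) (fun _ => True) X : ℝ)) atTop (𝓝 ((1 - (1 - c2) ^ t) / 2)) := by
  have h1 := law_tw hDJ hq r M hM hinj h₀ (fun _ => false)
  rw [lim_false] at h1
  have h2 : (1 - (1 - c2) ^ t) / 2 = 1 - (1 / 2 * (1 - c2) ^ t + 1 / 2) := by ring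
  rw [h2]
  refine compl_of (Fam q r) _ _ (fam_pos h₀) (h1.congr fun X => ?_)
  rw [nC_congr (P := fun D : ℕ => ∀ l, (TT (Pool.Agent.L0h2.M.tw D (M l)) ↔ false = true))
    (Q := fun D : ℕ => ¬ ∃ l, TT (Pool.Agent.L0h2.M.tw D (M l)))
    (fun D _ => by simp) X]

/-- the proportion of the `D` for which all the twists are good -/
theorem law_all (hDJ : S_DJ) {q : ℕ} (hq : 0 < q) (r : ℕ) {t : ℕ} (ht : t ≠ 0)
    (M : Fin t → ℕ) (hM : ∀ l, Squarefree (M l) ∧ ¬ 7 ∣ M l) (hinj : Function.Injective M)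
    {D₀ : ℕ} (h₀ : Fam q r D₀) :
    Tendsto (fun X : ℕ =>
      (nC (Fam q r) (fun D => ∀ l, TT (Pool.Agent.L0h2.M.tw D (M l))) X : ℝ) /
      (nC (Fam q r) (fun _ => True) X : ℝ)) atTop (𝓝 (c2 ^ t / 2)) := by
  have h1 := law_tw hDJ hq r M hM hinj h₀ (fun _ => true)
  rw [lim_true, if_neg ht] at h1
  have h2 : c2 ^ t / 2 = 1 / 2 * c2 ^ t + 1 / 2 * 0 := by ring
  rw [h2]
  refine h1.congr fun X => ?_
  rw [nC_congr (P := fun D : ℕ => ∀ l, (TT (Pool.Agent.L0h2.M.tw D (M l)) ↔ true = true))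
    (Q := fun D : ℕ => ∀ l, TT (Pool.Agent.L0h2.M.tw D (M l)))
    (fun D _ => by simp) X]

end Pool.Agent.L0h2.P
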