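import Mathlib

/-!
# Project P: general position, the algebra of the vectors of values
-/

set_option autoImplicit false
set_option linter.unusedSectionVars false
set_option linter.unusedVariables false
set_option maxHeartbeats 1000000

open scoped Classical

namespace Pool.Agent.L0h2.P

open Finset

/-- all the fibres of a surjective homomorphism have the same size -/
theorem fib_card {A B : Type} [AddCommGroup A] [Fintype A] [AddCommGroup B] [Fintype B]
    (f : A →+ B) (hf : Function.Surjective f) (b : B) :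
    (univ.filter fun a => f a = b).card * Fintype.card B = Fintype.card A := by
  have h1 : ∀ c : B, (univ.filter fun a => f a = c).card = (univ.filter fun a => f a = b).card := by
    intro c
    obtain ⟨x, hx⟩ := hf (b - c)
    refine card_bij (fun a _ => a + x) ?_ ?_ ?_
    · intro a ha
      rw [mem_filter] at ha ⊢
      refine ⟨mem_univ _, ?_⟩
      rw [map_add, ha.2, hx, add_sub_cancel]
    · intro a _ a' _ h
      exact add_right_cancel h
    · intro a ha
      rw [mem_filter] at ha
      refine ⟨a - x, ?_, sub_add_cancel _ _⟩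
      rw [mem_filter]
      refine ⟨mem_univ _, ?_⟩
      rw [map_sub, ha.2, hx, sub_sub_cancel]
  have h2 : Fintype.card A = ∑ c : B, (univ.filter fun a => f a = c).card := by
    rw [← card_univ]
    exact card_eq_sum_card_fiberwise fun a _ => mem_coe.2 (mem_univ _)
  rw [h2, sum_congr rfl fun c _ => h1 c, sum_const, smul_eq_mul, card_univ, mul_comm]

section
variable {t : ℕ} {ρ : Type} {x : Fin t → ρ → ZMod 2}

theorem z2 (a : ZMod 2) : a = 0 ∨ a = 1 := by
  revert a
  decide

/-- a space of vectors with sum zero which is stable under the multiplications is zero -/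
theorem stable_bot (hsep : ∀ l l' : Fin t, l ≠ l' → ∃ r, x l r ≠ x l' r)
    {R : Submodule (ZMod 2) (Fin t → ZMod 2)} (hR : R ≠ ⊥) (hH : ∀ y ∈ R, ∑ l, y l = 0) :
    ∃ r, ∃ y ∈ R, (fun l => x l r * y l) ∉ R := by
  by_contra hc
  push Not at hc
  -- a vector of minimal support
  obtain ⟨y₀, hy₀, hne₀⟩ := Submodule.exists_mem_ne_zero_of_ne_bot hR
  obtain ⟨y, hy, hmin⟩ := exists_min_image (univ.filter fun y : Fin t → ZMod 2 => y ∈ R ∧ y ≠ 0)
    (fun y => (univ.filter fun l => y l ≠ 0).card) ⟨y₀, mem_filter.2 ⟨mem_univ _, hy₀, hne₀⟩⟩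
  rw [mem_filter] at hy
  obtain ⟨-, hyR, hy0⟩ := hy
  obtain ⟨l, hl⟩ : ∃ l, y l ≠ 0 := by
    by_contra h
    push Not at h
    exact hy0 (funext h)
  obtain ⟨l', hl', hne⟩ : ∃ l', y l' ≠ 0 ∧ l' ≠ l := by
    by_contra h
    push Not at h
    have h1 : ∑ k, y k = y l := by
      refine sum_eq_single l (fun k _ hk => ?_) fun h => absurd (mem_univ _) h
      by_contra h2
      exact hk (h k h2)
    rw [hH y hyR] at h1
    exact hl h1.symm
  obtain ⟨r, hr⟩ := hsep l' l hne
  have h1 := hc r y hyR
  set y' : Fin t → ZMod 2 := fun k => x k r * y k with hy'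
  have hcase : (x l' r = 1 ∧ x l r = 0) ∨ (x l' r = 0 ∧ x l r = 1) := by
    rcases z2 (x l' r) with h2 | h2 <;> rcases z2 (x l r) with h3 | h3
    · exact absurd (h2.trans h3.symm) hr
    · exact Or.inr ⟨h2, h3⟩
    · exact Or.inl ⟨h2, h3⟩
    · exact absurd (h2.trans h3.symm) hr
  have hsub : (univ.filter fun k => y' k ≠ 0) ⊂ univ.filter fun k => y k ≠ 0 := by
    rw [Finset.ssubset_iff_of_subset]
    · rcases hcase with h2 | h2
      · refine ⟨l, mem_filter.2 ⟨mem_univ _, hl⟩, fun h => ?_⟩
        rw [mem_filter] at h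
        apply h.2
        show x l r * y l = 0
        rw [h2.2, zero_mul]
      · refine ⟨l', mem_filter.2 ⟨mem_univ _, hl'⟩, fun h => ?_⟩
        rw [mem_filter] at h
        apply h.2
        show x l' r * y l' = 0
        rw [h2.1, zero_mul]
    · intro k hk
      rw [mem_filter] at hk ⊢
      refine ⟨mem_univ _, fun h => hk.2 ?_⟩
      show x k r * y k = 0
      rw [h, mul_zero]
  have hy'0 : y' ≠ 0 := by
    intro h
    rcases hcase with h2 | h2
    · have h3 : y' l' = 0 := by rw [h]; rfl
      have h4 : x l' r * y l' = 0 := h3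
      rw [h2.1, one_mul] at h4
      exact hl' h4
    · have h3 : y' l = 0 := by rw [h]; rfl
      have h4 : x l r * y l = 0 := h3
      rw [h2.2, one_mul] at h4
      exact hl h4
  have h2 := hmin y' (mem_filter.2 ⟨mem_univ _, h1, hy'0⟩)
  exact absurd (card_lt_card hsub) (not_lt.2 h2)

/-- half of the vectors at most satisfy the condition -/
theorem half {R : Submodule (ZMod 2) (Fin t → ZMod 2)} {ξ y : Fin t → ZMod 2} (hy : y ∈ R)
    (hn : (fun l => ξ l * y l) ∉ R) (a : Fin t → ZMod 2) :
    2 * (univ.filter fun v : Fin t → ZMod 2 => v ∈ R ∧ (fun l => a l + ξ l * v l) ∈ R).card ≤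
      (univ.filter fun v : Fin t → ZMod 2 => v ∈ R).card := by
  set F := univ.filter fun v : Fin t → ZMod 2 => v ∈ R ∧ (fun l => a l + ξ l * v l) ∈ R with hF
  set G := F.image fun v => v + y with hG
  have hGc : G.card = F.card := card_image_of_injective _ fun u v h => add_right_cancel h
  have hdis : Disjoint F G := by
    rw [disjoint_left]
    intro v hv hv'
    rw [hG, mem_image] at hv'
    obtain ⟨u, hu, rfl⟩ := hv'
    rw [hF, mem_filter] at hu hv
    apply hn
    have h1 := R.sub_mem hv.2.2 hu.2.2
    have h2 : (fun l => a l + ξ l * (u + y) l) - (fun l => a l + ξ l * u l) =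
        fun l => ξ l * y l := by
      funext l
      simp only [Pi.sub_apply, Pi.add_apply]
      ring
    rwa [h2] at h1
  have hsub : F ∪ G ⊆ univ.filter fun v : Fin t → ZMod 2 => v ∈ R := by
    intro v hv
    rw [mem_union] at hv
    rw [mem_filter]
    refine ⟨mem_univ _, ?_⟩
    rcases hv with hv | hv
    · rw [hF, mem_filter] at hv
      exact hv.2.1
    · rw [hG, mem_image] at hv
      obtain ⟨u, hu, rfl⟩ := hv
      rw [hF, mem_filter] at hu
      exact R.add_mem hu.2.1 hy
  have h1 := card_le_card hsub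
  rw [card_union_of_disjoint hdis, hGc] at h1
  omega

/-- a set of few indices which span -/
theorem few_span {J : Type} [Fintype J] [Nonempty J] (v : J → Fin t → ZMod 2) :
    ∃ K : Finset J, K.card ≤ t ∧ ∀ w ∈ Submodule.span (ZMod 2) (Set.range v),
      ∃ f : J → ZMod 2, (∀ k, k ∉ K → f k = 0) ∧ ∑ k, f k • v k = w := by
  obtain ⟨B, hB1, hB2, hB3⟩ := exists_linearIndependent (ZMod 2) (Set.range v)
  have hfin : B.Finite := Set.toFinite B
  set B' : Finset (Fin t → ZMod 2) := hfin.toFinset with hB'
  have hmem : ∀ y, y ∈ B' ↔ y ∈ B := fun y => hfin.mem_toFinset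
  have hcard : B'.card ≤ t := by
    have h1 : LinearIndependent (ZMod 2) (fun y : B' => (y : Fin t → ZMod 2)) := by
      have : (fun y : B' => (y : Fin t → ZMod 2)) =
          (fun y : B => (y : Fin t → ZMod 2)) ∘ fun y : B' => ⟨y.1, (hmem _).1 y.2⟩ := rfl
      rw [this]
      refine hB3.comp _ fun a b h => ?_
      have h2 := congrArg (fun y : B => (y : Fin t → ZMod 2)) h
      exact Subtype.ext h2
    have h2 := h1.fintype_card_le_finrank
    rw [Fintype.card_coe, Module.finrank_fintype_fun_eq_card, Fintype.card_fin] at h2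
    exact h2
  have hpre : ∀ y, y ∈ B' → ∃ k, v k = y := fun y hy => hB1 ((hmem y).1 hy)
  choose! g hg using hpre
  refine ⟨B'.image g, card_image_le.trans hcard, ?_⟩
  intro w hw
  rw [← hB2] at hw
  have hw' : w ∈ Submodule.span (ZMod 2) (B' : Set (Fin t → ZMod 2)) := by
    have : (B' : Set (Fin t → ZMod 2)) = B := hfin.coe_toFinset
    rwa [this]
  obtain ⟨c, -, hc⟩ := Submodule.mem_span_finset.1 hw'
  have hginj : Set.InjOn g (B' : Set (Fin t → ZMod 2)) := by
    intro y hy y' hy' h
    rw [← hg y (mem_coe.1 hy), ← hg y' (mem_coe.1 hy'), h]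
  refine ⟨fun k => if k ∈ B'.image g then c (v k) else 0, fun k hk => if_neg hk, ?_⟩
  rw [← hc]
  have h1 : ∀ k, (if k ∈ B'.image g then c (v k) else 0) • v k =
      if k ∈ B'.image g then c (v k) • v k else 0 := by
    intro k
    split_ifs
    · rfl
    · exact zero_smul _ _
  rw [sum_congr rfl fun k _ => h1 k, ← sum_filter, filter_mem_eq_inter, univ_inter,
    sum_image hginj]
  exact sum_congr rfl fun y hy => by rw [hg y hy]

end

end Pool.Agent.L0h2.P
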