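import Pool.Agent.L0h2.P.BX3

/-!
# Project P: the joint law on the regular sets
-/

set_option autoImplicit false
set_option linter.unusedSectionVars false
set_option linter.unusedVariables false
set_option maxHeartbeats 4000000

open scoped Classical

namespace Pool.Agent.L0h2.P

open Finset
open Pool.Agent.Y703.CX (sm la jj XX)
open Pool.Agent.Y703.CQ (nr sg c2 S_C2)
open Pool.Agent.N973.ND (Pr m7 uu ty kd Gv RecA SA S_ALT t_ALT)
open Pool.Agent.N916.GB (HB ps)
open Pool.Agent.L0h1.KD (JK LC)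
open Pool.Agent.L0h74.EV (Dt tyO nO bO GdO PrO kE Cl)
open Pool.Agent.L0h74.EV.KEY (ph CC mem_CC CC_facts CC_disj sm_fill la_fill im_fill ph_fill inj_fill
  hb_box key_val cls_val)
open Pool.Agent.L0h74.KD.KEY (Bil ps_card cl_prime)

theorem kJ_eq (S₀ : Finset ℕ) (J : Finset (ℕ × ℕ)) :
    Pool.Agent.L0h74.EV.KEY.kJ 2 S₀ J = kJ S₀ J := by
  unfold Pool.Agent.L0h74.EV.KEY.kJ kJ kE
  rw [if_neg (by norm_num), add_zero]

section
variable {u a X z H k : ℕ} {S₀ : Finset ℕ} {J : Finset (ℕ × ℕ)} {p : J → ℕ}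

theorem kd_key (hu : 4 ∣ u) (hH : 1 ≤ H) (h₀ : ∀ q ∈ S₀, q ≤ z) (hp : ∀ i : J, p i ∈ CC u z H i) :
    kd (S₀ ∪ univ.image p) = kJ S₀ J := by
  have h1 := (key_val (t := 2) hu (inj_fill hH h₀ hp)).1
  rw [sm_fill hH h₀ hp, la_fill hH h₀ hp, im_fill hH hp, kJ_eq] at h1
  rw [h1]
  unfold kE
  rw [if_neg (by norm_num), add_zero]

theorem cl_key (hH : 1 ≤ H) (h₀ : ∀ q ∈ S₀, q ≤ z) (hp : ∀ i : J, p i ∈ CC u z H i)
    (hcl : ∀ q ∈ S₀, Pr q) (hc : ((∏ p ∈ S₀, p) * ∏ e ∈ J, e.2) % u = a) :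
    Cl u a (S₀ ∪ univ.image p) := by
  refine ⟨?_, ?_⟩
  · intro q hq
    rw [mem_union, mem_image] at hq
    rcases hq with hq | ⟨i, -, rfl⟩
    · exact hcl q hq
    · exact ((mem_CC hH).1 (hp i)).1
  · rw [← cls_val (z := z) (inj_fill hH h₀ hp), sm_fill hH h₀ hp, la_fill hH h₀ hp, im_fill hH hp]
    exact hc

end

theorem card_subt (J : Finset (ℕ × ℕ)) (Q : ℕ × ℕ → Prop) [DecidablePred Q]
    [DecidablePred fun e : J => Q e.1] :
    (univ.filter fun e : J => Q e.1).card = (J.filter Q).card := by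
  rw [← Finset.card_map (Function.Embedding.subtype (· ∈ J))]
  congr 1
  ext x
  simp only [Finset.mem_map, Finset.mem_filter, Finset.mem_univ, true_and,
    Function.Embedding.coe_subtype]
  constructor
  · rintro ⟨u, hu, rfl⟩
    exact ⟨u.2, hu⟩
  · rintro ⟨h, h'⟩
    exact ⟨⟨x, h⟩, h', rfl⟩

/-- `t_BXJ` for any decidable equality -/
theorem box_decJ {t n : ℕ} {s : Fin t → Sy} {ι : Type} [Fintype ι] [inst : DecidableEq ι]
    (lo : LinearOrder ι) {S₀ : Finset ℕ}
    {τ : ι → ℕ} {C : ι → Finset ℕ} (x : Fin t → Fin n → ZMod 2) (JR : Fin n → Finset ι) (X : ι → ℕ)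
    (κ : ℝ) (m : Fin t → ℕ) (mm V Q e N : ℕ) (pat : Fin t → Bool)
    (hmm : ∀ l, m l ≤ mm) (hV : 1 ≤ V) (hVm : ∀ l, V ≤ m l)
    (ht : ∀ l, (s l).d.t = 2 ∨ (s l).d.t = 3) (hA : ∀ l, RecA (s l).d.A)
    (hκ : 0 ≤ κ) (hCX : ∀ i, (C i).card ≤ X i) (hHB : HB C X κ)
    (hW : ∀ l, ∀ v ∈ (s l).W, PrW v) (hS₀ : ∀ v ∈ S₀, Pr v)
    (hdis : ∀ l, ∀ v ∈ S₀, some v ∉ (s l).W)
    (hC : ∀ i, ∀ p ∈ C i, Pr p ∧ p ∉ S₀ ∧ (∀ l, some p ∉ (s l).W) ∧ ty p = τ i)
    (hCd : ∀ i l, i ≠ l → Disjoint (C i) (C l))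
    (hkd : ∀ l, kW (s l) + kd S₀ + ((univ.filter fun i => τ i = 3).card : ℤ) -
      ((univ.filter fun i => τ i = 1).card : ℤ) = 2 * m l)
    (hL : 6 * mm + 3 * V ≤ (univ.filter fun i => τ i = 0).card)
    (hJR : ∀ r, ∀ i ∈ JR r, τ i = 2 ∧ ∀ q ∈ C i, ∀ l l', dg (s l) q + x l r = dg (s l') q + x l' r)
    (sep : ∀ l l' : Fin t, l ≠ l' → ∃ r, x l r ≠ x l' r) (hQ : ∀ r, Q ≤ (JR r).card)
    (he : ((univ.filter fun i => τ i = 2).card + (univ.filter fun i => τ i = 3).card) + t ≤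
      ((univ.filter fun i => τ i = 2).card + (univ.filter fun i => τ i = 1).card) + e)
    (hQ2 : V + (∑ l, (SW (s l) S₀).card + (Kg t + t * e)) ≤ Q)
    (hN : (∑ l, (2 * (SW (s l) S₀).card + 1)) * Fintype.card ι +
      Fintype.card ι * Fintype.card ι ≤ N) :
    |(((Fintype.piFinset C).filter fun p => NdJ s S₀ (univ.image p) ∧
        PatS s pat (S₀ ∪ univ.image p)).card : ℝ) -
      amc pat * (((Fintype.piFinset C).filter fun p => NdJ s S₀ (univ.image p)).card : ℝ)| ≤
    (4 * t + 2) * (1 / 2 : ℝ) ^ V *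
      (((Fintype.piFinset C).filter fun p => NdJ s S₀ (univ.image p)).card : ℝ) +
    2 * 2 ^ N * (κ * ∏ j, (X j : ℝ)) := by
  have e0 : inst = fun a b => lo.toDecidableEq a b := Subsingleton.elim _ _
  subst e0
  have e1 : (JK τ).card = (univ.filter fun i => τ i = 2).card +
      (univ.filter fun i => τ i = 3).card := by
    unfold JK
    rw [filter_or, card_union_of_disjoint]
    rw [disjoint_filter]
    intro i _ h1 h2
    omega
  have e2 : (PQ τ).card = (univ.filter fun i => τ i = 2).card +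
      (univ.filter fun i => τ i = 1).card := by
    unfold PQ
    rw [filter_or, card_union_of_disjoint]
    rw [disjoint_filter]
    intro i _ h1 h2
    omega
  refine (t_BXJ x JR X κ m mm V Q e pat hmm hV hVm ht hA hκ hCX hHB hW hS₀ hdis hC hCd hkd hL
    hJR sep hQ (by rw [e1, e2]; exact he) hQ2).trans (add_le_add le_rfl ?_)
  have h3 : 0 ≤ κ * ∏ j, (X j : ℝ) :=
    mul_nonneg hκ (Finset.prod_nonneg fun j _ => by positivity)
  refine mul_le_mul_of_nonneg_right (mul_le_mul_of_nonneg_left ?_ (by norm_num)) h3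
  refine pow_le_pow_right₀ (by norm_num) (le_trans ?_ hN)
  exact Nat.add_le_add_left ps_card _

/-- **The joint law on the regular sets.** -/
theorem t_KYJ (hKG : S_KEYG) : S_KYJ := by
  obtain ⟨C, hC1, hB⟩ := Pool.Agent.N19.GB.t_BIL
  refine ⟨C, hC1, ?_⟩
  intro t n s u a cl x HY V₀
  obtain ⟨A, hA⟩ : ∃ A : ℕ, A = ∑ l, (kW (s l)).natAbs := ⟨_, rfl⟩
  obtain ⟨w, hw⟩ : ∃ w : ℕ, w = ∑ l, (s l).W.card := ⟨_, rfl⟩
  have hAl : ∀ l, -(A : ℤ) ≤ kW (s l) ∧ kW (s l) ≤ A := by
    intro l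
    have h1 : (kW (s l)).natAbs ≤ A := by
      rw [hA]
      exact single_le_sum (f := fun l => (kW (s l)).natAbs) (fun _ _ => Nat.zero_le _) (mem_univ l)
    omega
  obtain ⟨V, hVd⟩ : ∃ V : ℕ, V = V₀ + 1 := ⟨_, rfl⟩
  refine ⟨2 * V + A, 3 * A + 3 * V + (V + (w + (Kg t + t * t))), 2 * t, 3 * t + 2 * w + 2, ?_⟩
  intro β X z H k N κ hX hH hz hκ hκz hN
  have hu1 : 1 ≤ u := HY.cp.pos
  have hz1 : 1 ≤ z := hu1.trans hz
  have hmain := hKG u a X z H k N (KQ cl (2 * V + A) (3 * A + 3 * V + (V + (w + (Kg t + t * t))))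
    (2 * t)) (fun S => NdJ s (sm z S) (la z S)) (PatS s β) (amc β)
    ((4 * t + 2) * (1 / 2 : ℝ) ^ V₀) (3 ^ ((3 * t + 2 * w + 2) * (k ^ 2 + 1)) * κ) hu1 hX hH hz1 hN
    (by positivity) (by positivity) ?_
  · exact hmain
  intro S₀ J hk
  have hP0 : (0 : ℝ) < ((∏ p ∈ S₀, p : ℕ) : ℝ) := by
    exact_mod_cast Finset.prod_pos fun p hp => (cl_prime (hk.cl p hp)).pos
  have hErr : 0 ≤ (3 : ℝ) ^ ((3 * t + 2 * w + 2) * (k ^ 2 + 1)) * κ *
      (X / ((∏ p ∈ S₀, p : ℕ) : ℝ)) := by positivity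
  by_cases hemp : (Fintype.piFinset fun i : J => CC u z H i) = ∅
  · rw [hemp]
    simp only [filter_empty, card_empty, Nat.cast_zero, mul_zero, sub_zero, abs_zero, zero_add]
    exact hErr
  obtain ⟨p₀, hp₀⟩ := Finset.nonempty_iff_ne_empty.2 hemp
  rw [Fintype.mem_piFinset] at hp₀
  obtain ⟨hq1, hq2, hq3⟩ := hk.kq
  have hcl := cl_key (a := a) hH hk.le hp₀ hk.cl hk.cls
  have hkd := kd_key HY.four hH hk.le hp₀
  -- the sizes
  have hm : ∀ l, ∃ m : ℕ, kW (s l) + kJ S₀ J = 2 * (m : ℤ) := by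
    intro l
    have h1 := HY.par l _ hcl
    rw [hkd] at h1
    have h2 := hAl l
    refine ⟨((kW (s l) + kJ S₀ J) / 2).toNat, ?_⟩
    push_cast at hq1
    omega
  choose m hm using hm
  obtain ⟨K, hK⟩ : ∃ K : ℕ, kJ S₀ J = K := by
    refine ⟨(kJ S₀ J).toNat, ?_⟩
    push_cast at hq1
    omega
  rw [hK] at hq1 hq2 hq3 hm
  have hq2n : 3 * K + (3 * A + 3 * V + (V + (w + (Kg t + t * t)))) ≤
      (J.filter fun e => ty e.2 = 0).card := by exact_mod_cast hq2
  have hq2' : 3 * K + (3 * A + 3 * V) ≤ (J.filter fun e => ty e.2 = 0).card :=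
    (Nat.add_le_add_left (Nat.le_add_right _ _) _).trans hq2n
  have hmm : ∀ l, m l ≤ (A + K) / 2 := by
    intro l
    have h1 := hm l
    have h2 := hAl l
    omega
  have hVm : ∀ l, V ≤ m l := by
    intro l
    have h1 := hm l
    have h2 := hAl l
    push_cast at hq1
    omega
  have c1 : ∀ a : ℕ, (univ.filter fun e : J => ty e.1.2 = a).card =
      (J.filter fun e => ty e.2 = a).card := fun a => card_subt J fun e => ty e.2 = a
  have hkJ : kd S₀ + ((J.filter fun e => ty e.2 = 3).card : ℤ) -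
      ((J.filter fun e => ty e.2 = 1).card : ℤ) = K := by
    rw [← hK]
    rfl
  have hkdS : -(S₀.card : ℤ) ≤ kd S₀ := by
    unfold kd
    have h1 : (S₀.filter fun p => ty p = 1).card ≤ S₀.card := card_filter_le _ _
    omega
  have hinj : Function.Injective (fun i : J => i.1.1) := by
    intro a b hab
    exact Subtype.ext (hk.inj (Finset.mem_coe.2 a.2) (Finset.mem_coe.2 b.2) hab)
  let lo : LinearOrder J := LinearOrder.lift' (fun i : J => i.1.1) hinj
  have hWz : ∀ q, z < q → ∀ l, some q ∉ (s l).W := by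
    intro q hq l h
    have h1 := Nat.le_of_dvd (by omega) (HY.Wu l q h)
    omega
  have hdis : ∀ l, ∀ v ∈ S₀, some v ∉ (s l).W := by
    intro l v hv h
    have h1 := HY.Wu l v h
    refine HY.cp.nd (cl_prime (hk.cl v hv)) hcl.2 ?_ h1
    exact dvd_prod_of_mem _ (mem_union_left _ hv)
  have hSW : ∀ l, (SW (s l) S₀).card = S₀.card + (s l).W.card := by
    intro l
    unfold SW
    rw [card_union_of_disjoint (SW_disj (hdis l)),
      card_image_of_injective _ (Option.some_injective _)]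
  have hSWs : ∑ l, (SW (s l) S₀).card = t * S₀.card + w := by
    rw [sum_congr rfl fun l _ => hSW l, sum_add_distrib, sum_const, card_univ, Fintype.card_fin,
      smul_eq_mul, hw]
  have hSWs2 : ∑ l, (2 * (SW (s l) S₀).card + 1) = 2 * (t * S₀.card + w) + t := by
    rw [sum_add_distrib, ← mul_sum, hSWs, sum_const, card_univ, Fintype.card_fin, smul_eq_mul,
      mul_one]
  have hJk : J.card ≤ k := by have := hk.card; omega
  have hSk : S₀.card ≤ k := by have := hk.card; omega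
  have hbox := box_decJ (s := s) lo (S₀ := S₀) (τ := fun e : J => ty e.1.2)
    (C := fun i : J => CC u z H i) x (fun r => univ.filter fun i : J => i.1.2 = cl r)
    (fun i => XX H i.1.1) κ m ((A + K) / 2) V
    (V + (w + (Kg t + t * t)) + (2 * t) * K + (2 * t) * S₀.card) (t + K + S₀.card)
    ((2 * (t * S₀.card + w) + t) * J.card + J.card * J.card) β hmm
    (by omega) hVm HY.t23 HY.recA hκ
    (fun i => by
      refine (Finset.card_filter_le _ _).trans ?_
      rw [Nat.card_Icc]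
      omega)
    (hb_box hB HY.four hH hz1 hκ hκz) HY.W (fun v hv => hk.cl v hv) hdis
    (fun i p hp => by
      obtain ⟨h3, h4, h5, h6⟩ := CC_facts HY.four hH hp
      refine ⟨h3, fun h => ?_, hWz p h4, h6⟩
      have := hk.le p h
      omega)
    (fun i l hil => CC_disj hH i l hil)
    (fun l => by
      rw [c1, c1]
      have h1 := hm l
      linarith)
    (by
      rw [c1]
      have h1 : 6 * ((A + K) / 2) ≤ 3 * (A + K) := by omega
      clear hq2 hq2n hq1 hq3
      omega)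
    (fun r i hi => by
      have hi2 : i.1.2 = cl r := (mem_filter.1 hi).2
      have key : ∀ q ∈ CC u z H i, Pr q ∧ q % (7 * u) = cl r := by
        intro q hq
        obtain ⟨h1, h2, h3⟩ := (mem_CC hH).1 hq
        refine ⟨h1, ?_⟩
        rw [← hi2]
        exact congrArg Prod.snd h3
      constructor
      · have h1 := CC_facts HY.four hH (hp₀ i)
        obtain ⟨h2, h3⟩ := key _ (hp₀ i)
        show ty i.1.2 = 2
        rw [← h1.2.2.2]
        exact (HY.cls r _ h2 h3).1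
      · intro q hq
        obtain ⟨h2, h3⟩ := key q hq
        exact (HY.cls r _ h2 h3).2)
    HY.sep
    (fun r => by
      have h1 : (univ.filter fun i : J => i.1.2 = cl r).card =
          (J.filter fun e => e.2 = cl r).card := card_subt J fun e => e.2 = cl r
      rw [h1]
      have h2 := hq3 r
      push_cast at h2
      have h3 : ((V + (w + (Kg t + t * t)) + (2 * t) * K + (2 * t) * S₀.card : ℕ) : ℤ) ≤
          ((J.filter fun e => e.2 = cl r).card : ℤ) := by
        push_cast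
        linarith [Int.natCast_nonneg A, Int.natCast_nonneg V]
      exact_mod_cast h3)
    (by
      rw [c1, c1, c1]
      omega)
    (by
      rw [hSWs]
      have h1 : t * (t + K + S₀.card) = t * t + t * K + t * S₀.card := by ring
      rw [h1]
      nlinarith)
    (by
      rw [hSWs2, Fintype.card_coe])
  have e1 : (Fintype.piFinset fun i : J => CC u z H i).filter (fun p =>
      NdJ s (sm z (S₀ ∪ univ.image p)) (la z (S₀ ∪ univ.image p)) ∧
        PatS s β (S₀ ∪ univ.image p)) =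
      (Fintype.piFinset fun i : J => CC u z H i).filter fun p => NdJ s S₀ (univ.image p) ∧
        PatS s β (S₀ ∪ univ.image p) := by
    refine Finset.filter_congr fun p hp => ?_
    rw [Fintype.mem_piFinset] at hp
    rw [sm_fill hH hk.le hp, la_fill hH hk.le hp]
  have e2 : (Fintype.piFinset fun i : J => CC u z H i).filter (fun p =>
      NdJ s (sm z (S₀ ∪ univ.image p)) (la z (S₀ ∪ univ.image p))) =
      (Fintype.piFinset fun i : J => CC u z H i).filter fun p => NdJ s S₀ (univ.image p) := by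
    refine Finset.filter_congr fun p hp => ?_
    rw [Fintype.mem_piFinset] at hp
    rw [sm_fill hH hk.le hp, la_fill hH hk.le hp]
  rw [e1, e2]
  refine hbox.trans (add_le_add ?_ ?_)
  · have h4 : (((Fintype.piFinset fun i : J => CC u z H i).filter fun p =>
        NdJ s S₀ (univ.image p)).card : ℝ) ≤
        ((Fintype.piFinset fun i : J => CC u z H i).card : ℝ) := by
      exact_mod_cast Finset.card_filter_le _ _
    refine mul_le_mul (mul_le_mul_of_nonneg_left ?_ (by positivity)) h4 (Nat.cast_nonneg _)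
      (by positivity)
    exact pow_le_pow_of_le_one (by norm_num) (by norm_num) (by omega)
  · have hprod : ∏ j : J, (XX H j.1.1 : ℝ) ≤ X / ((∏ p ∈ S₀, p : ℕ) : ℝ) := by
      have h5 : ∏ j : J, (XX H j.1.1 : ℝ) = ((∏ k ∈ J, XX H k.1 : ℕ) : ℝ) := by
        rw [← Finset.prod_coe_sort J (fun k => XX H k.1)]
        push_cast
        rfl
      rw [h5, le_div_iff₀ hP0, mul_comm]
      exact_mod_cast hk.prod
    have hexp : (2 * (t * S₀.card + w) + t) * J.card + J.card * J.card + 1 ≤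
        (3 * t + 2 * w + 2) * (k ^ 2 + 1) := by
      have h6 : S₀.card * J.card ≤ k * k := Nat.mul_le_mul hSk hJk
      have h7 : J.card * J.card ≤ k * k := Nat.mul_le_mul hJk hJk
      have h8 : k ≤ k * k := Nat.le_mul_self k
      have h9 : J.card ≤ k * k := hJk.trans h8
      have h10 : t * (S₀.card * J.card) ≤ t * (k * k) := Nat.mul_le_mul_left _ h6
      have h11 : (2 * w + t) * J.card ≤ (2 * w + t) * (k * k) := Nat.mul_le_mul_left _ h9
      nlinarith
    have h5 : 2 * (2 : ℝ) ^ ((2 * (t * S₀.card + w) + t) * J.card + J.card * J.card) ≤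
        3 ^ ((3 * t + 2 * w + 2) * (k ^ 2 + 1)) := by
      calc 2 * (2 : ℝ) ^ ((2 * (t * S₀.card + w) + t) * J.card + J.card * J.card) =
            2 ^ ((2 * (t * S₀.card + w) + t) * J.card + J.card * J.card + 1) := by
            rw [pow_succ]; ring
        _ ≤ 3 ^ ((2 * (t * S₀.card + w) + t) * J.card + J.card * J.card + 1) :=
            pow_le_pow_left₀ (by norm_num) (by norm_num) _
        _ ≤ _ := pow_le_pow_right₀ (by norm_num) hexp
    have h6 : 0 ≤ ∏ j : J, (XX H j.1.1 : ℝ) := Finset.prod_nonneg fun j _ => Nat.cast_nonneg _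
    calc 2 * (2 : ℝ) ^ ((2 * (t * S₀.card + w) + t) * J.card + J.card * J.card) *
        (κ * ∏ j : J, (XX H j.1.1 : ℝ)) ≤
        3 ^ ((3 * t + 2 * w + 2) * (k ^ 2 + 1)) * (κ * (X / ((∏ p ∈ S₀, p : ℕ) : ℝ))) := by
          gcongr
      _ = _ := by ring

end Pool.Agent.L0h2.P
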