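import Pool.Agent.L0h2.P.LA1

/-!
# Project P: the average over the free symbols, several systems
-/

set_option autoImplicit false
set_option linter.unusedSectionVars false
set_option linter.unusedVariables false
set_option maxHeartbeats 1000000

open scoped Classical

namespace Pool.Agent.L0h2.P

open Finset
open Pool.Agent.N973.ND
open Pool.Agent.L0h1.KD

section
variable {t : ℕ} {U : Fin t → Type} [∀ l, Fintype (U l)] {J : Type} [Fintype J] [LinearOrder J]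

/-- the good position -/
def G0 (Jk : Finset J) (Sp Pc : ∀ l, Finset (U l ⊕ J)) (N : ∀ l, U l ⊕ J → U l ⊕ J → ZMod 2)
    (b : ∀ l, U l ⊕ J → ZMod 2) : Prop :=
  (∀ l, E1 (Sp l) (Pc l) (N l) (b l)) ∧ GP Jk Sp Pc N b

/-- the difference of the two indicators -/
noncomputable def ffj (Jk : Finset J) (Sp Pc : ∀ l, Finset (U l ⊕ J))
    (E : ∀ l, U l ⊕ J → U l ⊕ J → ZMod 2) (b : ∀ l, U l ⊕ J → ZMod 2) (m : Fin t → ℕ)
    (pat : Fin t → Bool) (N : ∀ l, U l ⊕ J → U l ⊕ J → ZMod 2) : ℝ :=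
  (if Pat pat Sp Pc N E b ∧ G0 Jk Sp Pc N b then 1 else 0) -
    amp pat m * (if G0 Jk Sp Pc N b then 1 else 0)

variable {Sp Pc : ∀ l, Finset (U l ⊕ J)} {Jk Lc : Finset J}
  {N E : ∀ l, U l ⊕ J → U l ⊕ J → ZMod 2} {b : ∀ l, U l ⊕ J → ZMod 2} {m : Fin t → ℕ}
  {pat : Fin t → Bool} {q : ℕ}

theorem ffj_le (N : ∀ l, U l ⊕ J → U l ⊕ J → ZMod 2) : |ffj Jk Sp Pc E b m pat N| ≤ 1 := by
  unfold ffj
  have h1 := amp_nonneg pat m
  have h2 := amp_le pat m
  split_ifs <;> rw [abs_le] <;> constructor <;> linarith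

theorem ffj_zero (h : ¬ G0 Jk Sp Pc N b) : ffj Jk Sp Pc E b m pat N = 0 := by
  unfold ffj
  rw [if_neg h, if_neg fun h' => h h'.2, mul_zero, sub_zero]

theorem GP_mv {α β : Fin q → J} (hα : ∀ l τ, Sum.inr (α τ) ∉ Pc l)
    (hβ : ∀ l τ, Sum.inr (β τ) ∉ Pc l) (v : Fin q → J → ZMod 2) :
    GP Jk Sp Pc (fun l => pt (N l) (mv Jk α β v)) b ↔ GP Jk Sp Pc N b := by
  unfold GP
  refine forall_congr' fun s => ?_
  refine imp_congr ?_ Iff.rfl
  exact forall_congr' fun l => Zk_mv (N l) (hα l) (hβ l) v (b l) (s l)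

theorem G0_mv {α β : Fin q → J} (hα : ∀ l τ, Sum.inr (α τ) ∉ Pc l)
    (hβ : ∀ l τ, Sum.inr (β τ) ∉ Pc l) (v : Fin q → J → ZMod 2) :
    G0 Jk Sp Pc (fun l => pt (N l) (mv Jk α β v)) b ↔ G0 Jk Sp Pc N b := by
  unfold G0
  rw [GP_mv hα hβ]
  refine and_congr ?_ Iff.rfl
  refine forall_congr' fun l => ?_
  unfold E1
  exact forall_congr' fun x => imp_congr (Wk_mv (N l) (hα l) (hβ l) v (b l) x) Iff.rfl

/-- the sum over the moves -/
theorem step1 (hALT : S_ALT) {mm : ℕ} (hmm : ∀ l, m l ≤ mm)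
    {α β γ : Fin q → J} (hα : Function.Injective α)
    (hβ : Function.Injective β) (hγ : Function.Injective γ)
    (hγβ : ∀ τ τ', γ τ ≠ β τ') (hγα : ∀ τ τ', γ τ ≠ α τ') (hαβ : ∀ τ τ', α τ ≠ β τ')
    (hαP : ∀ l τ, Sum.inr (α τ) ∉ Pc l) (hβP : ∀ l τ, Sum.inr (β τ) ∉ Pc l)
    (hγP : ∀ l τ, Sum.inr (γ τ) ∉ Pc l)
    (hE : ∀ l, ∀ i ∈ Sp l, ∀ j ∈ Sp l, E l i j = E l j i) (hE0 : ∀ l i, E l i i = 0)
    (hcard : ∀ l, (Sp l).card = (Pc l).card + 2 * m l) :
    |∑ a : Fin q → J → ZMod 2, ∑ v : Fin q → J → ZMod 2,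
      ffj Jk Sp Pc E b m pat
        (fun l => pt (pt (N l) (mv Jk γ β a)) (mv Jk α β v))| * 2 ^ q ≤
      t * 2 ^ (2 * mm) * (Fintype.card (Fin q → J → ZMod 2) : ℝ) ^ 2 := by
  by_cases h0 : G0 Jk Sp Pc N b
  · obtain ⟨h1, hgp⟩ := h0
    set K : ℝ := (Fintype.card (Fin q → J → ZMod 2) : ℝ) with hK
    have hK0 : 0 ≤ K := Nat.cast_nonneg _
    set Bd : Fin t → Finset (Fin q → J → ZMod 2) := fun l =>
      univ.filter fun a : Fin q → J → ZMod 2 =>
      ¬ ∀ s, Zk (Sp l) (Pc l) (pt (N l) (mv Jk γ β a)) (b l) s →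
        (∀ τ, Ph (pt (N l) (mv Jk γ β a)) (b l) s (Sum.inr (α τ)) +
          Ph (pt (N l) (mv Jk γ β a)) (b l) s (Sum.inr (β τ)) = 0) → ∀ j, s j = 0 with hBd
    have hb : ∀ l, ((Bd l).card : ℝ) * 2 ^ q ≤ 2 ^ (2 * mm) * K := by
      intro l
      have h2 := astep (Jk := Jk) hβ hγ hγβ hγα hαβ (hγP l) (hβP l) (h1 l) (hcard l)
        (fun s hs hk => hgp.one l s hs hk)
      have h3 : ((Bd l).card : ℝ) * 2 ^ q ≤ 2 ^ (2 * m l) * K := by
        rw [hK]
        exact_mod_cast h2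
      refine h3.trans (mul_le_mul_of_nonneg_right ?_ hK0)
      exact pow_le_pow_right₀ (by norm_num) (by have := hmm l; omega)
    have hin : ∀ a : Fin q → J → ZMod 2, |∑ v : Fin q → J → ZMod 2,
        ffj Jk Sp Pc E b m pat (fun l => pt (pt (N l) (mv Jk γ β a)) (mv Jk α β v))| ≤
        ∑ l, if a ∈ Bd l then K else 0 := by
      intro a
      by_cases ha : ∃ l, a ∈ Bd l
      · obtain ⟨l, ha⟩ := ha
        have h3 : K ≤ ∑ l, if a ∈ Bd l then K else 0 := by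
          have h4 := single_le_sum (f := fun l => if a ∈ Bd l then K else 0)
            (fun l _ => by
              show 0 ≤ if a ∈ Bd l then K else 0
              split_ifs <;> linarith) (mem_univ l)
          simp only [if_pos ha] at h4
          exact h4
        refine le_trans ?_ h3
        refine (abs_sum_le_sum_abs _ _).trans ?_
        refine (sum_le_card_nsmul _ _ 1 fun v _ => ffj_le _).trans (le_of_eq ?_)
        rw [card_univ, nsmul_eq_mul, mul_one]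
      · push Not at ha
        have hnn : 0 ≤ ∑ l, if a ∈ Bd l then K else 0 := sum_nonneg fun l _ => by
          split_ifs <;> linarith
        have hgood : ∀ l s, Zk (Sp l) (Pc l) (pt (N l) (mv Jk γ β a)) (b l) s →
            (∀ τ, Ph (pt (N l) (mv Jk γ β a)) (b l) s (Sum.inr (α τ)) +
              Ph (pt (N l) (mv Jk γ β a)) (b l) s (Sum.inr (β τ)) = 0) → ∀ j, s j = 0 := by
          intro l
          by_contra hc
          exact ha l (mem_filter.2 ⟨mem_univ _, hc⟩)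
        have hG0a : G0 Jk Sp Pc (fun l => pt (N l) (mv Jk γ β a)) b :=
          (G0_mv hγP hβP a).2 ⟨h1, hgp⟩
        have h2 := vstep hALT (N := fun l => pt (N l) (mv Jk γ β a)) hα hβ hαβ hαP hβP hE hE0
          (fun l x hx => hG0a.1 l x hx) hcard hG0a.2 hgood pat
        have h3 : ∀ v : Fin q → J → ZMod 2,
            ffj Jk Sp Pc E b m pat (fun l => pt (pt (N l) (mv Jk γ β a)) (mv Jk α β v)) =
            (if Pat pat Sp Pc (fun l => pt (pt (N l) (mv Jk γ β a)) (mv Jk α β v)) E b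
              then (1 : ℝ) else 0) - amp pat m := by
          intro v
          have hG : G0 Jk Sp Pc (fun l => pt (pt (N l) (mv Jk γ β a)) (mv Jk α β v)) b :=
            (G0_mv (N := fun l => pt (N l) (mv Jk γ β a)) hαP hβP v).2 hG0a
          unfold ffj
          rw [if_pos hG, mul_one]
          simp only [hG, and_true]
        rw [sum_congr rfl fun v _ => h3 v, sum_sub_distrib, sum_const, card_univ, nsmul_eq_mul,
          ← hK]
        have h4 : ∑ v : Fin q → J → ZMod 2,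
            (if Pat pat Sp Pc (fun l => pt (pt (N l) (mv Jk γ β a)) (mv Jk α β v)) E b
              then (1 : ℝ) else 0) =
            ((univ.filter fun v : Fin q → J → ZMod 2 =>
              Pat pat Sp Pc (fun l => pt (pt (N l) (mv Jk γ β a)) (mv Jk α β v)) E b).card : ℝ) := by
          rw [card_filter]
          push_cast
          rfl
        rw [h4, h2, ← hK, mul_comm, sub_self, abs_zero]
        exact hnn
    have hsum : |∑ a : Fin q → J → ZMod 2, ∑ v : Fin q → J → ZMod 2,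
        ffj Jk Sp Pc E b m pat (fun l => pt (pt (N l) (mv Jk γ β a)) (mv Jk α β v))| ≤
        ∑ l, (Bd l).card * K := by
      refine (abs_sum_le_sum_abs _ _).trans ?_
      refine (sum_le_sum fun a _ => hin a).trans (le_of_eq ?_)
      rw [sum_comm]
      refine sum_congr rfl fun l _ => ?_
      rw [← sum_filter, sum_const, nsmul_eq_mul, filter_mem_eq_inter, univ_inter]
    calc _ ≤ (∑ l, (Bd l).card * K) * 2 ^ q := mul_le_mul_of_nonneg_right hsum (by positivity)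
      _ = ∑ l, ((Bd l).card * 2 ^ q) * K := by
          rw [sum_mul]
          exact sum_congr rfl fun l _ => by ring
      _ ≤ ∑ _l : Fin t, (2 ^ (2 * mm) * K) * K :=
          sum_le_sum fun l _ => mul_le_mul_of_nonneg_right (hb l) hK0
      _ = t * 2 ^ (2 * mm) * K ^ 2 := by
          rw [sum_const, card_univ, Fintype.card_fin, nsmul_eq_mul]
          ring
  · have h2 : ∑ a : Fin q → J → ZMod 2, ∑ v : Fin q → J → ZMod 2,
        ffj Jk Sp Pc E b m pat (fun l => pt (pt (N l) (mv Jk γ β a)) (mv Jk α β v)) = 0 := by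
      refine sum_eq_zero fun a _ => sum_eq_zero fun v _ => ffj_zero fun h3 => h0 ?_
      exact (G0_mv hγP hβP a).1
        ((G0_mv (N := fun l => pt (N l) (mv Jk γ β a)) hαP hβP v).1 h3)
    rw [h2, abs_zero, zero_mul]
    positivity

/-- **the average over the free symbols** -/
theorem la2 (hALT : S_ALT) {mm : ℕ} (hmm : ∀ l, m l ≤ mm)
    (hLcP : ∀ l, ∀ k ∈ Lc, Sum.inr k ∉ Pc l)
    (hE : ∀ l, ∀ i ∈ Sp l, ∀ j ∈ Sp l, E l i j = E l j i) (hE0 : ∀ l i, E l i i = 0)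
    (hcard : ∀ l, (Sp l).card = (Pc l).card + 2 * m l)
    (hq : 3 * q ≤ Lc.card) :
    |∑ ε : ↥(Jk ×ˢ Lc) → ZMod 2, ffj Jk Sp Pc E b m pat (fun l => pt (N l) (xe ε))| * 2 ^ q ≤
      t * 2 ^ (2 * mm) * 2 ^ Fintype.card ↥(Jk ×ˢ Lc) := by
  -- the columns
  set e := Lc.equivFin.symm with he
  have hlt : ∀ (c : Fin 3) (τ : Fin q), q * c + τ < Lc.card := by
    intro c τ
    have h1 := c.2
    have h2 := τ.2
    have h3 : q * (c : ℕ) ≤ q * 2 := Nat.mul_le_mul_left _ (by omega)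
    omega
  set φ : Fin 3 → Fin q → J := fun c τ => (e ⟨q * c + τ, hlt c τ⟩ : J) with hφ
  have hφL : ∀ c τ, φ c τ ∈ Lc := fun c τ => (e ⟨q * c + τ, hlt c τ⟩).2
  have hφi : ∀ c c' τ τ', φ c τ = φ c' τ' → c = c' ∧ τ = τ' := by
    intro c c' τ τ' h
    have h1 : q * (c : ℕ) + τ = q * c' + τ' := by
      have h2 := e.injective (Subtype.ext h)
      simpa using h2
    have h2 := τ.2
    have h3 := τ'.2
    have hq0 : 0 < q := by omega
    have h4 : (q * (c : ℕ) + τ) / q = c := by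
      rw [Nat.mul_add_div hq0, Nat.div_eq_of_lt h2, add_zero]
    have h5 : (q * (c' : ℕ) + τ') / q = c' := by
      rw [Nat.mul_add_div hq0, Nat.div_eq_of_lt h3, add_zero]
    have h6 : (c : ℕ) = c' := by rw [← h4, h1, h5]
    refine ⟨Fin.ext h6, Fin.ext ?_⟩
    rw [h6] at h1
    omega
  have hne : ∀ c c' : Fin 3, c ≠ c' → ∀ τ τ', φ c τ ≠ φ c' τ' := fun c c' hc τ τ' h =>
    hc (hφi _ _ _ _ h).1
  have hinjφ : ∀ c, Function.Injective (φ c) := fun c τ τ' h => (hφi _ _ _ _ h).2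
  set K : ℝ := (Fintype.card (Fin q → J → ZMod 2) : ℝ) with hK
  have hK0 : 0 < K := by
    rw [hK]
    exact_mod_cast Fintype.card_pos
  -- the sum over the moves for each change
  have h1 : ∀ ε : ↥(Jk ×ˢ Lc) → ZMod 2, |∑ a : Fin q → J → ZMod 2, ∑ v : Fin q → J → ZMod 2,
      ffj Jk Sp Pc E b m pat (fun l => pt (pt (pt (N l) (xe ε)) (mv Jk (φ 0) (φ 2) a))
        (mv Jk (φ 1) (φ 2) v))| * 2 ^ q ≤
      t * 2 ^ (2 * mm) * K ^ 2 := fun ε =>
    step1 (N := fun l => pt (N l) (xe ε)) hALT hmm (hinjφ 1) (hinjφ 2) (hinjφ 0)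
      (hne 0 2 (by decide)) (hne 0 1 (by decide))
      (hne 1 2 (by decide)) (fun l τ => hLcP l _ (hφL _ _)) (fun l τ => hLcP l _ (hφL _ _))
      (fun l τ => hLcP l _ (hφL _ _)) hE hE0 hcard
  -- invariance
  have h2 : ∀ a v : Fin q → J → ZMod 2, ∑ ε : ↥(Jk ×ˢ Lc) → ZMod 2,
      ffj Jk Sp Pc E b m pat (fun l => pt (pt (pt (N l) (xe ε)) (mv Jk (φ 0) (φ 2) a))
        (mv Jk (φ 1) (φ 2) v)) =
      ∑ ε : ↥(Jk ×ˢ Lc) → ZMod 2, ffj Jk Sp Pc E b m pat (fun l => pt (N l) (xe ε)) := by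
    intro a v
    set d : ↥(Jk ×ˢ Lc) → ZMod 2 := (fun e => mv Jk (φ 0) (φ 2) a e.1.1 e.1.2) +
      fun e => mv Jk (φ 1) (φ 2) v e.1.1 e.1.2 with hd
    have h3 : ∀ ε : ↥(Jk ×ˢ Lc) → ZMod 2,
        (fun l => pt (pt (pt (N l) (xe ε)) (mv Jk (φ 0) (φ 2) a)) (mv Jk (φ 1) (φ 2) v)) =
          fun l => pt (N l) (xe (ε + d)) := by
      intro ε
      funext l
      rw [pt_pt (N l) (xe ε), xe_res _ (mv_supp (fun τ => hφL 0 τ) (fun τ => hφL 2 τ) a), pt_pt,
        xe_res _ (mv_supp (fun τ => hφL 1 τ) (fun τ => hφL 2 τ) v), add_assoc]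
    simp only [h3]
    exact Equiv.sum_comp (Equiv.addRight d) fun ε =>
      ffj Jk Sp Pc E b m pat (fun l => pt (N l) (xe ε))
  have h3 : K ^ 2 * ∑ ε : ↥(Jk ×ˢ Lc) → ZMod 2,
      ffj Jk Sp Pc E b m pat (fun l => pt (N l) (xe ε)) =
      ∑ ε : ↥(Jk ×ˢ Lc) → ZMod 2, ∑ a : Fin q → J → ZMod 2, ∑ v : Fin q → J → ZMod 2,
      ffj Jk Sp Pc E b m pat (fun l => pt (pt (pt (N l) (xe ε)) (mv Jk (φ 0) (φ 2) a))
        (mv Jk (φ 1) (φ 2) v)) := by
    rw [sum_comm]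
    have h4 : ∀ a : Fin q → J → ZMod 2, ∑ ε : ↥(Jk ×ˢ Lc) → ZMod 2,
        ∑ v : Fin q → J → ZMod 2, ffj Jk Sp Pc E b m pat
          (fun l => pt (pt (pt (N l) (xe ε)) (mv Jk (φ 0) (φ 2) a)) (mv Jk (φ 1) (φ 2) v)) =
        K * ∑ ε : ↥(Jk ×ˢ Lc) → ZMod 2,
          ffj Jk Sp Pc E b m pat (fun l => pt (N l) (xe ε)) := by
      intro a
      rw [sum_comm, sum_congr rfl fun v _ => h2 a v, sum_const, card_univ, nsmul_eq_mul]
    rw [sum_congr rfl fun a _ => h4 a, sum_const, card_univ, nsmul_eq_mul]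
    ring
  have h4 : K ^ 2 * (|∑ ε : ↥(Jk ×ˢ Lc) → ZMod 2,
      ffj Jk Sp Pc E b m pat (fun l => pt (N l) (xe ε))| * 2 ^ q) ≤
      K ^ 2 * (t * 2 ^ (2 * mm) * 2 ^ Fintype.card ↥(Jk ×ˢ Lc)) := by
    have e1 : K ^ 2 * (|∑ ε : ↥(Jk ×ˢ Lc) → ZMod 2,
        ffj Jk Sp Pc E b m pat (fun l => pt (N l) (xe ε))| * 2 ^ q) =
        |K ^ 2 * ∑ ε : ↥(Jk ×ˢ Lc) → ZMod 2,
          ffj Jk Sp Pc E b m pat (fun l => pt (N l) (xe ε))| * 2 ^ q := by
      rw [abs_mul, abs_of_nonneg (by positivity : (0 : ℝ) ≤ K ^ 2), mul_assoc]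
    rw [e1, h3]
    have h5 := abs_sum_le_sum_abs (fun ε : ↥(Jk ×ˢ Lc) → ZMod 2 =>
      ∑ a : Fin q → J → ZMod 2, ∑ v : Fin q → J → ZMod 2,
      ffj Jk Sp Pc E b m pat (fun l => pt (pt (pt (N l) (xe ε)) (mv Jk (φ 0) (φ 2) a))
        (mv Jk (φ 1) (φ 2) v))) univ
    refine (mul_le_mul_of_nonneg_right h5 (by positivity)).trans ?_
    rw [sum_mul]
    refine (sum_le_card_nsmul _ _ _ fun ε _ => h1 ε).trans (le_of_eq ?_)
    rw [card_univ, Fintype.card_fun, ZMod.card, nsmul_eq_mul]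
    push_cast
    ring
  exact le_of_mul_le_mul_left h4 (by positivity)

end

end Pool.Agent.L0h2.P
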