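import Pool.Agent.L0h2.P.CEL2
import Pool.Agent.L0h74.AP.Loc

/-!
# Project P: the joint law
-/

set_option autoImplicit false
set_option linter.unusedSectionVars false
set_option linter.unusedVariables false
set_option maxHeartbeats 1000000

open scoped Classical

namespace Pool.Agent.L0h2.P

open Finset Filter
open scoped Topology
open Pool.Agent.Y698 Pool.Agent.Y698.SG
open Pool.Agent.N973.ND (Pr)
open Pool.Agent.L0h74.EV (QPw NSA SE)
open Pool.Agent.Y703.CQ (c2)
open Pool.Agent.L0h74.AP (Cp Cg GS GSg Ds Dn Dn_pf Dn_sq Dn_seven Dn_dvd Dn_mul HtFn ClassFn cnt ratio)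

/-- the limit -/
noncomputable def lim {t : ℕ} (β : Fin t → Bool) : ℝ :=
  1 / 2 * amc β + 1 / 2 * (if ∀ l, β l = false then 1 else 0)

/-- the pattern of a family of numbers -/
def PatN (Qf Pf : ℕ → Finset ℕ) (w : ℕ → RR) {t : ℕ} (n : Fin t → ℕ) (β : Fin t → Bool) : Prop :=
  ∀ l, (NSA Qf Pf w (n l) ↔ β l = true)

/-- the bijection -/
theorem GS_card {u a : ℕ} (hc : Cp u a) (h4 : 4 ∣ u) (X : ℕ) (G : Finset ℕ → Prop) :
    ((SE u a X).filter G).card = ((GS u a X).filter fun D => G D.primeFactors).card := by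
  have hg : Cg 1 u a := ⟨hc, h4, squarefree_one, one_dvd _, Nat.coprime_one_left 14⟩
  have h1 := Pool.Agent.L0h74.AP.card_eq hg X G
  rw [one_mul, one_mul] at h1
  have h2 : GSg 1 u a X = GS u a X := by
    unfold GSg GS
    rw [one_mul, one_mul]
  rw [h2] at h1
  exact h1

section
variable {Qf Pf : ℕ → Finset ℕ} {w : ℕ → RR}

/-- **The joint law of the numbers `h m`.** -/
theorem baseJ (hDJ : S_DJ) (hCLS : S_CLS) (h : QPw Qf Pf w) {u a : ℕ} (hc : Cp u a)
    (h56 : 56 ∣ u) {t : ℕ}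
    (g : Fin t → ℕ) (hsq : ∀ l, Squarefree (g l)) (h7 : ∀ l, ¬ 7 ∣ g l)
    (hu : ∀ l p, p.Prime → p ∣ g l → p ∣ u) (hinj : Function.Injective g) (β : Fin t → Bool) :
    ∀ ε : ℝ, 0 < ε → ∀ᶠ Y : ℕ in atTop,
      |(((GS u a Y).filter fun m => PatN Qf Pf w (fun l => g l * m) β).card : ℝ) -
        lim β * ((GS u a Y).card : ℝ)| ≤ ε * Y := by
  obtain ⟨n, cl, x, hy⟩ := hy_of hCLS h hc h56 g hsq h7 hu hinj
  intro ε hε
  filter_upwards [hDJ t n _ u a cl x hy β ε hε] with Y hY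
  have h1 := GS_card hc hy.four Y (PatS (fun l => sys w (g l) a) β)
  have h2 := GS_card hc hy.four Y fun _ => True
  rw [Finset.filter_true, Finset.filter_true] at h2
  rw [h1, h2] at hY
  have h3 : (GS u a Y).filter (fun m => PatN Qf Pf w (fun l => g l * m) β) =
      (GS u a Y).filter fun D => PatS (fun l => sys w (g l) a) β D.primeFactors := by
    refine Finset.filter_congr fun m hm => ?_
    rw [GS, mem_filter] at hm
    unfold PatS PatN
    refine forall_congr' fun l => ?_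
    rw [nsa_sys h hc ((by norm_num : 8 ∣ 56).trans h56) (hsq l) (h7 l) (hu l) hm.2.1 hm.2.2]
  rw [h3]
  exact hY

theorem mem_Ds {n : ℤ} {p : ℕ} : p ∈ Ds n ↔ p ≠ 7 ∧ n.natAbs.factorization p % 2 = 1 := by
  rw [Ds, mem_filter]
  constructor
  · exact fun h => h.2
  · intro h
    refine ⟨?_, h⟩
    rw [← Nat.support_factorization, Finsupp.mem_support_iff]
    omega

/-- the square-free part of `g d` determines that of `d` -/
theorem Dn_inj {g d d' : ℤ} (hg : g ≠ 0) (hd : d ≠ 0) (hd' : d' ≠ 0)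
    (h : Dn (g * d) = Dn (g * d')) : Dn d = Dn d' := by
  have h1 : Ds (g * d) = Ds (g * d') := by rw [← Dn_pf, h, Dn_pf]
  have h2 : Ds d = Ds d' := by
    have hf : ∀ (e : ℤ), e ≠ 0 → ∀ p, (g * e).natAbs.factorization p =
        g.natAbs.factorization p + e.natAbs.factorization p := by
      intro e he p
      rw [Int.natAbs_mul, Nat.factorization_mul (Int.natAbs_ne_zero.2 hg)
        (Int.natAbs_ne_zero.2 he)]
      rfl
    ext p
    have h3 : p ∈ Ds (g * d) ↔ p ∈ Ds (g * d') := by rw [h1]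
    rw [mem_Ds, mem_Ds, hf d hd, hf d' hd'] at h3
    rw [mem_Ds, mem_Ds]
    constructor
    · rintro ⟨h4, h5⟩
      refine ⟨h4, ?_⟩
      by_contra h6
      rcases Nat.mod_two_eq_zero_or_one (g.natAbs.factorization p) with h7 | h7
      · have := (h3.1 ⟨h4, by omega⟩).2
        omega
      · have := (h3.2 ⟨h4, by omega⟩).2
        omega
    · rintro ⟨h4, h5⟩
      refine ⟨h4, ?_⟩
      by_contra h6
      rcases Nat.mod_two_eq_zero_or_one (g.natAbs.factorization p) with h7 | h7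
      · have := (h3.2 ⟨h4, by omega⟩).2
        omega
      · have := (h3.1 ⟨h4, by omega⟩).2
        omega
  unfold Dn
  rw [h2]

/-- **The joint law in the sets of square-free integers defined by conditions on the class.** -/
theorem mainJ (hDJ : S_DJ) (hCLS : S_CLS) (h : QPw Qf Pf w) {u : ℕ} (hu : 56 ∣ u) (hu0 : 0 < u)
    {t : ℕ} (d : Fin t → ℤ) (hd0 : ∀ l, d l ≠ 0) (hd : ∀ l p, p.Prime → p ∣ (d l).natAbs → p ∣ u)
    (hinj : Function.Injective fun l => Dn (d l)) {N : ℤ → ℕ} (hNF : HtFn u N) {T : ℤ → Prop}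
    (hT : ClassFn u T) {e₀ : ℤ} (he₀ : Squarefree e₀) (hTe₀ : T e₀) (β : Fin t → Bool) :
    Tendsto (fun X : ℕ =>
      ((cnt N (fun e => T e ∧ PatN Qf Pf w (fun l => Dn (e * d l)) β) X : ℕ) : ℝ) /
      ((cnt N T X : ℕ) : ℝ)) atTop (𝓝 (lim β)) := by
  have hu14 : 14 ∣ u := (by norm_num : 14 ∣ 56).trans hu
  refine ratio hu14 hu0 hNF hT he₀ hTe₀
    (fun e => PatN Qf Pf w (fun l => Dn (e * d l)) β) (lim β) ?_
  intro s g a hs hg hgu hc ε hε
  have hg0 : (g : ℤ) ≠ 0 := by exact_mod_cast hg.ne_zero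
  have hD : ∀ l p, p.Prime → p ∣ Dn (g * d l) → p ∣ u := by
    intro l p hp hdp
    rw [Dn_dvd hp, Ds, mem_filter] at hdp
    have h1 := Nat.dvd_of_mem_primeFactors hdp.1
    rw [Int.natAbs_mul, Int.natAbs_natCast] at h1
    rcases (Nat.Prime.dvd_mul hp).1 h1 with h2 | h2
    · exact h2.trans hgu
    · exact hd l p hp h2
  filter_upwards [baseJ hDJ hCLS h hc hu (fun l => Dn (g * d l)) (fun l => Dn_sq _)
    (fun l => Dn_seven _) hD (fun l l' hll => hinj (Dn_inj hg0 (hd0 l) (hd0 l') hll)) β ε hε]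
    with Y hY
  rw [show (GS u a Y).filter (fun m : ℕ => PatN Qf Pf w (fun l => Dn ((s * g * m) * d l)) β) =
      (GS u a Y).filter (fun m => PatN Qf Pf w (fun l => Dn (g * d l) * m) β) from ?_]
  · exact hY
  · refine Finset.filter_congr fun m hm => ?_
    rw [GS, mem_filter] at hm
    have hcop : Nat.Coprime m u := by
      rw [Nat.coprime_iff_gcd_eq_one, Nat.gcd_comm, Nat.gcd_rec, hm.2.2]
      exact hc.cop
    have h1 : (fun l => Dn ((s * g * m) * d l)) = fun l => Dn (g * d l) * m := by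
      funext l
      rw [Dn_mul hu14 hs hg.ne_zero hgu (hd0 l) (hd l) hm.2.1 hcop]
    rw [h1]

end

end Pool.Agent.L0h2.P
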