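import Pool.Agent.L0h2.P.LAW

/-!
# Project P: the joint law in the residue classes, for the positive square-free `D` prime to `7`
-/

set_option autoImplicit false
set_option linter.unusedSectionVars false
set_option linter.unusedVariables false
set_option maxHeartbeats 1000000

open scoped Classical

namespace Pool.Agent.L0h2.P

open Finset Filter
open scoped Topology
open Pool.Agent.Y698 Pool.Agent.Y698.SG
open Pool.Agent.L0h74.EV (QPw NSA)
open Pool.Agent.Y703.CQ (c2)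
open Pool.Agent.L0h74.AP (Dn HtFn ClassFn cnt classFn_of)

/-- the number of the `D ≤ X` of the class `C` with the property `Q` -/
noncomputable def nC (C Q : ℕ → Prop) (X : ℕ) : ℕ :=
  ((Finset.Icc 1 X).filter fun D => C D ∧ Q D).card

theorem flt (A : Finset ℕ) (P Q : ℕ → Prop) (i : DecidablePred P) (j : DecidablePred Q)
    (h : ∀ D ∈ A, (P D ↔ Q D)) : (A.filter P).card = (A.filter Q).card :=
  congrArg Finset.card (Finset.filter_congr h)

theorem nC_congr {C P Q : ℕ → Prop} (h : ∀ D, C D → (P D ↔ Q D)) (X : ℕ) : nC C P X = nC C Q X := by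
  unfold nC
  exact congrArg Finset.card (Finset.filter_congr fun D _ => and_congr_right fun hD => h D hD)

theorem nC_pos {C Q : ℕ → Prop} {X D : ℕ} (h1 : 1 ≤ D) (h2 : D ≤ X) (hC : C D) (hQ : Q D) :
    0 < nC C Q X := by
  unfold nC
  refine Finset.card_pos.2 ⟨D, ?_⟩
  rw [Finset.mem_filter, Finset.mem_Icc]
  exact ⟨⟨h1, h2⟩, hC, hQ⟩

theorem nC_add' (C P Q U : ℕ → Prop) (hQ : ∀ D, Q D ↔ ¬ P D) (hU : ∀ D, U D) (X : ℕ) :
    nC C P X + nC C Q X = nC C U X := by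
  unfold nC
  rw [← Finset.card_union_of_disjoint]
  · congr 1
    ext D
    have h1 := hQ D
    have h2 := hU D
    simp only [Finset.mem_union, Finset.mem_filter]
    tauto
  · rw [Finset.disjoint_left]
    intro D h1 h2
    rw [Finset.mem_filter] at h1 h2
    exact (hQ D).1 h2.2.2 h1.2.2

theorem nC_add (C P : ℕ → Prop) (X : ℕ) :
    nC C P X + nC C (fun D => ¬ P D) X = nC C (fun _ => True) X :=
  nC_add' C P _ _ (fun _ => Iff.rfl) (fun _ => trivial) X

/-- the complement of an event -/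
theorem compl_of (C P : ℕ → Prop) (c : ℝ) (hpos : ∀ᶠ X : ℕ in atTop, 0 < nC C (fun _ => True) X)
    (h : Tendsto (fun X : ℕ => (nC C (fun D => ¬ P D) X : ℝ) / (nC C (fun _ => True) X : ℝ))
      atTop (nhds c)) :
    Tendsto (fun X : ℕ => (nC C P X : ℝ) / (nC C (fun _ => True) X : ℝ)) atTop (nhds (1 - c)) := by
  refine (h.const_sub 1).congr' ?_
  filter_upwards [hpos] with X hX
  have hX' : (0 : ℝ) < (nC C (fun _ => True) X : ℝ) := by exact_mod_cast hX
  have e : (nC C P X : ℝ) + (nC C (fun D => ¬ P D) X : ℝ) = (nC C (fun _ => True) X : ℝ) := by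
    exact_mod_cast nC_add C P X
  rw [eq_div_iff hX'.ne', sub_mul, div_mul_cancel₀ _ hX'.ne', one_mul]
  linarith

/-- the count of the positive integers -/
theorem cnt_nat {T : ℤ → Prop} (hT : ∀ e, T e → 0 < e) (X : ℕ) :
    cnt Int.natAbs T X = ((Finset.Icc 1 X).filter fun D : ℕ => Squarefree D ∧ T (D : ℤ)).card := by
  unfold cnt
  refine (Finset.card_bij' (fun (e : ℤ) _ => e.natAbs) (fun (D : ℕ) _ => (D : ℤ)) ?_ ?_ ?_ ?_)
  · intro e he
    rw [mem_filter, mem_Icc] at he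
    rw [mem_filter, mem_Icc]
    have h0 := hT e he.2.2.2
    refine ⟨⟨by omega, he.2.2.1⟩, Int.squarefree_natAbs.2 he.2.1, ?_⟩
    rw [Int.natAbs_of_nonneg h0.le]
    exact he.2.2.2
  · intro D hD
    rw [mem_filter, mem_Icc] at hD
    rw [mem_filter, mem_Icc]
    refine ⟨⟨by omega, by omega⟩, Int.squarefree_natCast.2 hD.2.1, ?_, hD.2.2⟩
    rw [Int.natAbs_natCast]
    exact hD.1.2
  · intro e he
    rw [mem_filter, mem_Icc] at he
    exact Int.natAbs_of_nonneg (hT e he.2.2.2).le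
  · intro D _
    exact Int.natAbs_natCast D

theorem ht_natAbs (u : ℕ) : HtFn u Int.natAbs := by
  refine ⟨fun _ g _ => g, fun _ _ _ => le_rfl, ?_⟩
  intro s g m hs
  rw [Int.natAbs_mul, Int.natAbs_mul, Int.natAbs_natCast, Int.natAbs_natCast]
  rcases hs with rfl | rfl
  · rw [Int.natAbs_one, one_mul]
  · rw [Int.natAbs_neg, Int.natAbs_one, one_mul]

/-- the residue classes -/
theorem cf_res {u q : ℕ} (hu0 : 0 < u) (hq : q ∣ u) (r : ℕ) :
    ClassFn u fun e => e % (q : ℤ) = (r : ℤ) % (q : ℤ) := by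
  refine classFn_of hu0 ?_
  intro s g m m' hs hg hgu hm hm' hc hc' hmm hT
  have h1 : (m : ℤ) ≡ (m' : ℤ) [ZMOD (q : ℤ)] := by
    have h2 : m ≡ m' [MOD q] := Nat.ModEq.of_dvd hq hmm
    exact (Int.natCast_modEq_iff).2 h2
  have h3 : (s * g * m : ℤ) ≡ (s * g * m' : ℤ) [ZMOD (q : ℤ)] := Int.ModEq.mul_left _ h1
  have h4 : (s * g * m : ℤ) ≡ (r : ℤ) [ZMOD (q : ℤ)] := hT
  exact h3.symm.trans h4

theorem cf_pos {u : ℕ} (hu0 : 0 < u) : ClassFn u fun e => 0 < e := by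
  refine classFn_of hu0 ?_
  intro s g m m' hs hg hgu hm hm' hc hc' hmm hT
  have hg' : (0 : ℤ) < g := by exact_mod_cast hg
  have hm0 : (0 : ℤ) < m := by exact_mod_cast hm
  have hm0' : (0 : ℤ) < m' := by exact_mod_cast hm'
  rcases hs with rfl | rfl
  · positivity
  · exfalso
    have h1 : (-1 * (g : ℤ) * m) = -(g * m) := by ring
    rw [h1] at hT
    have h2 : (0 : ℤ) < g * m := mul_pos hg' hm0
    linarith

theorem cf_seven {u : ℕ} (hu0 : 0 < u) (h7 : 7 ∣ u) : ClassFn u fun e => ¬ (7 : ℤ) ∣ e := by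
  refine classFn_of hu0 ?_
  intro s g m m' hs hg hgu hm hm' hc hc' hmm hT hd
  apply hT
  have hp : Prime (7 : ℤ) := Int.prime_iff_natAbs_prime.2 (by norm_num)
  rcases hp.dvd_or_dvd hd with h1 | h1
  · exact Dvd.dvd.mul_right h1 _
  · exfalso
    have h2 : 7 ∣ m' := by exact_mod_cast h1
    have h3 : 7 ∣ Nat.gcd m' u := Nat.dvd_gcd h2 h7
    rw [Nat.Coprime] at hc'
    rw [hc'] at h3
    omega

/-- the family -/
def Fam (q r D : ℕ) : Prop := Squarefree D ∧ ¬ 7 ∣ D ∧ D % q = r % q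

/-- the condition on the integers -/
def TRes (q r : ℕ) (e : ℤ) : Prop := 0 < e ∧ ¬ (7 : ℤ) ∣ e ∧ e % (q : ℤ) = (r : ℤ) % (q : ℤ)

theorem TRes_cls {u q : ℕ} (hu0 : 0 < u) (h7 : 7 ∣ u) (hqu : q ∣ u) (r : ℕ) : ClassFn u (TRes q r) :=
  (cf_pos hu0).and ((cf_seven hu0 h7).and (cf_res hu0 hqu r))

theorem TRes_nat (q r : ℕ) {D : ℕ} (hD : 0 < D) : TRes q r (D : ℤ) ↔ ¬ 7 ∣ D ∧ D % q = r % q := by
  constructor
  · rintro ⟨-, h1, h2⟩
    refine ⟨fun h3 => h1 (by exact_mod_cast h3), ?_⟩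
    exact_mod_cast h2
  · rintro ⟨h1, h2⟩
    refine ⟨by exact_mod_cast hD, fun h3 => h1 (by exact_mod_cast h3), ?_⟩
    exact_mod_cast h2

section
variable {Qf Pf : ℕ → Finset ℕ} {w : ℕ → RR}

/-- **The joint law in a residue class**, for the numbers `Dn (D d_l)`. -/
theorem law_res (hDJ : S_DJ) (hCLS : S_CLS) (h : QPw Qf Pf w) {q : ℕ} (hq : 0 < q) (r : ℕ) {t : ℕ}
    (d : Fin t → ℤ) (hd0 : ∀ l, d l ≠ 0) (hinj : Function.Injective fun l => Dn (d l))
    {D₀ : ℕ} (h₀ : Fam q r D₀) (β : Fin t → Bool) :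
    Tendsto (fun X : ℕ =>
      (nC (Fam q r) (fun D => PatN Qf Pf w (fun l => Dn (D * d l)) β) X : ℝ) /
      (nC (Fam q r) (fun _ => True) X : ℝ)) atTop (𝓝 (lim β)) := by
  set u : ℕ := 56 * (q * ∏ l, (d l).natAbs) with hu
  have hP0 : 0 < ∏ l, (d l).natAbs := Finset.prod_pos fun l _ => Int.natAbs_pos.2 (hd0 l)
  have hu0 : 0 < u := by positivity
  have h56 : 56 ∣ u := Dvd.intro _ rfl
  have h7 : 7 ∣ u := (by norm_num : 7 ∣ 56).trans h56
  have hqu : q ∣ u := Dvd.dvd.mul_left (Dvd.intro _ rfl) _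
  have hdu : ∀ l p, p.Prime → p ∣ (d l).natAbs → p ∣ u := fun l p _ hp =>
    Dvd.dvd.mul_left (Dvd.dvd.mul_left (hp.trans (Finset.dvd_prod_of_mem
      (fun l => (d l).natAbs) (Finset.mem_univ l))) _) _
  have h₀0 : 0 < D₀ := Nat.pos_of_ne_zero h₀.1.ne_zero
  have hT₀ : TRes q r (D₀ : ℤ) := (TRes_nat q r h₀0).2 h₀.2
  have key := mainJ hDJ hCLS h h56 hu0 d hd0 hdu hinj (ht_natAbs u) (TRes_cls hu0 h7 hqu r)
    (Int.squarefree_natCast.2 h₀.1) hT₀ β
  refine key.congr fun X => ?_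
  rw [cnt_nat (T := TRes q r) (fun e he => he.1) X,
    cnt_nat (T := fun e => TRes q r e ∧ PatN Qf Pf w (fun l => Dn (e * d l)) β)
      (fun e he => he.1.1) X]
  refine congrArg₂ (fun a b : ℕ => (a : ℝ) / (b : ℝ)) ?_ ?_
  · refine flt _ _ _ _ _ fun D hD => ?_
    have h1 := TRes_nat q r (D := D) (mem_Icc.1 hD).1
    constructor
    · rintro ⟨h2, h3, h4⟩
      exact ⟨⟨h2, h1.1 h3⟩, h4⟩
    · rintro ⟨⟨h2, h3⟩, h4⟩
      exact ⟨h2, h1.2 h3, h4⟩
  · refine flt _ _ _ _ _ fun D hD => ?_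
    have h1 := TRes_nat q r (D := D) (mem_Icc.1 hD).1
    constructor
    · rintro ⟨h2, h3⟩
      exact ⟨⟨h2, h1.1 h3⟩, trivial⟩
    · rintro ⟨⟨h2, h3⟩, h4⟩
      exact ⟨h2, h1.2 h3⟩

theorem fam_pos {q r D₀ : ℕ} (h₀ : Fam q r D₀) :
    ∀ᶠ X : ℕ in atTop, 0 < nC (Fam q r) (fun _ => True) X := by
  filter_upwards [eventually_ge_atTop D₀] with X hX
  exact nC_pos (Nat.pos_of_ne_zero h₀.1.ne_zero) hX h₀ trivial

theorem lim_true {t : ℕ} : lim (fun _ : Fin t => true) =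
    1 / 2 * c2 ^ t + 1 / 2 * (if t = 0 then 1 else 0) := by
  unfold lim amc
  congr 2
  · simp
  · cases t with
    | zero => simp
    | succ n => simp

theorem lim_false {t : ℕ} : lim (fun _ : Fin t => false) = 1 / 2 * (1 - c2) ^ t + 1 / 2 := by
  unfold lim amc
  simp

end

end Pool.Agent.L0h2.P
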